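import Pool.Agent.NH30.KT.Core
import Pool.Agent.TH526.ZL.L

/-!
# Special subvarieties, atypical intersections, and the criterion (helper30)
-/

set_option autoImplicit false

open Function UpperHalfPlane H294ZP MvPolynomial
open Pool.Agent.W282.ZP (isogeny_rel)
open Pool.Agent.W282.ZP

namespace Pool.Agent.NH30.KT

/-- A special subvariety of `Y(1)^n = ℂ^n` of dimension `r` (with more constants allowed): a map
`cls` from the coordinates onto `r` classes (`none` for constant coordinates), an integral matrix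
of positive determinant for every coordinate, and a constant for every coordinate, which is a
special point or integral over the ring generated by `Γ`. -/
structure SpecialVariety (Γ : Finset ℂ) (n r : ℕ) where
  cls : Fin n → Option (Fin r)
  surj : ∀ l : Fin r, ∃ i, cls i = some l
  mat : Fin n → Matrix (Fin 2) (Fin 2) ℤ
  det_pos : ∀ i, 0 < (mat i).det
  const : Fin n → ℂ
  allowed : ∀ i, (∃ τ : ℍ, IsCM τ ∧ const i = jj τ) ∨
    IsIntegral (Algebra.adjoin ℤ (Γ : Set ℂ)) (const i)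

/-- The points of the special subvariety: the constant coordinates are the given constants, and the
coordinates of class `l` are `j (g_i z_l)`, with a free parameter `z_l` in the upper half plane. -/
def SpecialVariety.locus {Γ : Finset ℂ} {n r : ℕ} (Z : SpecialVariety Γ n r) :
    Set (Fin n → ℂ) :=
  {x | ∃ z : Fin r → ℍ, ∀ i, (Z.cls i = none → x i = Z.const i) ∧
    ∀ l, Z.cls i = some l → ∃ w : ℍ,
      (w : ℂ) * (Z.mat i 1 0 * z l + Z.mat i 1 1) = Z.mat i 0 0 * z l + Z.mat i 0 1 ∧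
      x i = jj w}

/-- `X` has no intersection of dimension larger than `r + m - n` with special subvarieties `Z` of
dimension `r`: every irreducible closed subset `A` of `X ∩ Z` has dimension at most `r + m - n`, and
every point of `X ∩ Z` has transcendence degree at most `r + m - n` over `K`. -/
def NoAtypical (K : Subfield ℂ) (Γ : Finset ℂ) {n : ℕ} (m : ℕ) (X : Set (Fin n → ℂ)) : Prop :=
  ∀ (r : ℕ) (Z : SpecialVariety Γ n r),
    (∀ A ⊆ X ∩ Z.locus, zcl A ⊆ A → (idealOf A).IsPrime →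
      zdim A + (n : Cardinal) ≤ (r : Cardinal) + (m : Cardinal)) ∧
    ∀ x ∈ X ∩ Z.locus, ∀ S : Finset (Fin n), AlgebraicIndependent K (fun i : S => x i) →
      S.card + n ≤ r + m

/-- valuation rings above almost all primes -/
theorem places (K : Subfield ℂ) (W : Set K) (hW : W.Finite) (Γ : Finset ℂ)
    (hΓ : ∀ γ ∈ Γ, γ ∈ K) : ∃ D : ℕ, ∀ p : ℕ, p.Prime → D < p → ∀ (τ : Type) (x : τ → ℂ),
      AlgebraicIndependent K x → ∃ V : ValuationSubring ℂ, V.valuation (p : ℂ) < 1 ∧
        (∀ z ∈ W, V.valuation (z : ℂ) ≤ 1) ∧ (∀ z ∈ W, z ≠ 0 → V.valuation (z : ℂ) = 1) ∧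
        (∀ γ ∈ Γ, γ ∈ V) ∧ ∀ j, x j ∈ V := by
  have := hW.to_subtype
  obtain ⟨D, hD⟩ := TH526.ZL.exists_val_units (k := K)
    (Sum.elim (fun z : W => (z : K)) (fun γ : Γ => (⟨γ, hΓ γ γ.2⟩ : K)))
  refine ⟨D, fun p hp hpD τ x hx => ?_⟩
  obtain ⟨V, h1, h2, h3, h4⟩ := hD p hp hpD τ x hx
  exact ⟨V, h1, fun z hz => h2 (Sum.inl ⟨z, hz⟩), fun z hz hz0 => h3 (Sum.inl ⟨z, hz⟩) hz0,
    fun γ hγ => (ValuationSubring.valuation_le_one_iff _ _).1 (h2 (Sum.inr ⟨γ, hγ⟩)), h4⟩

/-- elements integral over the ring generated by elements of a valuation ring -/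
theorem mem_of_integralΓ (V : ValuationSubring ℂ) {Γ : Finset ℂ} (hV : ∀ γ ∈ Γ, γ ∈ V) {z : ℂ}
    (hz : IsIntegral (Algebra.adjoin ℤ (Γ : Set ℂ)) z) : z ∈ V := by
  have hle : ∀ y ∈ Algebra.adjoin ℤ (Γ : Set ℂ), y ∈ V := by
    intro y hy
    induction hy using Algebra.adjoin_induction with
    | mem t ht => exact hV t ht
    | algebraMap t => exact intCast_mem V t
    | add s t _ _ hs ht => exact V.add_mem _ _ hs ht
    | mul s t _ _ hs ht => exact V.mul_mem _ _ hs ht
  obtain ⟨P, hP, hPe⟩ := hz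
  let φ : Algebra.adjoin ℤ (Γ : Set ℂ) →+* V :=
    { toFun := fun y => ⟨y, hle y y.2⟩
      map_one' := rfl
      map_zero' := rfl
      map_mul' := fun _ _ => rfl
      map_add' := fun _ _ => rfl }
  have hint : IsIntegral V z := by
    refine ⟨P.map φ, hP.map _, ?_⟩
    rw [Polynomial.eval₂_map]
    exact hPe
  obtain ⟨y, hy⟩ := IsIntegrallyClosed.isIntegral_iff.1 hint
  rw [← hy]
  exact y.2

/-- **The criterion.** -/
theorem crit (hord : S_ORD2) (K : Subfield ℂ) [Countable K] {n m : ℕ} (Γ : Finset ℂ)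
    (hΓ : ∀ γ ∈ Γ, γ ∈ K) (X : Set (Fin n → ℂ)) {e : Fin n → ℕ} (he : ∀ i, 0 < e i)
    {a b : Fin n → ℤ} (p : Fin (n.choose 2 + 1) → ℕ) (hp : ∀ l, (p l).Prime) {ϖ : ℂ}
    (hϖ0 : ϖ ≠ 0) (hab : ∀ l i, ¬ (p l : ℤ) ∣ a i ∧ ¬ (p l : ℤ) ∣ b i)
    (hplace : ∀ l (S : Finset (Fin n)) (x : Fin n → ℂ), x ∈ X →
      AlgebraicIndependent K (fun i : S => x i) → ∃ V : ValuationSubring ℂ,
        V.valuation (p l : ℂ) < 1 ∧ V.valuation ϖ < 1 ∧ (∀ γ ∈ Γ, γ ∈ V) ∧ (∀ i : S, x i ∈ V) ∧
        ∃ E : Finset (Fin n), E.card ≤ m ∧ ∀ i, i ∉ E →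
          V.valuation (b i * ϖ ^ e i * x i - a i) < 1)
    (hind : ∀ l l', l ≠ l' → ∀ i j : Fin n, i < j → ∀ s s' : ℕ,
      od (p l) (nu e a b i j) (de e a b i j) * p l ^ s ≠
        od (p l') (nu e a b i j) (de e a b i j) * p l' ^ s') :
    NoAtypical K Γ m X := by
  intro r Z
  have hpt : ∀ x ∈ X ∩ Z.locus, ∀ S : Finset (Fin n),
      AlgebraicIndependent K (fun i : S => x i) → S.card + n ≤ r + m := by
    rintro x ⟨hx, z, hz⟩ S hS
    choose V hV1 hV2 hV3 hV4 hV5 using fun l => hplace l S x hx hS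
    have hconst : ∀ i, Z.cls i = none → IsIntegral (Algebra.adjoin ℤ (Γ : Set ℂ)) (x i) := by
      intro i hi
      rw [(hz i).1 hi]
      rcases Z.allowed i with ⟨τ, hτ, h⟩ | h
      · rw [h]
        exact (singular_modulus_integral τ hτ).tower_top
      · exact h
    refine core hord (Λ := K) Z.cls x ?_ ?_ ?_ S hS p hp V hV1 (ϖ := fun _ => ϖ) (fun _ => hϖ0) hV2
      he hab (fun l i hi => mem_of_integralΓ (V l) (hV3 l) (hconst i hi)) hV4 hV5 hind
    · intro i hi
      obtain ⟨P, hP, hPe⟩ := hconst i hi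
      have hle : ∀ y ∈ Algebra.adjoin ℤ (Γ : Set ℂ), y ∈ K := by
        intro y hy
        induction hy using Algebra.adjoin_induction with
        | mem t ht => exact hΓ t ht
        | algebraMap t => exact intCast_mem K t
        | add s t _ _ hs ht => exact K.add_mem hs ht
        | mul s t _ _ hs ht => exact K.mul_mem hs ht
      let φ : Algebra.adjoin ℤ (Γ : Set ℂ) →+* K :=
        { toFun := fun y => ⟨y, hle y y.2⟩
          map_one' := rfl
          map_zero' := rfl
          map_mul' := fun _ _ => rfl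
          map_add' := fun _ _ => rfl }
      have hint : IsIntegral K (x i) := by
        refine ⟨P.map φ, hP.map _, ?_⟩
        rw [Polynomial.eval₂_map]
        exact hPe
      exact hint.isAlgebraic
    · intro i j k hi hj
      obtain ⟨w, hw, hxw⟩ := (hz i).2 k hi
      obtain ⟨w', hw', hxw'⟩ := (hz j).2 k hj
      obtain ⟨a', b', c', d', e1, e2⟩ := isogeny_rel (Z.det_pos i) hw hw'
      rw [hxw, hxw']
      exact isogenous_integral w w' a' b' c' d' (by
        rw [e1]
        exact mul_pos (Z.det_pos i) (Z.det_pos j)) e2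
    · intro i j k hi hj
      obtain ⟨w, hw, hxw⟩ := (hz i).2 k hi
      obtain ⟨w', hw', hxw'⟩ := (hz j).2 k hj
      obtain ⟨a', b', c', d', e1, e2⟩ := isogeny_rel (Z.det_pos i) hw hw'
      have hpos := mul_pos (Z.det_pos i) (Z.det_pos j)
      refine ⟨((Z.mat i).det * (Z.mat j).det).toNat, by omega, w, w', a', b', c', d', ?_, e2, hxw,
        hxw'⟩
      rw [e1, Int.toNat_of_nonneg hpos.le]
  refine ⟨?_, hpt⟩
  intro A hA hcl hprime
  obtain ⟨x, hxA, T, hT, hdim⟩ := Pool.Agent.W466.ZC.generic_dim K A hprime hcl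
  have h2 := hpt x (hA hxA) T hT
  calc zdim A + (n : Cardinal) ≤ (T.card : Cardinal) + (n : Cardinal) := by gcongr
    _ = ((T.card + n : ℕ) : Cardinal) := by push_cast; rfl
    _ ≤ ((r + m : ℕ) : Cardinal) := by exact_mod_cast h2
    _ = (r : Cardinal) + (m : Cardinal) := by push_cast; rfl

end Pool.Agent.NH30.KT
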