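import Pool.Agent.NH30.KT.Stm2
import Pool.Agent.TH526.ZL.K

/-!
# The criterion with roots of unity at several places (helper30)
-/

set_option autoImplicit false

open Function UpperHalfPlane H294ZP MvPolynomial

namespace Pool.Agent.NH30.KT

/-- A zero of a polynomial with integral coefficients whose top coefficient is a unit has an integral
coordinate. -/
theorem top_small (V : ValuationSubring ℂ) {σ : Type} [Fintype σ] [DecidableEq σ]
    (G : MvPolynomial σ ℂ) (hV : ∀ u, V.valuation (G.coeff u) ≤ 1) (d : σ →₀ ℕ)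
    (hd : ∀ u ∈ G.support, ∀ j, u j ≤ d j) (hc : V.valuation (G.coeff d) = 1) (z : σ → ℂ)
    (hz : eval z G = 0) : ∃ j, V.valuation (z j) ≤ 1 := by
  classical
  by_contra hcon
  push Not at hcon
  set v := V.valuation with hv
  have hmem : d ∈ G.support := by
    rw [mem_support_iff]
    intro h0
    rw [h0, map_zero] at hc
    exact zero_ne_one hc
  rw [eval_eq'] at hz
  have hterm : ∀ u : σ →₀ ℕ, v (G.coeff u * ∏ j, z j ^ u j) = v (G.coeff u) * ∏ j, v (z j) ^ u j := by
    intro u
    rw [map_mul, map_prod]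
    congr 1
    refine Finset.prod_congr rfl fun j _ => ?_
    rw [map_pow]
  have hpos : ∀ j, 0 < v (z j) := fun j => zero_lt_one.trans (hcon j)
  have hlt : ∀ u ∈ G.support, u ≠ d → ∏ j, v (z j) ^ u j < ∏ j, v (z j) ^ d j := by
    intro u hu hne
    obtain ⟨j0, hj0⟩ : ∃ j, u j ≠ d j := by
      by_contra h
      push Not at h
      exact hne (Finsupp.ext h)
    rw [← Finset.mul_prod_erase Finset.univ _ (Finset.mem_univ j0),
      ← Finset.mul_prod_erase Finset.univ (fun j => v (z j) ^ d j) (Finset.mem_univ j0)]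
    have h1 : ∏ j ∈ Finset.univ.erase j0, v (z j) ^ u j ≤
        ∏ j ∈ Finset.univ.erase j0, v (z j) ^ d j :=
      Finset.prod_le_prod' fun j _ => pow_le_pow_right₀ (hcon j).le (hd u hu j)
    have h2 : ∏ j ∈ Finset.univ.erase j0, v (z j) ^ d j ≠ 0 :=
      Finset.prod_ne_zero_iff.2 fun j _ => pow_ne_zero _ (hpos j).ne'
    calc v (z j0) ^ u j0 * ∏ j ∈ Finset.univ.erase j0, v (z j) ^ u j ≤
          v (z j0) ^ u j0 * ∏ j ∈ Finset.univ.erase j0, v (z j) ^ d j := by gcongr
      _ < v (z j0) ^ d j0 * ∏ j ∈ Finset.univ.erase j0, v (z j) ^ d j :=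
          mul_lt_mul_of_pos_right (pow_lt_pow_right₀ (hcon j0) (lt_of_le_of_ne (hd u hu j0) hj0))
            (zero_lt_iff.2 h2)
  have h1 := Valuation.map_sum_eq_of_lt v hmem
    (f := fun u => G.coeff u * ∏ j, z j ^ u j) (fun u hu => by
      rw [Finset.mem_sdiff, Finset.mem_singleton] at hu
      rw [hterm, hterm, hc, one_mul]
      exact (mul_le_of_le_one_left' (hV _)).trans_lt (hlt u hu.1 hu.2))
  rw [hz, map_zero, hterm, hc, one_mul] at h1
  exact Finset.prod_ne_zero_iff.2 (fun j _ => pow_ne_zero _ (hpos j).ne') h1.symm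

/-- the residue field of a valuation ring above `p` has characteristic `p` -/
theorem charP_residue (V : ValuationSubring ℂ) {p : ℕ} (hp : p.Prime)
    (hV : V.valuation (p : ℂ) < 1) : CharP (IsLocalRing.ResidueField V) p := by
  have h0 : ((p : ℕ) : IsLocalRing.ResidueField V) = 0 := by
    have h1 : IsLocalRing.residue V ((p : ℕ) : V) = 0 := by
      rw [IsLocalRing.residue_eq_zero_iff, ValuationSubring.valuation_lt_one_iff]
      exact_mod_cast hV
    rwa [map_natCast] at h1
  obtain ⟨q, hq⟩ := CharP.exists (IsLocalRing.ResidueField V)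
  have hq0 : q ∣ p := (CharP.cast_eq_zero_iff _ q p).1 h0
  rcases (Nat.dvd_prime hp).1 hq0 with h | h
  · subst h
    have h1 := CharP.cast_eq_zero (IsLocalRing.ResidueField V) 1
    rw [Nat.cast_one] at h1
    exact absurd h1 one_ne_zero
  · subst h
    exact hq

/-- the order modulo `p` can be computed in the residue field -/
theorem od_eq (V : ValuationSubring ℂ) {p : ℕ} (hp : p.Prime) (hV : V.valuation (p : ℂ) < 1)
    {a b : ℤ} (hb : ¬ (p : ℤ) ∣ b) {u : IsLocalRing.ResidueField V}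
    (hu : (b : IsLocalRing.ResidueField V) * u = a) : orderOf u = od p a b := by
  have := charP_residue V hp hV
  have : Fact p.Prime := ⟨hp⟩
  let φ : ZMod p →+* IsLocalRing.ResidueField V := ZMod.castHom dvd_rfl _
  have hφ : Function.Injective φ := φ.injective
  have hb0 : (b : ZMod p) ≠ 0 := by
    rwa [Ne, ZMod.intCast_zmod_eq_zero_iff_dvd]
  have h1 : φ ((a : ZMod p) * (b : ZMod p)⁻¹) = u := by
    rw [map_mul, map_inv₀, map_intCast, map_intCast, ← hu]
    have h2 : (b : IsLocalRing.ResidueField V) ≠ 0 := by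
      rw [← map_intCast φ b]
      exact (map_ne_zero φ).2 hb0
    field_simp
  rw [← h1]
  exact orderOf_injective (φ : ZMod p →* IsLocalRing.ResidueField V) hφ _

/-- exponents -/
def ex (e f : ℕ) : ℕ := f / Nat.gcd e f

theorem ex_pos {e f : ℕ} (hf : 0 < f) : 0 < ex e f :=
  Nat.div_pos (Nat.le_of_dvd hf (Nat.gcd_dvd_right _ _)) (Nat.gcd_pos_of_pos_right _ hf)

theorem ex_coprime {e f : ℕ} (he : 0 < e) : (ex f e).Coprime (ex e f) := by
  unfold ex
  rw [Nat.gcd_comm f e]
  exact Nat.coprime_div_gcd_div_gcd (Nat.gcd_pos_of_pos_left _ he)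

theorem ex_mul (e f : ℕ) : e * ex e f = f * ex f e := by
  unfold ex
  rw [Nat.gcd_comm f e, ← Nat.mul_div_assoc _ (Nat.gcd_dvd_right _ _),
    ← Nat.mul_div_assoc _ (Nat.gcd_dvd_left _ _), mul_comm]

/-- numerator of the quotient of the leading coefficients -/
def nu {n : ℕ} (e : Fin n → ℕ) (a b : Fin n → ℤ) (i j : Fin n) : ℤ :=
  a i ^ ex (e i) (e j) * b j ^ ex (e j) (e i)

/-- denominator of the quotient of the leading coefficients -/
def de {n : ℕ} (e : Fin n → ℕ) (a b : Fin n → ℤ) (i j : Fin n) : ℤ :=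
  b i ^ ex (e i) (e j) * a j ^ ex (e j) (e i)

/-- Two large coordinates related by an isogeny at one place. -/
theorem one_place (hord : S_ORD2) (V : ValuationSubring ℂ) {p : ℕ} (hp : p.Prime)
    (hV : V.valuation (p : ℂ) < 1) {ϖ : ℂ} (hϖ0 : ϖ ≠ 0) (hϖ : V.valuation ϖ < 1) {n : ℕ}
    {e : Fin n → ℕ} (he : ∀ i, 0 < e i) {a b : Fin n → ℤ}
    (hab : ∀ i, ¬ (p : ℤ) ∣ a i ∧ ¬ (p : ℤ) ∣ b i) {x : Fin n → ℂ} {i j : Fin n}
    (hi : V.valuation (b i * ϖ ^ e i * x i - a i) < 1)
    (hj : V.valuation (b j * ϖ ^ e j * x j - a j) < 1) {N : ℕ} (hN : 0 < N)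
    (hrel : Rel N (x i) (x j)) (hmin : ∀ M : ℕ, 0 < M → M < N → ¬ Rel M (x i) (x j)) :
    ∃ s : ℕ, N = ex (e j) (e i) * ex (e i) (e j) *
      (od p (nu e a b i j) (de e a b i j) * p ^ s) ^ 2 := by
  have hchar := charP_residue V hp hV
  have hunit : ∀ z : ℤ, ¬ (p : ℤ) ∣ z → V.valuation (z : ℂ) = 1 := by
    intro z hz
    have h1 : V.valuation (z : ℂ) ≤ 1 := TH526.ZL.v_int_le V z
    refine le_antisymm h1 ?_
    by_contra hlt
    push Not at hlt
    apply hz
    have h2 : IsLocalRing.residue V (z : V) = 0 := by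
      rw [IsLocalRing.residue_eq_zero_iff, ValuationSubring.valuation_lt_one_iff]
      exact_mod_cast hlt
    rw [map_intCast] at h2
    exact (CharP.intCast_eq_zero_iff _ p z).1 h2
  have hval : ∀ k : Fin n, V.valuation (b k * ϖ ^ e k * x k - a k) < 1 →
      V.valuation (b k * ϖ ^ e k * x k) = 1 := by
    intro k hk
    have h1 := hunit _ (hab k).1
    have h2 : V.valuation (b k * ϖ ^ e k * x k) = V.valuation ((a k : ℂ)) := by
      have h3 : (b k : ℂ) * ϖ ^ e k * x k = (b k * ϖ ^ e k * x k - a k) + a k := by ring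
      have h4 : V.valuation (b k * ϖ ^ e k * x k - a k) < V.valuation (a k : ℂ) := by
        rw [h1]
        exact hk
      rw [h3]
      exact Valuation.map_add_eq_of_lt_right _ h4
    rw [h2, h1]
  have hx : ∀ k : Fin n, V.valuation (b k * ϖ ^ e k * x k - a k) < 1 →
      x k ≠ 0 ∧ V.valuation ϖ ^ e k * V.valuation (x k) = 1 := by
    intro k hk
    have h1 := hval k hk
    have h2 : V.valuation ϖ ^ e k * V.valuation (x k) = 1 := by
      rw [map_mul, map_mul, map_pow, hunit _ (hab k).2, one_mul] at h1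
      exact h1
    refine ⟨?_, h2⟩
    rintro h0
    rw [h0, map_zero, mul_zero] at h2
    exact zero_ne_one h2
  obtain ⟨hi0, hi1⟩ := hx i hi
  obtain ⟨hj0, hj1⟩ := hx j hj
  have hxi : x i ∉ V := by
    rw [← ValuationSubring.valuation_le_one_iff]
    intro hle
    have h1 : V.valuation ϖ ^ e i * V.valuation (x i) < 1 :=
      (mul_le_of_le_one_right' hle).trans_lt (pow_lt_one₀ zero_le hϖ (he i).ne')
    rw [hi1] at h1
    exact lt_irrefl _ h1
  set B := ex (e i) (e j) with hB
  set A := ex (e j) (e i) with hA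
  have hAB : e i * B = e j * A := ex_mul _ _
  have hAp : 0 < A := ex_pos (he i)
  have hBp : 0 < B := ex_pos (he j)
  set u := x i ^ B / x j ^ A with hu
  have hu1 : V.valuation u = 1 := by
    have h1 : V.valuation ϖ ^ (e i * B) * V.valuation (x i) ^ B = 1 := by
      rw [pow_mul, ← mul_pow, hi1, one_pow]
    have h2 : V.valuation ϖ ^ (e j * A) * V.valuation (x j) ^ A = 1 := by
      rw [pow_mul, ← mul_pow, hj1, one_pow]
    rw [hAB] at h1
    have h3 : V.valuation ϖ ^ (e j * A) ≠ 0 := pow_ne_zero _ ((map_ne_zero _).2 hϖ0)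
    have h4 : V.valuation (x i) ^ B = V.valuation (x j) ^ A :=
      mul_left_cancel₀ h3 (h1.trans h2.symm)
    rw [hu, map_div₀, map_pow, map_pow, h4, div_self]
    exact pow_ne_zero _ ((map_ne_zero _).2 hj0)
  have huV : u ∈ V := (ValuationSubring.valuation_le_one_iff _ _).1 hu1.le
  obtain ⟨g, k, hg, hpg, hNg, hprim⟩ := hord V p N A B (x i) (x j) ⟨u, huV⟩ hp hV hN hrel hmin hAp
    hBp (ex_coprime (he i)) hxi ((ValuationSubring.valuation_eq_one_iff V _).2 hu1) (by
      show x i ^ B = u * x j ^ A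
      rw [hu, div_mul_cancel₀ _ (pow_ne_zero _ hj0)])
  -- the residue of `u`
  have hd : ¬ (p : ℤ) ∣ de e a b i j := by
    intro h
    have hpp : Prime (p : ℤ) := Nat.prime_iff_prime_int.1 hp
    rcases hpp.dvd_or_dvd h with h | h
    · exact (hab i).2 (hpp.dvd_of_dvd_pow h)
    · exact (hab j).1 (hpp.dvd_of_dvd_pow h)
  have hres : (de e a b i j : IsLocalRing.ResidueField V) * IsLocalRing.residue V ⟨u, huV⟩ =
      (nu e a b i j : ℤ) := by
    have hmem : ∀ k : Fin n, V.valuation (b k * ϖ ^ e k * x k - a k) < 1 →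
        ∃ w : V, (w : ℂ) = b k * ϖ ^ e k * x k ∧ IsLocalRing.residue V w = (a k : ℤ) := by
      intro k hk
      refine ⟨⟨_, (ValuationSubring.valuation_le_one_iff _ _).1 (hval k hk).le⟩, rfl, ?_⟩
      rw [← map_intCast (IsLocalRing.residue V), ← sub_eq_zero, ← map_sub,
        IsLocalRing.residue_eq_zero_iff, ValuationSubring.valuation_lt_one_iff]
      exact_mod_cast hk
    obtain ⟨wi, hwi, hwi'⟩ := hmem i hi
    obtain ⟨wj, hwj, hwj'⟩ := hmem j hj
    have hkey : ((b i : ℤ) : V) ^ B * wj ^ A * ⟨u, huV⟩ = ((b j : ℤ) : V) ^ A * wi ^ B := by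
      apply Subtype.ext
      push_cast
      rw [hwi, hwj]
      show (b i : ℂ) ^ B * ((b j : ℂ) * ϖ ^ e j * x j) ^ A * u =
        (b j : ℂ) ^ A * ((b i : ℂ) * ϖ ^ e i * x i) ^ B
      have h1 : u * x j ^ A = x i ^ B := by rw [hu, div_mul_cancel₀ _ (pow_ne_zero _ hj0)]
      have h2 : (ϖ ^ e j) ^ A = (ϖ ^ e i) ^ B := by rw [← pow_mul, ← pow_mul, hAB]
      calc (b i : ℂ) ^ B * ((b j : ℂ) * ϖ ^ e j * x j) ^ A * u =
          (b i : ℂ) ^ B * (b j : ℂ) ^ A * (ϖ ^ e j) ^ A * (u * x j ^ A) := by ring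
        _ = _ := by rw [h1, h2]; ring
    have h2 := congrArg (IsLocalRing.residue V) hkey
    simp only [map_mul, map_pow, map_intCast, hwi', hwj'] at h2
    unfold de nu
    push_cast
    rw [← hB, ← hA, h2]
    ring
  have hod := od_eq V hp hV hd hres
  rw [← hprim.eq_orderOf] at hod
  exact ⟨k, by rw [← hod]; exact hNg⟩

/-- **The local criterion.** -/
theorem core (hord : S_ORD2) {Λ : Type} [CommRing Λ] [IsDomain Λ] [Algebra Λ ℂ] {n m r : ℕ}
    (cls : Fin n → Option (Fin r)) (x : Fin n → ℂ)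
    (hconst : ∀ i, cls i = none → IsAlgebraic Λ (x i))
    (hint : ∀ i j k, cls i = some k → cls j = some k → IsIntegral (Algebra.adjoin ℤ {x i}) (x j))
    (hrel : ∀ i j k, cls i = some k → cls j = some k → ∃ N, 0 < N ∧ Rel N (x i) (x j))
    (S : Finset (Fin n)) (hS : AlgebraicIndependent Λ (fun i : S => x i))
    (p : Fin (n.choose 2 + 1) → ℕ) (hp : ∀ l, (p l).Prime)
    (V : Fin (n.choose 2 + 1) → ValuationSubring ℂ)
    (hV : ∀ l, (V l).valuation (p l : ℂ) < 1) {ϖ : Fin (n.choose 2 + 1) → ℂ}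
    (hϖ0 : ∀ l, ϖ l ≠ 0) (hϖ : ∀ l, (V l).valuation (ϖ l) < 1)
    {e : Fin n → ℕ} (he : ∀ i, 0 < e i) {a b : Fin n → ℤ}
    (hab : ∀ l i, ¬ (p l : ℤ) ∣ a i ∧ ¬ (p l : ℤ) ∣ b i)
    (hVc : ∀ l i, cls i = none → x i ∈ V l) (hVx : ∀ l (i : S), x i ∈ V l)
    (hgood : ∀ l, ∃ E : Finset (Fin n), E.card ≤ m ∧ ∀ i, i ∉ E →
      (V l).valuation (b i * ϖ l ^ e i * x i - a i) < 1)
    (hind : ∀ l l', l ≠ l' → ∀ i j : Fin n, i < j → ∀ s s' : ℕ,
      od (p l) (nu e a b i j) (de e a b i j) * p l ^ s ≠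
        od (p l') (nu e a b i j) (de e a b i j) * p l' ^ s') :
    S.card + n ≤ r + m := by
  classical
  have hSsome : ∀ t : S, ∃ k, cls t = some k := by
    intro t
    cases hc : cls t with
    | none => exact ((hS.transcendental t) (hconst t hc)).elim
    | some k => exact ⟨k, rfl⟩
  choose cl hcl using hSsome
  have hclinj : Function.Injective cl := by
    intro t t' htt
    by_contra hne
    exact TH526.ZL.not_algInd' hS hne (hint t t' (cl t) (hcl t) (by rw [htt]; exact hcl t'))
  by_contra hcon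
  push Not at hcon
  have hone : ∀ l, ∃ i j : Fin n, i < j ∧ (∃ k, cls i = some k ∧ cls j = some k) ∧
      (V l).valuation (b i * ϖ l ^ e i * x i - a i) < 1 ∧
      (V l).valuation (b j * ϖ l ^ e j * x j - a j) < 1 := by
    intro l
    obtain ⟨E, hE, hEg⟩ := hgood l
    have hunit : ∀ z : ℤ, ¬ (p l : ℤ) ∣ z → (V l).valuation (z : ℂ) = 1 := by
      intro z hz
      have hchar := charP_residue (V l) (hp l) (hV l)
      refine le_antisymm (TH526.ZL.v_int_le _ z) ?_
      by_contra hlt
      push Not at hlt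
      apply hz
      have h2 : IsLocalRing.residue (V l) (z : V l) = 0 := by
        rw [IsLocalRing.residue_eq_zero_iff, ValuationSubring.valuation_lt_one_iff]
        exact_mod_cast hlt
      rw [map_intCast] at h2
      exact (CharP.intCast_eq_zero_iff _ (p l) z).1 h2
    have hgt : ∀ i, i ∉ E → x i ∉ V l := by
      intro i hi hmem
      have h1 := hEg i hi
      have h2 : (V l).valuation (b i * ϖ l ^ e i * x i) < 1 := by
        rw [map_mul, map_mul, map_pow]
        have h3 : (V l).valuation (x i) ≤ 1 := (ValuationSubring.valuation_le_one_iff _ _).2 hmem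
        have h4 : (V l).valuation (b i : ℂ) ≤ 1 := TH526.ZL.v_int_le _ _
        calc (V l).valuation (b i : ℂ) * (V l).valuation (ϖ l) ^ e i * (V l).valuation (x i) ≤
            1 * (V l).valuation (ϖ l) ^ e i * 1 := by gcongr
          _ < 1 := by
            rw [one_mul, mul_one]
            exact pow_lt_one₀ zero_le (hϖ l) (he i).ne'
      have h3 : (V l).valuation (a i : ℂ) < 1 := by
        have h5 : (a i : ℂ) = b i * ϖ l ^ e i * x i - (b i * ϖ l ^ e i * x i - a i) := by ring
        rw [h5]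
        exact (Valuation.map_sub _ _ _).trans_lt (max_lt h2 h1)
      rw [hunit _ (hab l i).1] at h3
      exact lt_irrefl _ h3
    let Fr : Finset (Option (Fin r)) := (Finset.univ.filter fun k : Fin r =>
      k ∉ Finset.univ.image cl).image some
    have hFr : Fr.card + S.card = r := by
      have h1 : Fr.card = (Finset.univ.filter fun k : Fin r =>
          k ∉ Finset.univ.image cl).card :=
        Finset.card_image_of_injective _ (Option.some_injective _)
      have h2 : (Finset.univ.filter fun k : Fin r => k ∈ Finset.univ.image cl).card = S.card := by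
        have h3 : (Finset.univ.filter fun k : Fin r => k ∈ Finset.univ.image cl) =
            Finset.univ.image cl := by
          ext k; simp
        rw [h3, Finset.card_image_of_injective _ hclinj, Finset.card_univ, Fintype.card_coe]
      have := Finset.card_filter_add_card_filter_not (s := (Finset.univ : Finset (Fin r)))
        (fun k => k ∈ Finset.univ.image cl)
      rw [Finset.card_univ, Fintype.card_fin] at this
      rw [h1]
      omega
    have hEc : Eᶜ.card + E.card = n := by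
      have := Finset.card_compl_add_card E
      rwa [Fintype.card_fin] at this
    have hmaps : ∀ i ∈ Eᶜ, cls i ∈ Fr := by
      intro i hi
      have h1 := hgt i (Finset.mem_compl.1 hi)
      cases hc : cls i with
      | none => exact absurd (hVc l i hc) h1
      | some k =>
        refine Finset.mem_image_of_mem _ (Finset.mem_filter.2 ⟨Finset.mem_univ _, ?_⟩)
        intro hk
        obtain ⟨t, -, ht⟩ := Finset.mem_image.1 hk
        exact h1 (mem_of_integral (V l) (hVx l t) (hint t i k (ht ▸ hcl t) hc))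
    obtain ⟨i, hi, i', hi', hne, hcls⟩ := Finset.exists_ne_map_eq_of_card_lt_of_maps_to
      (s := Eᶜ) (t := Fr) (by omega) (f := cls) hmaps
    obtain ⟨k, -, hk⟩ := Finset.mem_image.1 (hmaps i hi)
    rcases lt_or_gt_of_ne hne with h | h
    · exact ⟨i, i', h, ⟨k, hk.symm, hcls ▸ hk.symm⟩, hEg i (Finset.mem_compl.1 hi),
        hEg i' (Finset.mem_compl.1 hi')⟩
    · exact ⟨i', i, h, ⟨k, hcls ▸ hk.symm, hk.symm⟩, hEg i' (Finset.mem_compl.1 hi'),
        hEg i (Finset.mem_compl.1 hi)⟩
  choose α β hab' hcls' hα hβ using hone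
  have hcard2 : ∀ l, (({α l, β l} : Finset (Fin n)).card = 2) := fun l =>
    Finset.card_pair (hab' l).ne
  obtain ⟨l, l', hll, hqq⟩ := Fintype.exists_ne_map_eq_of_card_lt
    (fun l => (⟨{α l, β l}, hcard2 l⟩ : {s : Finset (Fin n) // s.card = 2})) (by
    rw [Fintype.card_finset_len, Fintype.card_fin, Fintype.card_fin]
    omega)
  have hset : ({α l, β l} : Finset (Fin n)) = {α l', β l'} := congrArg Subtype.val hqq
  have hmm : α l = α l' ∧ β l = β l' := by
    have h1 : α l ∈ ({α l', β l'} : Finset (Fin n)) := hset ▸ Finset.mem_insert_self _ _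
    have h2 : β l ∈ ({α l', β l'} : Finset (Fin n)) :=
      hset ▸ Finset.mem_insert_of_mem (Finset.mem_singleton_self _)
    have h3 := hab' l
    have h4 := hab' l'
    rw [Finset.mem_insert, Finset.mem_singleton] at h1 h2
    rcases h1 with h1 | h1 <;> rcases h2 with h2 | h2
    · exact absurd (h1.trans h2.symm) h3.ne
    · exact ⟨h1, h2⟩
    · rw [h1, h2] at h3
      exact absurd h3 (not_lt.2 h4.le)
    · exact absurd (h1.trans h2.symm) h3.ne
  -- the smallest level
  obtain ⟨k, hk1, hk2⟩ := hcls' l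
  have hex : ∃ N, 0 < N ∧ Rel N (x (α l)) (x (β l)) := hrel _ _ k hk1 hk2
  let N := Nat.find hex
  have hN := Nat.find_spec hex
  have hmin : ∀ M : ℕ, 0 < M → M < N → ¬ Rel M (x (α l)) (x (β l)) := fun M hM0 hMN hR =>
    Nat.find_min hex hMN ⟨hM0, hR⟩
  obtain ⟨s, hs⟩ := one_place hord (V l) (hp l) (hV l) (hϖ0 l) (hϖ l) he (hab l) (hα l) (hβ l)
    hN.1 hN.2 hmin
  obtain ⟨s', hs'⟩ := one_place hord (V l') (hp l') (hV l') (hϖ0 l') (hϖ l') he (hab l')
    (hmm.1 ▸ hα l') (hmm.2 ▸ hβ l') hN.1 hN.2 hmin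
  refine hind l l' hll (α l) (β l) (hab' l) s s' ?_
  have h1 := hs.symm.trans hs'
  have h2 : 0 < ex (e (β l)) (e (α l)) * ex (e (α l)) (e (β l)) :=
    Nat.mul_pos (ex_pos (he _)) (ex_pos (he _))
  have h3 := Nat.eq_of_mul_eq_mul_left h2 h1
  exact Nat.pow_left_injective (two_ne_zero) h3

end Pool.Agent.NH30.KT
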