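import Pool.Agent.NH30.KT.Stm

set_option autoImplicit false

/-!
# KT-C: for fixed `c`, almost all integers `t` are good
-/

open Finset

namespace Pool.Agent.NH30.KT

namespace Fixed

/-- Facts on orders. -/
theorem od_facts {p : ℕ} (hp : p.Prime) {x y : ℤ} (hx : ¬ (p : ℤ) ∣ x) (hy : ¬ (p : ℤ) ∣ y) :
    0 < od p x y ∧ od p x y ∣ p - 1 ∧ (p : ℤ) ∣ x ^ od p x y - y ^ od p x y := by
  have := Fact.mk hp
  have hx0 : (x : ZMod p) ≠ 0 := fun h => hx ((ZMod.intCast_zmod_eq_zero_iff_dvd x p).1 h)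
  have hy0 : (y : ZMod p) ≠ 0 := fun h => hy ((ZMod.intCast_zmod_eq_zero_iff_dvd y p).1 h)
  have hu : (x : ZMod p) * (y : ZMod p)⁻¹ ≠ 0 := mul_ne_zero hx0 (inv_ne_zero hy0)
  have h1 := ZMod.pow_card_sub_one_eq_one hu
  have h2 : od p x y ∣ p - 1 := orderOf_dvd_of_pow_eq_one h1
  have hp1 : 0 < p - 1 := by have := hp.two_le; omega
  refine ⟨Nat.pos_of_dvd_of_pos h2 hp1, h2, ?_⟩
  have h3 : ((x : ZMod p) * (y : ZMod p)⁻¹) ^ od p x y = 1 := pow_orderOf_eq_one _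
  rw [mul_pow, inv_pow, mul_inv_eq_one₀ (pow_ne_zero _ hy0)] at h3
  rw [← ZMod.intCast_zmod_eq_zero_iff_dvd]
  push_cast
  rw [h3, sub_self]

theorem card_le {x y : ℤ} (hxy : |x| ≠ |y|) {o : ℕ} (ho : 0 < o) (A : Finset ℕ)
    (hA : ∀ p ∈ A, p.Prime ∧ ¬ (p : ℤ) ∣ x ∧ ¬ (p : ℤ) ∣ y ∧ od p x y = o) :
    A.card ≤ (x.natAbs + y.natAbs) * o := by
  have hne : x ^ o - y ^ o ≠ 0 := by
    intro h
    have h1 : |x| ^ o = |y| ^ o := by rw [← abs_pow, ← abs_pow, sub_eq_zero.1 h]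
    exact hxy ((pow_left_inj₀ (abs_nonneg _) (abs_nonneg _) ho.ne').1 h1)
  have hN : 0 < (x ^ o - y ^ o).natAbs := Int.natAbs_pos.2 hne
  have h1 : ∏ p ∈ A, p ∣ (x ^ o - y ^ o).natAbs := by
    refine Finset.prod_primes_dvd _ (fun p hp => (hA p hp).1.prime) fun p hp => ?_
    obtain ⟨h2, h3, h4, h5⟩ := hA p hp
    have h6 := (od_facts h2 h3 h4).2.2
    rw [h5] at h6
    exact Int.natCast_dvd.1 h6
  have h2 : 2 ^ A.card ≤ ∏ p ∈ A, p := by
    rw [← Finset.prod_const]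
    exact Finset.prod_le_prod' fun p hp => (hA p hp).1.two_le
  have h3 : (x ^ o - y ^ o).natAbs ≤ (x.natAbs + y.natAbs) ^ o := by
    refine (Int.natAbs_sub_le _ _).trans ?_
    rw [Int.natAbs_pow, Int.natAbs_pow]
    exact pow_add_pow_le (Nat.zero_le _) (Nat.zero_le _) ho.ne'
  have h4 : (x.natAbs + y.natAbs) ^ o ≤ 2 ^ ((x.natAbs + y.natAbs) * o) := by
    rw [pow_mul]
    exact Nat.pow_le_pow_left (Nat.lt_two_pow_self).le _
  have h5 := h2.trans ((Nat.le_of_dvd hN h1).trans (h3.trans h4))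
  exact (Nat.pow_le_pow_iff_right (by norm_num)).1 h5

theorem sum_le {x y : ℤ} (hxy : |x| ≠ |y|) {o : ℕ} (ho : 0 < o) (A : Finset ℕ)
    (hA : ∀ p ∈ A, p.Prime ∧ ¬ (p : ℤ) ∣ x ∧ ¬ (p : ℤ) ∣ y ∧ od p x y = o) :
    ∑ p ∈ A, (1 : ℝ) / p ≤ (1 + (x.natAbs + y.natAbs : ℕ) + Real.log o) / o := by
  have hoR : (0 : ℝ) < o := by exact_mod_cast ho
  -- the quotient
  have hk : ∀ p ∈ A, 0 < (p - 1) / o ∧ p = 1 + (p - 1) / o * o := by
    intro p hp
    obtain ⟨h2, h3, h4, h5⟩ := hA p hp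
    have h6 := (od_facts h2 h3 h4).2.1
    rw [h5] at h6
    have h7 := Nat.div_mul_cancel h6
    have h8 := h2.two_le
    refine ⟨Nat.div_pos (Nat.le_of_dvd (by omega) h6) ho, by omega⟩
  have hinj : Set.InjOn (fun p : ℕ => (p - 1) / o) A := by
    intro p hp q hq hpq
    have h1 := (hk p hp).2
    have h2 := (hk q hq).2
    simp only at hpq
    rw [h1, h2, hpq]
  have h1 : ∀ p ∈ A, (1 : ℝ) / p ≤ (1 / o) * (1 / ((p - 1) / o : ℕ)) := by
    intro p hp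
    obtain ⟨h2, h3⟩ := hk p hp
    have h2R : (0 : ℝ) < ((p - 1) / o : ℕ) := by exact_mod_cast h2
    rw [one_div_mul_one_div]
    refine one_div_le_one_div_of_le (by positivity) ?_
    have h4 : (p : ℝ) = 1 + ((p - 1) / o : ℕ) * o := by exact_mod_cast h3
    rw [h4]
    linarith [mul_comm (o : ℝ) ((p - 1) / o : ℕ)]
  refine (Finset.sum_le_sum h1).trans ?_
  rw [← Finset.mul_sum, one_div_mul_eq_div]
  refine div_le_div_of_nonneg_right ?_ hoR.le
  rw [← Finset.sum_filter_add_sum_filter_not A (fun p => (p - 1) / o ≤ o)]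
  have h2 : ∑ p ∈ A.filter (fun p => (p - 1) / o ≤ o), (1 : ℝ) / ((p - 1) / o : ℕ) ≤
      1 + Real.log o := by
    have h3 : ∑ p ∈ A.filter (fun p => (p - 1) / o ≤ o), (1 : ℝ) / ((p - 1) / o : ℕ) =
        ∑ k ∈ (A.filter (fun p => (p - 1) / o ≤ o)).image (fun p => (p - 1) / o), (1 : ℝ) / k := by
      rw [Finset.sum_image]
      intro p hp q hq hpq
      exact hinj (Finset.mem_filter.1 hp).1 (Finset.mem_filter.1 hq).1 hpq
    rw [h3]
    have h4 : (A.filter (fun p => (p - 1) / o ≤ o)).image (fun p => (p - 1) / o) ⊆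
        Finset.Icc 1 o := by
      intro k hk'
      obtain ⟨p, hp, rfl⟩ := Finset.mem_image.1 hk'
      rw [Finset.mem_filter] at hp
      exact Finset.mem_Icc.2 ⟨(hk p hp.1).1, hp.2⟩
    refine (Finset.sum_le_sum_of_subset_of_nonneg h4 fun _ _ _ => by positivity).trans ?_
    have h5 := harmonic_le_one_add_log o
    rw [harmonic_eq_sum_Icc] at h5
    push_cast at h5
    simpa only [one_div] using h5
  have h3 : ∑ p ∈ A.filter (fun p => ¬ (p - 1) / o ≤ o), (1 : ℝ) / ((p - 1) / o : ℕ) ≤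
      (x.natAbs + y.natAbs : ℕ) := by
    have h4 : ∀ p ∈ A.filter (fun p => ¬ (p - 1) / o ≤ o), (1 : ℝ) / ((p - 1) / o : ℕ) ≤
        1 / o := by
      intro p hp
      rw [Finset.mem_filter, not_le] at hp
      refine one_div_le_one_div_of_le hoR ?_
      exact_mod_cast hp.2.le
    refine (Finset.sum_le_sum h4).trans ?_
    rw [Finset.sum_const, nsmul_eq_mul]
    have h5 : (((A.filter (fun p => ¬ (p - 1) / o ≤ o)).card : ℕ) : ℝ) ≤
        (x.natAbs + y.natAbs : ℕ) * o := by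
      exact_mod_cast (Finset.card_le_card (Finset.filter_subset _ _)).trans (card_le hxy ho A hA)
    calc (((A.filter (fun p => ¬ (p - 1) / o ≤ o)).card : ℕ) : ℝ) * (1 / o)
        ≤ ((x.natAbs + y.natAbs : ℕ) * o) * (1 / o) :=
          mul_le_mul_of_nonneg_right h5 (by positivity)
      _ = (x.natAbs + y.natAbs : ℕ) := by field_simp
  linarith

/-- The bound with a power. -/
theorem sum_le' {x y : ℤ} (hxy : |x| ≠ |y|) {o : ℕ} (ho : 0 < o) (A : Finset ℕ)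
    (hA : ∀ p ∈ A, p.Prime ∧ ¬ (p : ℤ) ∣ x ∧ ¬ (p : ℤ) ∣ y ∧ od p x y = o) :
    ∑ p ∈ A, (1 : ℝ) / p ≤ (5 + (x.natAbs + y.natAbs : ℕ)) * (o : ℝ) ^ (-(3 / 4) : ℝ) := by
  refine (sum_le hxy ho A hA).trans ?_
  have hoR : (1 : ℝ) ≤ o := by exact_mod_cast ho
  have h1 : Real.log o ≤ 4 * (o : ℝ) ^ (1 / 4 : ℝ) := by
    have h2 := Real.log_le_rpow_div (x := (o : ℝ)) (by linarith) (ε := 1 / 4) (by norm_num)
    linarith
  have h2 : (1 : ℝ) ≤ (o : ℝ) ^ (1 / 4 : ℝ) := Real.one_le_rpow hoR (by norm_num)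
  have h3 : (o : ℝ) ^ (-(3 / 4) : ℝ) = (o : ℝ) ^ (1 / 4 : ℝ) / o := by
    rw [show (-(3 / 4) : ℝ) = 1 / 4 - 1 by norm_num, Real.rpow_sub (by linarith), Real.rpow_one]
  rw [h3, ← mul_div_assoc]
  refine div_le_div_of_nonneg_right ?_ (by linarith)
  have h4 : (0 : ℝ) ≤ (x.natAbs + y.natAbs : ℕ) := Nat.cast_nonneg _
  nlinarith

/-- The bad pairs. -/
def Bad (x y : ℤ) (p q : ℕ) : Prop :=
  (p.Prime ∧ ¬ (p : ℤ) ∣ x ∧ ¬ (p : ℤ) ∣ y) ∧ (q.Prime ∧ ¬ (q : ℤ) ∣ x ∧ ¬ (q : ℤ) ∣ y) ∧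
    p < q ∧ ∃ a : ℕ, od q x y = od p x y * p ^ a

/-- `b = 0`. -/
theorem bad_of {x y : ℤ} {p q : ℕ} (hp : p.Prime ∧ ¬ (p : ℤ) ∣ x ∧ ¬ (p : ℤ) ∣ y)
    (hq : q.Prime ∧ ¬ (q : ℤ) ∣ x ∧ ¬ (q : ℤ) ∣ y) (hpq : p < q) {a b : ℕ}
    (h : od p x y * p ^ a = od q x y * q ^ b) : Bad x y p q := by
  refine ⟨hp, hq, hpq, a, ?_⟩
  rcases Nat.eq_zero_or_pos b with hb | hb
  · rw [hb, pow_zero, mul_one] at h
    exact h.symm
  · exfalso
    have h1 : q ∣ od p x y * p ^ a := by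
      rw [h]
      exact Dvd.dvd.mul_left (dvd_pow_self q hb.ne') _
    obtain ⟨h2, h3, -⟩ := od_facts hp.1 hp.2.1 hp.2.2
    have hp2 := hp.1.two_le
    rcases (Nat.Prime.dvd_mul hq.1).1 h1 with h4 | h4
    · have h5 := Nat.le_of_dvd h2 h4
      have h6 := Nat.le_of_dvd (by omega) h3
      omega
    · have h5 := hq.1.dvd_of_dvd_pow h4
      have h6 := Nat.le_of_dvd (by omega) h5
      omega

open Classical in
/-- The weight of a pair. -/
noncomputable def F (x y : ℤ) (u : ℕ × ℕ) : ℝ :=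
  if Bad x y u.1 u.2 then (1 / (u.1 : ℝ)) * (1 / (u.2 : ℝ)) else 0

theorem F_nonneg (x y : ℤ) (u : ℕ × ℕ) : 0 ≤ F x y u := by
  unfold F
  split_ifs
  · positivity
  · exact le_refl _

theorem geom (p : ℕ) (hp : 2 ≤ p) (X : ℕ) :
    ∑ a ∈ Finset.Icc 1 X, ((p : ℝ) ^ (-(3 / 4) : ℝ)) ^ a ≤ 3 * (p : ℝ) ^ (-(3 / 4) : ℝ) := by
  obtain ⟨r, hr⟩ : ∃ r, r = (p : ℝ) ^ (-(3 / 4) : ℝ) := ⟨_, rfl⟩
  rw [← hr]
  have hpR : (2 : ℝ) ≤ p := by exact_mod_cast hp
  have hr0 : 0 ≤ r := by rw [hr]; positivity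
  have hr1 : r ≤ 2 / 3 := by
    have h1 : r ≤ (2 : ℝ) ^ (-(3 / 4) : ℝ) := by
      rw [hr]
      exact Real.rpow_le_rpow_of_nonpos (by norm_num) hpR (by norm_num)
    have h2 : ((2 : ℝ) ^ (-(3 / 4) : ℝ)) ^ 4 = 1 / 8 := by
      rw [← Real.rpow_natCast, ← Real.rpow_mul (by norm_num)]
      rw [show (-(3 / 4) : ℝ) * ((4 : ℕ) : ℝ) = -(3 : ℕ) by norm_num, Real.rpow_neg (by norm_num),
        Real.rpow_natCast]
      norm_num
    refine h1.trans ?_
    refine le_of_pow_le_pow_left₀ (n := 4) (by norm_num) (by norm_num) ?_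
    rw [h2]
    norm_num
  have h3 : ∀ X : ℕ, ∑ a ∈ Finset.Icc 1 X, r ^ a ≤ 3 * r - 3 * r ^ (X + 1) := by
    intro X
    induction X with
    | zero => simp
    | succ X ih =>
      rw [Finset.sum_Icc_succ_top (by omega)]
      have h4 : r ^ (X + 1 + 1) = r ^ (X + 1) * r := pow_succ _ _
      have h5 : 0 ≤ r ^ (X + 1) := by positivity
      rw [h4]
      nlinarith
  have h6 := h3 X
  have h7 : 0 ≤ r ^ (X + 1) := by positivity
  linarith

/-- The convergence. -/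
theorem F_summable {x y : ℤ} (hxy : |x| ≠ |y|) : Summable (F x y) := by
  classical
  obtain ⟨K, hK⟩ : ∃ K : ℝ, K = 5 + (x.natAbs + y.natAbs : ℕ) := ⟨_, rfl⟩
  have hK0 : 0 ≤ K := by rw [hK]; positivity
  have hZ1 : Summable fun n : ℕ => (n : ℝ) ^ (-(3 / 2) : ℝ) :=
    Real.summable_nat_rpow.2 (by norm_num)
  have hZ2 : Summable fun n : ℕ => (n : ℝ) ^ (-(7 / 4) : ℝ) :=
    Real.summable_nat_rpow.2 (by norm_num)
  refine summable_of_sum_le (c := K ^ 2 * (∑' n : ℕ, (n : ℝ) ^ (-(3 / 2) : ℝ)) +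
    3 * K * ∑' n : ℕ, (n : ℝ) ^ (-(7 / 4) : ℝ)) (F_nonneg x y) fun U => ?_
  obtain ⟨X, hX⟩ : ∃ X : ℕ, ∀ u ∈ U, u.1 ≤ X ∧ u.2 ≤ X := by
    refine ⟨U.sup fun u => max u.1 u.2, fun u hu => ?_⟩
    have h1 := Finset.le_sup (f := fun u : ℕ × ℕ => max u.1 u.2) hu
    exact ⟨(le_max_left _ _).trans h1, (le_max_right _ _).trans h1⟩
  obtain ⟨A, hA⟩ : ∃ A : Finset ℕ, A = (Finset.Icc 1 X).filter fun p : ℕ =>
    p.Prime ∧ ¬ (p : ℤ) ∣ x ∧ ¬ (p : ℤ) ∣ y := ⟨_, rfl⟩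
  have hmem : ∀ p : ℕ, p ∈ A ↔ (1 ≤ p ∧ p ≤ X) ∧ p.Prime ∧ ¬ (p : ℤ) ∣ x ∧ ¬ (p : ℤ) ∣ y := by
    intro p
    rw [hA, Finset.mem_filter, Finset.mem_Icc]
  -- sums over a fixed order
  have hs : ∀ o : ℕ, 0 < o → ∑ q ∈ A.filter (fun q => od q x y = o), (1 : ℝ) / q ≤
      K * (o : ℝ) ^ (-(3 / 4) : ℝ) := by
    intro o ho
    rw [hK]
    refine sum_le' hxy ho _ fun p hp => ?_
    rw [Finset.mem_filter, hmem] at hp
    exact ⟨hp.1.2.1, hp.1.2.2.1, hp.1.2.2.2, hp.2⟩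
  have hs0 : ∀ o : ℕ, 0 ≤ ∑ q ∈ A.filter (fun q => od q x y = o), (1 : ℝ) / q :=
    fun o => Finset.sum_nonneg fun _ _ => by positivity
  -- reduce to A × A
  have h1 : ∑ u ∈ U, F x y u ≤ ∑ u ∈ A ×ˢ A, F x y u := by
    rw [← Finset.sum_filter_add_sum_filter_not U (fun u => Bad x y u.1 u.2)]
    have h2 : ∑ u ∈ U.filter (fun u => ¬ Bad x y u.1 u.2), F x y u = 0 := by
      refine Finset.sum_eq_zero fun u hu => ?_
      rw [Finset.mem_filter] at hu
      unfold F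
      rw [if_neg hu.2]
    rw [h2, add_zero]
    refine Finset.sum_le_sum_of_subset_of_nonneg ?_ fun u _ _ => F_nonneg x y u
    intro u hu
    rw [Finset.mem_filter] at hu
    obtain ⟨hu, hb⟩ := hu
    rw [Finset.mem_product, hmem, hmem]
    exact ⟨⟨⟨hb.1.1.one_le, (hX u hu).1⟩, hb.1⟩, ⟨⟨hb.2.1.1.one_le, (hX u hu).2⟩, hb.2.1⟩⟩
  refine h1.trans ?_
  rw [Finset.sum_product]
  -- the inner sum
  have h2 : ∀ p ∈ A, ∑ q ∈ A, F x y (p, q) ≤
      (1 / (p : ℝ)) * (K * (od p x y : ℝ) ^ (-(3 / 4) : ℝ)) +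
      3 * K * (p : ℝ) ^ (-(7 / 4) : ℝ) := by
    intro p hp
    rw [hmem] at hp
    obtain ⟨o0, odv, -⟩ := od_facts hp.2.1 hp.2.2.1 hp.2.2.2
    have hp2 := hp.2.1.two_le
    have hpR : (0 : ℝ) < p := by exact_mod_cast hp.2.1.pos
    have h3 : ∀ q ∈ A, F x y (p, q) ≤ (1 / (p : ℝ)) *
        ((if od q x y = od p x y then (1 : ℝ) / q else 0) +
          ∑ a ∈ Finset.Icc 1 X, if od q x y = od p x y * p ^ a then (1 : ℝ) / q else 0) := by
      intro q hq
      rw [hmem] at hq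
      have hnn : (0 : ℝ) ≤ ∑ a ∈ Finset.Icc 1 X,
          if od q x y = od p x y * p ^ a then (1 : ℝ) / q else 0 :=
        Finset.sum_nonneg fun _ _ => by split_ifs <;> positivity
      unfold F
      split_ifs with hb he
      · refine mul_le_mul_of_nonneg_left ?_ (by positivity)
        simp only at hb ⊢
        linarith
      · refine mul_le_mul_of_nonneg_left ?_ (by positivity)
        simp only at hb ⊢
        rw [zero_add]
        obtain ⟨-, -, hlt, a, ha⟩ := hb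
        have ha1 : 1 ≤ a := by
          rcases Nat.eq_zero_or_pos a with h0 | h0
          · rw [h0, pow_zero, mul_one] at ha
            exact absurd ha he
          · exact h0
        have haX : a ≤ X := by
          obtain ⟨q0, qdv, -⟩ := od_facts hq.2.1 hq.2.2.1 hq.2.2.2
          have hq2 := hq.2.1.two_le
          have e1 := Nat.le_of_dvd (by omega) qdv
          have e2 : p ^ a ≤ od q x y := by
            rw [ha]
            exact Nat.le_mul_of_pos_left _ o0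
          have e3 : a < 2 ^ a := Nat.lt_two_pow_self
          have e4 : 2 ^ a ≤ p ^ a := Nat.pow_le_pow_left hp2 a
          omega
        have h4 := Finset.single_le_sum (f := fun a =>
          if od q x y = od p x y * p ^ a then (1 : ℝ) / q else 0)
          (fun _ _ => by split_ifs <;> positivity) (Finset.mem_Icc.2 ⟨ha1, haX⟩)
        simp only [if_pos ha] at h4
        exact h4
      · exact mul_nonneg (by positivity) (add_nonneg (by positivity) hnn)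
      · exact mul_nonneg (by positivity) (add_nonneg (le_refl _) hnn)
    refine (Finset.sum_le_sum h3).trans ?_
    rw [← Finset.mul_sum, Finset.sum_add_distrib, mul_add]
    refine add_le_add ?_ ?_
    · refine mul_le_mul_of_nonneg_left ?_ (by positivity)
      rw [← Finset.sum_filter]
      exact hs _ o0
    · rw [Finset.sum_comm]
      have h4 : ∀ a ∈ Finset.Icc 1 X, (∑ q ∈ A, if od q x y = od p x y * p ^ a then
          (1 : ℝ) / q else 0) ≤ K * ((p : ℝ) ^ (-(3 / 4) : ℝ)) ^ a := by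
        intro a _
        rw [← Finset.sum_filter]
        refine (hs _ (Nat.mul_pos o0 (pow_pos hp.2.1.pos a))).trans ?_
        refine mul_le_mul_of_nonneg_left ?_ hK0
        push_cast
        rw [Real.mul_rpow (by positivity) (by positivity)]
        have e1 : ((od p x y : ℕ) : ℝ) ^ (-(3 / 4) : ℝ) ≤ 1 :=
          Real.rpow_le_one_of_one_le_of_nonpos (by exact_mod_cast o0) (by norm_num)
        have e2 : (((p : ℝ)) ^ a) ^ (-(3 / 4) : ℝ) = ((p : ℝ) ^ (-(3 / 4) : ℝ)) ^ a := by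
          rw [← Real.rpow_natCast, ← Real.rpow_mul hpR.le, ← Real.rpow_natCast,
            ← Real.rpow_mul hpR.le, mul_comm]
        rw [e2]
        exact mul_le_of_le_one_left (by positivity) e1
      refine (mul_le_mul_of_nonneg_left (Finset.sum_le_sum h4) (by positivity)).trans ?_
      rw [← Finset.mul_sum]
      have h5 := geom p hp2 X
      have h6 : (p : ℝ) ^ (-(7 / 4) : ℝ) = (1 / (p : ℝ)) * (p : ℝ) ^ (-(3 / 4) : ℝ) := by
        rw [show (-(7 / 4) : ℝ) = -1 + -(3 / 4) by norm_num, Real.rpow_add hpR, Real.rpow_neg_one,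
          one_div]
      rw [h6]
      calc (1 / (p : ℝ)) * (K * ∑ a ∈ Finset.Icc 1 X, ((p : ℝ) ^ (-(3 / 4) : ℝ)) ^ a)
          ≤ (1 / (p : ℝ)) * (K * (3 * (p : ℝ) ^ (-(3 / 4) : ℝ))) := by gcongr
        _ = 3 * K * (1 / (p : ℝ) * (p : ℝ) ^ (-(3 / 4) : ℝ)) := by ring
  refine (Finset.sum_le_sum h2).trans ?_
  rw [Finset.sum_add_distrib]
  refine add_le_add ?_ ?_
  · -- equal orders
    have h3 : ∀ p ∈ A, od p x y ∈ Finset.Icc 1 X := by
      intro p hp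
      rw [hmem] at hp
      obtain ⟨o0, odv, -⟩ := od_facts hp.2.1 hp.2.2.1 hp.2.2.2
      have hp2 := hp.2.1.two_le
      have e1 := Nat.le_of_dvd (by omega) odv
      exact Finset.mem_Icc.2 ⟨o0, by omega⟩
    rw [← Finset.sum_fiberwise_of_maps_to h3]
    have h4 : ∀ o ∈ Finset.Icc 1 X, ∑ p ∈ A.filter (fun p => od p x y = o),
        (1 / (p : ℝ)) * (K * (od p x y : ℝ) ^ (-(3 / 4) : ℝ)) ≤
        K ^ 2 * (o : ℝ) ^ (-(3 / 2) : ℝ) := by
      intro o ho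
      rw [Finset.mem_Icc] at ho
      have hoR : (0 : ℝ) < o := by exact_mod_cast ho.1
      have e1 : ∑ p ∈ A.filter (fun p => od p x y = o),
          (1 / (p : ℝ)) * (K * (od p x y : ℝ) ^ (-(3 / 4) : ℝ)) =
          (∑ p ∈ A.filter (fun p => od p x y = o), (1 / (p : ℝ))) *
            (K * (o : ℝ) ^ (-(3 / 4) : ℝ)) := by
        rw [Finset.sum_mul]
        refine Finset.sum_congr rfl fun p hp => ?_
        rw [(Finset.mem_filter.1 hp).2]
      rw [e1]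
      have e2 : K ^ 2 * (o : ℝ) ^ (-(3 / 2) : ℝ) = (K * (o : ℝ) ^ (-(3 / 4) : ℝ)) *
          (K * (o : ℝ) ^ (-(3 / 4) : ℝ)) := by
        rw [show (-(3 / 2) : ℝ) = -(3 / 4) + -(3 / 4) by norm_num, Real.rpow_add hoR]
        ring
      rw [e2]
      exact mul_le_mul_of_nonneg_right (hs o ho.1) (by positivity)
    refine (Finset.sum_le_sum h4).trans ?_
    rw [← Finset.mul_sum]
    refine mul_le_mul_of_nonneg_left ?_ (by positivity)
    exact hZ1.sum_le_tsum _ fun _ _ => by positivity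
  · rw [← Finset.mul_sum]
    refine mul_le_mul_of_nonneg_left ?_ (by positivity)
    exact hZ2.sum_le_tsum _ fun _ _ => by positivity

/-- Primes with a large sum of reciprocals. -/
theorem exists_Q (N : ℕ) (L : ℝ) : ∃ Q : Finset ℕ, (∀ p ∈ Q, p.Prime ∧ N < p) ∧
    L ≤ ∑ p ∈ Q, (1 : ℝ) / p := by
  classical
  by_contra hcon
  push Not at hcon
  apply Nat.Primes.not_summable_one_div
  refine summable_of_sum_le (c := (∑ p ∈ Finset.range (N + 1), (1 : ℝ) / p) + L)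
    (fun p => by positivity) fun U => ?_
  have h1 : ∑ p ∈ U, (1 : ℝ) / (p : ℕ) = ∑ p ∈ U.image (fun p : Nat.Primes => (p : ℕ)),
      (1 : ℝ) / p := by
    rw [Finset.sum_image]
    intro p _ q _ h
    exact Subtype.ext h
  have h2 : ∀ p ∈ U.image (fun p : Nat.Primes => (p : ℕ)), p.Prime := by
    intro p hp
    obtain ⟨q, -, rfl⟩ := Finset.mem_image.1 hp
    exact q.2
  rw [h1, ← Finset.sum_filter_add_sum_filter_not _ (fun p => p ∈ Finset.range (N + 1))]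
  refine add_le_add ?_ ?_
  · refine Finset.sum_le_sum_of_subset_of_nonneg ?_ fun _ _ _ => by positivity
    intro p hp
    exact (Finset.mem_filter.1 hp).2
  · refine (hcon _ fun p hp => ?_).le
    rw [Finset.mem_filter, Finset.mem_range] at hp
    exact ⟨h2 p hp.1, by omega⟩

/-- Disjoint sets. -/
theorem exists_Qs (N : ℕ) (L : ℝ) : ∃ Q : ℕ → Finset ℕ, (∀ s, ∀ p ∈ Q s, p.Prime ∧ N < p) ∧
    (∀ s, L ≤ ∑ p ∈ Q s, (1 : ℝ) / p) ∧ ∀ s s', s ≠ s' → ∀ p ∈ Q s, p ∉ Q s' := by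
  choose f hf hfL using fun N => exists_Q N L
  obtain ⟨g, hg0, hg⟩ : ∃ g : ℕ → ℕ, g 0 = N ∧ ∀ s, g (s + 1) = max (g s) ((f (g s)).sup id) :=
    ⟨fun s => Nat.rec N (fun _ m => max m ((f m).sup id)) s, rfl, fun _ => rfl⟩
  have hmono : Monotone g := monotone_nat_of_le_succ fun s => by rw [hg]; exact le_max_left _ _
  have hle : ∀ s, ∀ p ∈ f (g s), p ≤ g (s + 1) := by
    intro s p hp
    rw [hg]
    exact (Finset.le_sup (f := id) hp).trans (le_max_right _ _)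
  have hlt : ∀ s s', s < s' → ∀ p ∈ f (g s), p ∉ f (g s') := by
    intro s s' hs p hp hp'
    have h1 := hle s p hp
    have h2 := hmono (show s + 1 ≤ s' by omega)
    have h3 := (hf _ p hp').2
    omega
  refine ⟨fun s => f (g s), fun s p hp => ⟨(hf _ p hp).1, ?_⟩, fun s => hfL _, ?_⟩
  · have h1 := (hf _ p hp).2
    have h2 := hmono (Nat.zero_le s)
    rw [hg0] at h2
    omega
  · intro s s' hs p hp hp'
    rcases lt_or_gt_of_ne hs with h | h
    · exact hlt s s' h p hp hp'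
    · exact hlt s' s h p hp' hp

theorem tot_le (Q : Finset ℕ) (hQ : ∀ p ∈ Q, p.Prime) :
    ((∏ p ∈ Q, p).totient : ℝ) ≤ (∏ p ∈ Q, p : ℕ) * Real.exp (-∑ p ∈ Q, (1 : ℝ) / p) := by
  classical
  induction Q using Finset.induction_on with
  | empty => simp
  | insert a Q ha ih =>
    have hap := hQ a (Finset.mem_insert_self _ _)
    have ih' := ih fun p hp => hQ p (Finset.mem_insert_of_mem hp)
    rw [Finset.prod_insert ha, Finset.sum_insert ha]
    have hcop : Nat.Coprime a (∏ p ∈ Q, p) := by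
      refine Nat.Coprime.prod_right fun p hp => ?_
      refine (Nat.coprime_primes hap (hQ p (Finset.mem_insert_of_mem hp))).2 ?_
      rintro rfl
      exact ha hp
    rw [Nat.totient_mul hcop, Nat.totient_prime hap]
    have haR : (0 : ℝ) < a := by exact_mod_cast hap.pos
    have h1 : ((a - 1 : ℕ) : ℝ) ≤ a * Real.exp (-(1 / (a : ℝ))) := by
      have h2 := Real.one_sub_le_exp_neg (1 / (a : ℝ))
      rw [Nat.cast_sub hap.one_le, Nat.cast_one]
      calc (a : ℝ) - 1 = a * (1 - 1 / a) := by field_simp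
        _ ≤ a * Real.exp (-(1 / (a : ℝ))) := mul_le_mul_of_nonneg_left h2 haR.le
    rw [neg_add, Real.exp_add]
    push_cast at ih' ⊢
    calc ((a - 1 : ℕ) : ℝ) * ((∏ p ∈ Q, p).totient : ℝ)
        ≤ (a * Real.exp (-(1 / (a : ℝ)))) *
          ((∏ p ∈ Q, (p : ℝ)) * Real.exp (-∑ p ∈ Q, (1 : ℝ) / p)) :=
          mul_le_mul h1 ih' (by positivity) (by positivity)
      _ = _ := by ring

theorem count_le (Q : Finset ℕ) (hQ : ∀ p ∈ Q, p.Prime) (H : ℕ) :
    (((Finset.Icc 1 H).filter fun t => ∀ p ∈ Q, ¬ p ∣ t).card : ℝ) ≤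
      Real.exp (-∑ p ∈ Q, (1 : ℝ) / p) * (H + (∏ p ∈ Q, p : ℕ)) := by
  classical
  obtain ⟨R, hR⟩ : ∃ R, R = ∏ p ∈ Q, p := ⟨_, rfl⟩
  have hR0 : 0 < R := by
    rw [hR]
    exact Finset.prod_pos fun p hp => (hQ p hp).pos
  have hRR : (0 : ℝ) < R := by exact_mod_cast hR0
  have h1 : ((Finset.Icc 1 H).filter fun t => ∀ p ∈ Q, ¬ p ∣ t) ⊆
      (Finset.Ico 1 (1 + H)).filter fun t => R.Coprime t := by
    intro t ht
    rw [Finset.mem_filter, Finset.mem_Icc] at ht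
    rw [Finset.mem_filter, Finset.mem_Ico]
    refine ⟨⟨ht.1.1, by omega⟩, ?_⟩
    rw [hR]
    exact Nat.Coprime.prod_left fun p hp => ((hQ p hp).coprime_iff_not_dvd).2 (ht.2 p hp)
  have h2 := (Finset.card_le_card h1).trans (Nat.Ico_filter_coprime_le 1 H hR0.ne')
  have h3 : ((H / R + 1 : ℕ) : ℝ) ≤ (H + R) / R := by
    push_cast
    have h4 : ((H / R : ℕ) : ℝ) ≤ (H : ℝ) / R := Nat.cast_div_le
    rw [add_div, div_self hRR.ne']
    linarith
  have h5 := tot_le Q hQ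
  rw [← hR] at h5 ⊢
  calc (((Finset.Icc 1 H).filter fun t => ∀ p ∈ Q, ¬ p ∣ t).card : ℝ)
      ≤ ((R.totient * (H / R + 1) : ℕ) : ℝ) := by exact_mod_cast h2
    _ = (R.totient : ℝ) * ((H / R + 1 : ℕ) : ℝ) := by push_cast; ring
    _ ≤ (R * Real.exp (-∑ p ∈ Q, (1 : ℝ) / p)) * ((H + R) / R) :=
        mul_le_mul h5 h3 (by positivity) (by positivity)
    _ = Real.exp (-∑ p ∈ Q, (1 : ℝ) / p) * (H + R) := by field_simp

end Fixed

open Fixed in
/-- Task KT-C. -/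
theorem s_fixed : S_FIXED := by
  classical
  intro n M D c hc0 hcc ε hε
  -- bad pairs
  have hG : Summable fun u : ℕ × ℕ => ∑ ij ∈ (Finset.univ : Finset (Fin n × Fin n)).filter
      (fun ij => ij.1 ≠ ij.2), F (c ij.1) (c ij.2) u := by
    refine summable_sum fun ij hij => ?_
    exact F_summable (hcc _ _ (Finset.mem_filter.1 hij).2)
  obtain ⟨G, hGdef⟩ : ∃ G : ℕ × ℕ → ℝ, G = fun u => ∑ ij ∈ (Finset.univ :
      Finset (Fin n × Fin n)).filter (fun ij => ij.1 ≠ ij.2), F (c ij.1) (c ij.2) u := ⟨_, rfl⟩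
  rw [← hGdef] at hG
  obtain ⟨T, hT⟩ := summable_iff_vanishing_norm.1 hG (ε / 4) (by positivity)
  obtain ⟨B, hB⟩ : ∃ B : ℕ, ∀ i, (c i).natAbs ≤ B :=
    ⟨Finset.univ.sup fun i => (c i).natAbs, fun i =>
      Finset.le_sup (f := fun i => (c i).natAbs) (Finset.mem_univ i)⟩
  obtain ⟨N, hN1, hN2, hN3⟩ : ∃ N : ℕ, (∀ u ∈ T, u.1 ≤ N) ∧ D ≤ N ∧ B ≤ N := by
    refine ⟨max (T.sup fun u => u.1) (max D B), fun u hu => ?_, ?_, ?_⟩
    · exact (Finset.le_sup (f := fun u : ℕ × ℕ => u.1) hu).trans (le_max_left _ _)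
    · exact (le_max_left _ _).trans (le_max_right _ _)
    · exact (le_max_right _ _).trans (le_max_right _ _)
  obtain ⟨δ, hδ⟩ : ∃ δ : ℝ, δ = ε / (4 * (M + 1)) := ⟨_, rfl⟩
  have hδ0 : 0 < δ := by rw [hδ]; positivity
  obtain ⟨Q, hQ1, hQ2, hQ3⟩ := exists_Qs N (-Real.log δ)
  have hQexp : ∀ s, Real.exp (-∑ p ∈ Q s, (1 : ℝ) / p) ≤ δ := by
    intro s
    calc Real.exp (-∑ p ∈ Q s, (1 : ℝ) / p) ≤ Real.exp (Real.log δ) :=
          Real.exp_le_exp.2 (by linarith [hQ2 s])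
      _ = δ := Real.exp_log hδ0
  refine ⟨∑ s ∈ Finset.range M, ∏ p ∈ Q s, p, fun H hH => ?_⟩
  have hcop : ∀ s ∈ Finset.range M, (((Finset.Icc 1 H).filter fun t => ∀ p ∈ Q s,
      ¬ p ∣ t).card : ℝ) ≤ δ * (2 * H) := by
    intro s hs
    refine (count_le (Q s) (fun p hp => (hQ1 s p hp).1) H).trans ?_
    have h1 : ((∏ p ∈ Q s, p : ℕ) : ℝ) ≤ H := by
      have h2 := Finset.single_le_sum (f := fun s => ∏ p ∈ Q s, p) (fun _ _ => Nat.zero_le _) hs
      exact_mod_cast h2.trans hH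
    refine mul_le_mul (hQexp s) (by linarith) (by positivity) hδ0.le
  -- the pairs
  obtain ⟨V, hV⟩ : ∃ V : Finset (ℕ × ℕ), V = (Finset.Icc 1 H ×ˢ Finset.Icc 1 H).filter
    (fun u => N < u.1 ∧ ∃ i j, i ≠ j ∧ Bad (c i) (c j) u.1 u.2) := ⟨_, rfl⟩
  have hVT : Disjoint V T := by
    rw [Finset.disjoint_left]
    intro u hu hu'
    rw [hV, Finset.mem_filter] at hu
    have := hN1 u hu'
    omega
  have hVG : ∑ u ∈ V, G u ≤ ε / 4 := (le_abs_self _).trans (hT V hVT).le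
  obtain ⟨E, hE⟩ : ∃ E : Finset ℕ, E = V.biUnion fun u => (Finset.Ioc 0 H).filter
    fun t => u.1 * u.2 ∣ t := ⟨_, rfl⟩
  have hEc : (E.card : ℝ) ≤ ε / 4 * H := by
    have h1 : (E.card : ℝ) ≤ ∑ u ∈ V, (H : ℝ) * G u := by
      have h2 : E.card ≤ ∑ u ∈ V, ((Finset.Ioc 0 H).filter fun t => u.1 * u.2 ∣ t).card := by
        rw [hE]
        exact Finset.card_biUnion_le
      have h3 : (E.card : ℝ) ≤ ∑ u ∈ V,
          (((Finset.Ioc 0 H).filter fun t => u.1 * u.2 ∣ t).card : ℝ) := by exact_mod_cast h2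
      refine h3.trans (Finset.sum_le_sum fun u hu => ?_)
      rw [Nat.Ioc_filter_dvd_card_eq_div]
      rw [hV, Finset.mem_filter] at hu
      obtain ⟨-, -, i, j, hij, hb⟩ := hu
      refine (Nat.cast_div_le).trans ?_
      rw [div_eq_mul_one_div]
      refine mul_le_mul_of_nonneg_left ?_ (Nat.cast_nonneg _)
      rw [hGdef]
      have h4 := Finset.single_le_sum (f := fun ij : Fin n × Fin n => F (c ij.1) (c ij.2) u)
        (s := (Finset.univ : Finset (Fin n × Fin n)).filter (fun ij => ij.1 ≠ ij.2))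
        (fun _ _ => F_nonneg _ _ _) (Finset.mem_filter.2 ⟨Finset.mem_univ (i, j), hij⟩)
      refine le_trans (le_of_eq ?_) h4
      simp only
      unfold F
      rw [if_pos hb]
      push_cast
      rw [one_div_mul_one_div]
    rw [← Finset.mul_sum] at h1
    calc (E.card : ℝ) ≤ H * ∑ u ∈ V, G u := h1
      _ ≤ H * (ε / 4) := mul_le_mul_of_nonneg_left hVG (Nat.cast_nonneg _)
      _ = ε / 4 * H := mul_comm _ _
  -- the inclusion
  have hsub : {t : ℕ | 1 ≤ t ∧ t ≤ H ∧ ¬ Gd n M D t c} ⊆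
      (((Finset.range M).biUnion fun s => (Finset.Icc 1 H).filter fun t => ∀ p ∈ Q s, ¬ p ∣ t) ∪
        E : Finset ℕ) := by
    rintro t ⟨ht1, htH, hbad⟩
    rw [Finset.mem_coe, Finset.mem_union]
    by_contra hcon
    push Not at hcon
    obtain ⟨hc1, hc2⟩ := hcon
    have h1 : ∀ s : Fin M, ∃ p ∈ Q s, p ∣ t := by
      intro s
      by_contra h2
      push Not at h2
      exact hc1 (Finset.mem_biUnion.2 ⟨s, Finset.mem_range.2 s.2,
        Finset.mem_filter.2 ⟨Finset.mem_Icc.2 ⟨ht1, htH⟩, h2⟩⟩)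
    choose P hPQ hPt using h1
    have hPc : ∀ s i, ¬ ((P s : ℕ) : ℤ) ∣ c i := by
      intro s i hdv
      have h2 := Nat.le_of_dvd (Int.natAbs_pos.2 (hc0 i)) (Int.natCast_dvd.1 hdv)
      have h3 := (hQ1 s _ (hPQ s)).2
      have h4 := hB i
      omega
    have hPle : ∀ s, 1 ≤ P s ∧ P s ≤ H := fun s =>
      ⟨(hQ1 s _ (hPQ s)).1.one_le, (Nat.le_of_dvd (by omega) (hPt s)).trans htH⟩
    have key : ∀ s s' : Fin M, P s < P s' → ∀ i j, i ≠ j → ∀ a b : ℕ,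
        od (P s) (c i) (c j) * P s ^ a ≠ od (P s') (c i) (c j) * P s' ^ b := by
      intro s s' hlt i j hij a b heq
      have hb := bad_of ⟨(hQ1 s _ (hPQ s)).1, hPc s i, hPc s j⟩
        ⟨(hQ1 s' _ (hPQ s')).1, hPc s' i, hPc s' j⟩ hlt heq
      apply hc2
      rw [hE, Finset.mem_biUnion]
      refine ⟨(P s, P s'), ?_, ?_⟩
      · rw [hV, Finset.mem_filter, Finset.mem_product, Finset.mem_Icc, Finset.mem_Icc]
        exact ⟨⟨hPle s, hPle s'⟩, (hQ1 s _ (hPQ s)).2, i, j, hij, hb⟩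
      · rw [Finset.mem_filter, Finset.mem_Ioc]
        refine ⟨⟨by omega, htH⟩, ?_⟩
        exact Nat.Coprime.mul_dvd_of_dvd_of_dvd
          ((Nat.coprime_primes (hQ1 s _ (hPQ s)).1 (hQ1 s' _ (hPQ s')).1).2 hlt.ne)
          (hPt s) (hPt s')
    apply hbad
    refine ⟨P, fun s => ⟨(hQ1 s _ (hPQ s)).1, hN2.trans_lt (hQ1 s _ (hPQ s)).2,
      Int.natCast_dvd_natCast.2 (hPt s), hPc s⟩, fun s s' hss i j hij a b => ?_⟩
    have hne : P s ≠ P s' := by
      intro h2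
      have h3 := hPQ s
      rw [h2] at h3
      exact hQ3 s s' (fun h4 => hss (Fin.ext h4)) _ h3 (hPQ s')
    rcases lt_or_gt_of_ne hne with h2 | h2
    · exact key s s' h2 i j hij a b
    · exact (key s' s h2 i j hij b a).symm
  have h1 := Set.ncard_le_ncard hsub (Finset.finite_toSet _)
  rw [Set.ncard_coe_finset] at h1
  have h2 := h1.trans (Finset.card_union_le _ _)
  have h3 : (({t : ℕ | 1 ≤ t ∧ t ≤ H ∧ ¬ Gd n M D t c}.ncard : ℕ) : ℝ) ≤
      (∑ s ∈ Finset.range M, (((Finset.Icc 1 H).filter fun t => ∀ p ∈ Q s, ¬ p ∣ t).card : ℝ)) +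
        E.card := by
    exact_mod_cast h2.trans (Nat.add_le_add_right Finset.card_biUnion_le _)
  have h4 := Finset.sum_le_sum hcop
  rw [Finset.sum_const, Finset.card_range, nsmul_eq_mul] at h4
  have h5 : (M : ℝ) * (δ * (2 * H)) ≤ ε / 2 * H := by
    have h6 : (M : ℝ) * δ ≤ ε / 4 := by
      rw [hδ]
      have h7 : (M : ℝ) * (ε / (4 * (M + 1))) = (ε / 4) * (M / (M + 1)) := by
        field_simp
      rw [h7]
      have h8 : (M : ℝ) / (M + 1) ≤ 1 := by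
        rw [div_le_one (by positivity)]
        linarith
      exact mul_le_of_le_one_right (by positivity) h8
    have h9 : (0 : ℝ) ≤ H := Nat.cast_nonneg _
    nlinarith
  have h9 : (0 : ℝ) ≤ H := Nat.cast_nonneg _
  nlinarith

end Pool.Agent.NH30.KT
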