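import Pool.Agent.NH30.KT.Trans

/-!
# Almost all rational translates (helper30)
-/

set_option autoImplicit false

open Function UpperHalfPlane H294ZP MvPolynomial

namespace Pool.Agent.NH30.KT

/-- The translate `Y + r`. -/
def shift {n : ℕ} (r : Fin n → ℚ) (Y : Set (Fin n → ℂ)) : Set (Fin n → ℂ) :=
  {x | (fun i => x i - (r i : ℂ)) ∈ Y}

/-- `r` has height at most `H`: it has the form `c / t` with integers `t > 0` and `c i` of absolute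
value at most `H`. -/
def HeightLe {n : ℕ} (H : ℕ) (r : Fin n → ℚ) : Prop :=
  ∃ (t : ℕ) (c : Fin n → ℤ), 0 < t ∧ t ≤ H ∧ (∀ i, |c i| ≤ (H : ℤ)) ∧
    ∀ i, r i = (c i : ℚ) / (t : ℚ)

theorem shift_eq {n : ℕ} (t : ℤ) (c : Fin n → ℤ) (Y : Set (Fin n → ℂ)) :
    shift (fun i => (c i : ℚ) / (t : ℚ)) Y = translate t c Y := by
  ext x
  simp only [shift, translate, Set.mem_setOf_eq]
  push_cast
  rfl

theorem box_finite (n H : ℕ) :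
    {v : ℤ × (Fin n → ℤ) | |v.1| ≤ (H : ℤ) ∧ ∀ i, |v.2 i| ≤ (H : ℤ)}.Finite := by
  refine ((Set.finite_Icc (-(H : ℤ)) H).prod (Set.Finite.pi fun _ : Fin n =>
    Set.finite_Icc (-(H : ℤ)) H)).subset ?_
  rintro v ⟨h1, h2⟩
  exact ⟨Set.mem_Icc.2 (abs_le.1 h1), fun i _ => Set.mem_Icc.2 (abs_le.1 (h2 i))⟩

theorem box_card (n H : ℕ) :
    {v : ℤ × (Fin n → ℤ) | |v.1| ≤ (H : ℤ) ∧ ∀ i, |v.2 i| ≤ (H : ℤ)}.ncard =
      (2 * H + 1) ^ (n + 1) := by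
  classical
  have h1 : {v : ℤ × (Fin n → ℤ) | |v.1| ≤ (H : ℤ) ∧ ∀ i, |v.2 i| ≤ (H : ℤ)} =
      ((Finset.Icc (-(H : ℤ)) H ×ˢ Fintype.piFinset fun _ : Fin n => Finset.Icc (-(H : ℤ)) H :
        Finset (ℤ × (Fin n → ℤ))) : Set (ℤ × (Fin n → ℤ))) := by
    ext v
    simp only [Set.mem_setOf_eq, Finset.coe_product, Set.mem_prod, Finset.mem_coe,
      Finset.mem_Icc, Fintype.mem_piFinset, abs_le]
  rw [h1, Set.ncard_coe_finset, Finset.card_product, Fintype.card_piFinset]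
  simp only [Int.card_Icc, Finset.prod_const, Finset.card_univ, Fintype.card_fin]
  rw [show ((H : ℤ) + 1 - -(H : ℤ)).toNat = 2 * H + 1 by omega, pow_succ, mul_comm]

/-- Almost all rational translates. -/
theorem main1 (hord : S_ORD2) (hrand : S_RANDOM) (K : Subfield ℂ) [Countable K] (n m : ℕ)
    (G : ∀ J : Finset (Fin n), MvPolynomial J K) (d : ∀ J : Finset (Fin n), J →₀ ℕ)
    (hd : ∀ J : Finset (Fin n), J.card = m + 1 → ∀ u ∈ (G J).support, ∀ j, u j ≤ d J j)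
    (htop : ∀ J : Finset (Fin n), J.card = m + 1 → (G J).coeff (d J) ≠ 0)
    (Y : Set (Fin n → ℂ))
    (hY : ∀ y ∈ Y, ∀ J : Finset (Fin n), J.card = m + 1 → aeval (fun j : J => y j) (G J) = 0)
    (Γ : Finset ℂ) (hΓ : ∀ γ ∈ Γ, γ ∈ K) :
    (∃ D : ℕ, ∀ (t : ℤ) (c : Fin n → ℤ), t ≠ 0 → Gd n (n.choose 2 + 1) D t c →
      NoAtypical K Γ m (shift (fun i => (c i : ℚ) / (t : ℚ)) Y)) ∧
    (∀ ε : ℝ, 0 < ε → ∃ H₀ : ℕ, ∀ H : ℕ, H₀ ≤ H → (1 - ε) * (2 * H + 1) ^ (n + 1) ≤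
      ({v : ℤ × (Fin n → ℤ) | |v.1| ≤ (H : ℤ) ∧ (∀ i, |v.2 i| ≤ (H : ℤ)) ∧ v.1 ≠ 0 ∧
        NoAtypical K Γ m (shift (fun i => (v.2 i : ℚ) / (v.1 : ℚ)) Y)}.ncard : ℝ)) ∧
    ∀ ε : ℝ, 0 < ε → ∃ H₀ : ℕ, ∀ H : ℕ, H₀ ≤ H →
      ({r : Fin n → ℚ | HeightLe H r ∧ ¬ NoAtypical K Γ m (shift r Y)}.ncard : ℝ) ≤
        ε * (H : ℝ) ^ (n + 1) := by
  classical
  obtain ⟨D, hD⟩ := trans_crit hord K n m G d hd htop Y hY Γ hΓ
  simp only [← shift_eq] at hD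
  refine ⟨⟨D, hD⟩, fun ε hε => ?_, fun ε hε => ?_⟩
  · obtain ⟨H₀, hH₀⟩ := hrand n (n.choose 2 + 1) D ε hε
    refine ⟨H₀, fun H hH => ?_⟩
    have h1 := hH₀ H hH
    set bad := {v : ℤ × (Fin n → ℤ) | |v.1| ≤ (H : ℤ) ∧ (∀ i, |v.2 i| ≤ (H : ℤ)) ∧
      (v.1 = 0 ∨ ¬ Gd n (n.choose 2 + 1) D v.1 v.2)} with hbad
    set good := {v : ℤ × (Fin n → ℤ) | |v.1| ≤ (H : ℤ) ∧ (∀ i, |v.2 i| ≤ (H : ℤ)) ∧ v.1 ≠ 0 ∧
        NoAtypical K Γ m (shift (fun i => (v.2 i : ℚ) / (v.1 : ℚ)) Y)} with hgood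
    have hgf : good.Finite := (box_finite n H).subset fun v hv => ⟨hv.1, hv.2.1⟩
    have hbf : bad.Finite := (box_finite n H).subset fun v hv => ⟨hv.1, hv.2.1⟩
    have hsub : {v : ℤ × (Fin n → ℤ) | |v.1| ≤ (H : ℤ) ∧ ∀ i, |v.2 i| ≤ (H : ℤ)} ⊆ bad ∪ good := by
      rintro v ⟨hv1, hv2⟩
      by_cases h0 : v.1 = 0 ∨ ¬ Gd n (n.choose 2 + 1) D v.1 v.2
      · exact Or.inl ⟨hv1, hv2, h0⟩
      · push Not at h0
        exact Or.inr ⟨hv1, hv2, h0.1, hD _ _ h0.1 h0.2⟩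
    have h2 := (Set.ncard_le_ncard hsub (hbf.union hgf)).trans (Set.ncard_union_le _ _)
    rw [box_card] at h2
    have h3 : ((2 * H + 1 : ℕ) : ℝ) ^ (n + 1) ≤ (bad.ncard : ℝ) + good.ncard := by
      exact_mod_cast h2
    push_cast at h3
    linarith
  · obtain ⟨H₀, hH₀⟩ := hrand n (n.choose 2 + 1) D (ε / 3 ^ (n + 1)) (by positivity)
    refine ⟨H₀ + 1, fun H hH => ?_⟩
    have h1 := hH₀ H (by omega)
    set bad := {v : ℤ × (Fin n → ℤ) | |v.1| ≤ (H : ℤ) ∧ (∀ i, |v.2 i| ≤ (H : ℤ)) ∧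
      (v.1 = 0 ∨ ¬ Gd n (n.choose 2 + 1) D v.1 v.2)} with hbad
    have hbf : bad.Finite := (box_finite n H).subset fun v hv => ⟨hv.1, hv.2.1⟩
    have hsub : {r : Fin n → ℚ | HeightLe H r ∧ ¬ NoAtypical K Γ m (shift r Y)} ⊆
        (fun v : ℤ × (Fin n → ℤ) => fun i => (v.2 i : ℚ) / (v.1 : ℚ)) '' bad := by
      rintro r ⟨⟨t, c, ht0, htH, hc, hr⟩, hno⟩
      have hr' : r = fun i => (c i : ℚ) / (((t : ℤ)) : ℚ) := by
        funext i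
        rw [hr i]
        push_cast
        rfl
      refine ⟨((t : ℤ), c), ⟨?_, hc, Or.inr fun hg => hno ?_⟩, hr'.symm⟩
      · rw [Nat.abs_cast]
        exact_mod_cast htH
      · rw [hr']
        exact hD _ _ (by exact_mod_cast ht0.ne') hg
    have h2 := (Set.ncard_le_ncard hsub (hbf.image _)).trans (Set.ncard_image_le hbf)
    have h3 : ({r : Fin n → ℚ | HeightLe H r ∧ ¬ NoAtypical K Γ m (shift r Y)}.ncard : ℝ) ≤
        (bad.ncard : ℝ) := by exact_mod_cast h2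
    have hH1 : (1 : ℝ) ≤ H := by
      have : 1 ≤ H := by omega
      exact_mod_cast this
    calc ({r : Fin n → ℚ | HeightLe H r ∧ ¬ NoAtypical K Γ m (shift r Y)}.ncard : ℝ) ≤
          ε / 3 ^ (n + 1) * (2 * H + 1) ^ (n + 1) := h3.trans h1
      _ ≤ ε / 3 ^ (n + 1) * (3 * H) ^ (n + 1) := by
        gcongr
        linarith
      _ = ε * (H : ℝ) ^ (n + 1) := by
        rw [mul_pow]
        field_simp

end Pool.Agent.NH30.KT
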