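import Pool.Agent.NH30.KT.Rat

/-!
# Almost all members of one-parameter families (helper30)
-/

set_option autoImplicit false

open Function UpperHalfPlane H294ZP MvPolynomial

namespace Pool.Agent.NH30.KT

theorem ex_gcd (e f : ℕ) : ex e f * Nat.gcd e f = f := Nat.div_mul_cancel (Nat.gcd_dvd_right _ _)

theorem nu_ne {n : ℕ} {e : Fin n → ℕ} {a b : Fin n → ℤ} {i j : Fin n}
    (h : |a i| ^ e j * |b j| ^ e i ≠ |a j| ^ e i * |b i| ^ e j) :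
    |nu e a b i j| ≠ |de e a b i j| := by
  intro h1
  apply h
  have h2 := congrArg (fun z => z ^ Nat.gcd (e i) (e j)) h1
  simp only [nu, de, abs_mul, abs_pow, mul_pow, ← pow_mul] at h2
  rw [ex_gcd, Nat.gcd_comm (e i) (e j), ex_gcd] at h2
  rw [h2]
  ring

/-- `t` has `M` prime factors above `D` which are independent for the leading coefficients. -/
def Ok {n : ℕ} (e : Fin n → ℕ) (a b : Fin n → ℤ) (M D : ℕ) (t : ℤ) : Prop :=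
  ∃ p : Fin M → ℕ, (∀ l, (p l).Prime ∧ D < p l ∧ (p l : ℤ) ∣ t) ∧
    ∀ l l', l ≠ l' → ∀ i j : Fin n, i < j → ∀ s s' : ℕ,
      od (p l) (nu e a b i j) (de e a b i j) * p l ^ s ≠
        od (p l') (nu e a b i j) (de e a b i j) * p l' ^ s'

theorem ok_count (hpairs : S_PAIRS) {n : ℕ} {e : Fin n → ℕ} {a b : Fin n → ℤ}
    (ha0 : ∀ i, a i ≠ 0) (hb0 : ∀ i, b i ≠ 0)
    (h : ∀ i j, i < j → |a i| ^ e j * |b j| ^ e i ≠ |a j| ^ e i * |b i| ^ e j) (M D : ℕ)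
    {ε : ℝ} (hε : 0 < ε) : ∃ H₀ : ℕ, ∀ H : ℕ, H₀ ≤ H →
      ({t : ℕ | 1 ≤ t ∧ t ≤ H ∧ ¬ Ok e a b M D t}.ncard : ℝ) ≤ ε * H := by
  classical
  let S := {q : Fin n × Fin n // q.1 < q.2}
  let φ : Fin (Fintype.card S) ≃ S := (Fintype.equivFin S).symm
  obtain ⟨H₀, hH₀⟩ := hpairs (Fintype.card S) M D (fun k => nu e a b (φ k).1.1 (φ k).1.2)
    (fun k => de e a b (φ k).1.1 (φ k).1.2)
    (fun k => mul_ne_zero (pow_ne_zero _ (ha0 _)) (pow_ne_zero _ (hb0 _)))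
    (fun k => mul_ne_zero (pow_ne_zero _ (hb0 _)) (pow_ne_zero _ (ha0 _)))
    (fun k => nu_ne (h _ _ (φ k).2)) ε hε
  refine ⟨H₀, fun H hH => ?_⟩
  refine le_trans ?_ (hH₀ H hH)
  have hfin : {t : ℕ | 1 ≤ t ∧ t ≤ H ∧ ¬ GdP (Fintype.card S) M D t
      (fun k => nu e a b (φ k).1.1 (φ k).1.2)
      (fun k => de e a b (φ k).1.1 (φ k).1.2)}.Finite :=
    (Set.finite_Icc 1 H).subset fun t ht => ⟨ht.1, ht.2.1⟩
  refine Nat.cast_le.2 (Set.ncard_le_ncard ?_ hfin)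
  rintro t ⟨h1, h2, h3⟩
  refine ⟨h1, h2, fun hg => h3 ?_⟩
  obtain ⟨p, hp, hind⟩ := hg
  refine ⟨p, fun l => ⟨(hp l).1, (hp l).2.1, (hp l).2.2.1⟩, ?_⟩
  intro l l' hll i j hij s s'
  have h4 := hind l l' hll (φ.symm ⟨(i, j), hij⟩) s s'
  simp only [Equiv.apply_symm_apply] at h4
  exact h4

/-- counting parameters -/
theorem count_params (hpairs : S_PAIRS) {n : ℕ} {e : Fin n → ℕ} {a b : Fin n → ℤ}
    (ha0 : ∀ i, a i ≠ 0) (hb0 : ∀ i, b i ≠ 0)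
    (h : ∀ i j, i < j → |a i| ^ e j * |b j| ^ e i ≠ |a j| ^ e i * |b i| ^ e j) (M : ℕ)
    (Φ : ℚ → Prop) (hΦ : ∃ D : ℕ, ∀ q : ℚ, q ≠ 0 → Ok e a b M D q.num → Φ q) :
    (∀ ε : ℝ, 0 < ε → ∃ H₀ : ℕ, ∀ H : ℕ, H₀ ≤ H →
      ({t : ℕ | 1 ≤ t ∧ t ≤ H ∧ ¬ Φ (t : ℚ)}.ncard : ℝ) ≤ ε * H) ∧
    ∀ ε : ℝ, 0 < ε → ∃ H₀ : ℕ, ∀ H : ℕ, H₀ ≤ H →
      ({q : ℚ | q ≠ 0 ∧ |q.num| ≤ (H : ℤ) ∧ q.den ≤ H ∧ ¬ Φ q}.ncard : ℝ) ≤ ε * (H : ℝ) ^ 2 := by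
  classical
  obtain ⟨D, hD⟩ := hΦ
  refine ⟨fun ε hε => ?_, fun ε hε => ?_⟩
  · obtain ⟨H₀, hH₀⟩ := ok_count hpairs ha0 hb0 h M D hε
    refine ⟨H₀, fun H hH => le_trans ?_ (hH₀ H hH)⟩
    refine Nat.cast_le.2 (Set.ncard_le_ncard ?_ ((Set.finite_Icc 1 H).subset fun t ht =>
      ⟨ht.1, ht.2.1⟩))
    rintro t ⟨h1, h2, h3⟩
    refine ⟨h1, h2, fun hg => h3 (hD _ ?_ ?_)⟩
    · exact_mod_cast (by omega : t ≠ 0)
    · rw [Rat.num_natCast]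
      exact hg
  · obtain ⟨H₀, hH₀⟩ := ok_count hpairs ha0 hb0 h M D (half_pos hε)
    refine ⟨H₀, fun H hH => ?_⟩
    have h1 := hH₀ H hH
    set bad := {t : ℕ | 1 ≤ t ∧ t ≤ H ∧ ¬ Ok e a b M D t} with hbad
    have hbf : bad.Finite := (Set.finite_Icc 1 H).subset fun t ht => ⟨ht.1, ht.2.1⟩
    let g : Bool × ℕ × ℕ → ℚ := fun x =>
      (if x.1 then ((x.2.1 : ℕ) : ℚ) else -((x.2.1 : ℕ) : ℚ)) / (x.2.2 : ℚ)
    have hsub : {q : ℚ | q ≠ 0 ∧ |q.num| ≤ (H : ℤ) ∧ q.den ≤ H ∧ ¬ Φ q} ⊆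
        g '' ((Set.univ : Set Bool) ×ˢ (bad ×ˢ Set.Icc 1 H)) := by
      rintro q ⟨hq0, hq1, hq2, hq3⟩
      have hnum0 : q.num ≠ 0 := Rat.num_ne_zero.2 hq0
      have hdiv : ∀ z : ℤ, z ∣ (q.num.natAbs : ℤ) ↔ z ∣ q.num := fun z => Int.dvd_natAbs
      have hbadq : q.num.natAbs ∈ bad := by
        refine ⟨Int.natAbs_pos.2 hnum0, ?_, fun hg => hq3 (hD q hq0 ?_)⟩
        · rw [Int.abs_eq_natAbs] at hq1
          exact_mod_cast hq1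
        · obtain ⟨p, hp, hind⟩ := hg
          exact ⟨p, fun l => ⟨(hp l).1, (hp l).2.1, (hdiv _).1 (hp l).2.2⟩, hind⟩
      refine ⟨(decide (0 ≤ q.num), q.num.natAbs, q.den), ⟨Set.mem_univ _, hbadq,
        q.den_pos, hq2⟩, ?_⟩
      show (if decide (0 ≤ q.num) = true then ((q.num.natAbs : ℕ) : ℚ) else
        -((q.num.natAbs : ℕ) : ℚ)) / ((q.den : ℕ) : ℚ) = q
      have h5 : (if decide (0 ≤ q.num) = true then ((q.num.natAbs : ℕ) : ℚ) else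
        -((q.num.natAbs : ℕ) : ℚ)) = (q.num : ℚ) := by
        rw [Nat.cast_natAbs]
        split_ifs with h6
        · rw [abs_of_nonneg (of_decide_eq_true h6)]
        · have h7 : q.num < 0 := by
            by_contra h8
            push Not at h8
            exact h6 (decide_eq_true h8)
          rw [abs_of_neg h7]
          push_cast
          ring
      rw [h5]
      exact q.num_div_den
    have hfin2 : ((Set.univ : Set Bool) ×ˢ (bad ×ˢ Set.Icc 1 H)).Finite :=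
      Set.finite_univ.prod (hbf.prod (Set.finite_Icc 1 H))
    have h2 := (Set.ncard_le_ncard hsub (hfin2.image _)).trans (Set.ncard_image_le hfin2)
    rw [Set.ncard_prod, Set.ncard_prod, Set.ncard_univ] at h2
    have h3 : (Set.Icc 1 H).ncard = H := by
      rw [← Finset.coe_Icc, Set.ncard_coe_finset, Nat.card_Icc]
      omega
    rw [h3, Nat.card_eq_fintype_card, Fintype.card_bool] at h2
    have h4 : ({q : ℚ | q ≠ 0 ∧ |q.num| ≤ (H : ℤ) ∧ q.den ≤ H ∧ ¬ Φ q}.ncard : ℝ) ≤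
        2 * (bad.ncard * H) := by exact_mod_cast h2
    calc _ ≤ 2 * ((bad.ncard : ℝ) * H) := h4
      _ ≤ 2 * ((ε / 2 * H) * H) := by gcongr
      _ = ε * (H : ℝ) ^ 2 := by ring

end Pool.Agent.NH30.KT
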