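import Pool.Agent.NH30.KT.Stm

/-!
# Rational translates (helper30): more general task statements
-/

set_option autoImplicit false

open UpperHalfPlane

namespace Pool.Agent.NH30.KT

open H294ZP

/-- Task KT-A, general form. `V` is a valuation ring of `ℂ` above `p`, `x` and `y` are not in `V`,
`u = x ^ B / y ^ A` is a unit, `A` and `B` are coprime, and `N` is the smallest determinant of an
integral matrix relating `x` and `y`. Then `N = A B (g p ^ k) ^ 2`, and `g` is the order of the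
residue class of `u`. (`S_ORD` is the case `A = B = 1`.) -/
def S_ORD2 : Prop := ∀ (V : ValuationSubring ℂ) (p N A B : ℕ) (x y : ℂ) (u : V), p.Prime →
  V.valuation (p : ℂ) < 1 → 0 < N → Rel N x y → (∀ M : ℕ, 0 < M → M < N → ¬ Rel M x y) →
  0 < A → 0 < B → A.Coprime B → x ∉ V → IsUnit u → x ^ B = u * y ^ A →
  ∃ g k : ℕ, 0 < g ∧ ¬ p ∣ g ∧ N = A * B * (g * p ^ k) ^ 2 ∧
    IsPrimitiveRoot (IsLocalRing.residue V u) g

/-- `t` has `M` prime factors greater than `D`, prime to the `a i` and `b i`, for which the orders of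
the quotients `a i / b i` are essentially different. -/
def GdP (K M D : ℕ) (t : ℤ) (a b : Fin K → ℤ) : Prop :=
  ∃ P : Fin M → ℕ, (∀ s, (P s).Prime ∧ D < P s ∧ (P s : ℤ) ∣ t ∧
      ∀ i, ¬ (P s : ℤ) ∣ a i ∧ ¬ (P s : ℤ) ∣ b i) ∧
    ∀ s s', s ≠ s' → ∀ i, ∀ e f : ℕ,
      od (P s) (a i) (b i) * P s ^ e ≠ od (P s') (a i) (b i) * P s' ^ f

/-- Task KT-C, general form. For fixed pairs `(a i, b i)` with `|a i| ≠ |b i|`, almost all integers `t`
are good. -/
def S_PAIRS : Prop := ∀ (K M D : ℕ) (a b : Fin K → ℤ), (∀ i, a i ≠ 0) → (∀ i, b i ≠ 0) →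
  (∀ i, |a i| ≠ |b i|) → ∀ ε : ℝ, 0 < ε → ∃ H₀ : ℕ, ∀ H : ℕ, H₀ ≤ H →
  ({t : ℕ | 1 ≤ t ∧ t ≤ H ∧ ¬ GdP K M D t a b}.ncard : ℝ) ≤ ε * H

end Pool.Agent.NH30.KT
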