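import Pool.Agent.NH30.KT.Ord
import Pool.Agent.NH30.KT.Stm2

/-!
# Orders of quotients of large isogenous j-invariants: the general form
-/

set_option autoImplicit false
set_option linter.unusedSectionVars false

open UpperHalfPlane Function Filter Topology Polynomial

namespace Pool.Agent.NH30.KT.OrdA

open H294ZP Pool.Agent.Y226

theorem qq_pow (A N : ℕ) (hA : 0 < A) (hN : 0 < N) (τ : ℍ) : qq (A * N) τ ^ A = qq N τ := by
  unfold qq
  rw [← Complex.exp_nat_mul]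
  congr 1
  have h1 : (A : ℂ) ≠ 0 := by exact_mod_cast hA.ne'
  have h2 : (N : ℂ) ≠ 0 := by exact_mod_cast hN.ne'
  push_cast
  field_simp

theorem qq_pow' (A N : ℕ) (hA : 0 < A) (hN : 0 < N) (τ : ℍ) : qq (A * N) τ ^ N = qq A τ := by
  rw [mul_comm A N]
  exact qq_pow N A hN hA τ

/-- an `A`-th root of `jj` -/
theorem exists_rt (A : ℕ) (hA : 0 < A) : ∃ s : ℍ → ℂ, (∀ τ, s τ ^ A = jj τ) ∧
    Tendsto (fun τ => s τ * qq A τ) atImInfty (𝓝 1) := by
  have h1 := TBproof.lau_limit 1 1 1 jj Nat.one_pos ta2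
  simp only [pow_one] at h1
  refine ⟨fun τ => (qq 1 τ * jj τ) ^ ((A : ℂ)⁻¹) / qq A τ, fun τ => ?_, ?_⟩
  · rw [div_pow, Complex.cpow_nat_inv_pow _ hA.ne']
    have h2 := qq_pow A 1 hA Nat.one_pos τ
    rw [mul_one] at h2
    rw [h2, mul_div_cancel_left₀ _ (TBproof.qq_ne_zero 1 τ)]
  · have h2 : Tendsto (fun τ => (qq 1 τ * jj τ) ^ ((A : ℂ)⁻¹)) atImInfty (𝓝 (1 ^ ((A : ℂ)⁻¹))) :=
      h1.cpow tendsto_const_nhds (by simp)
    rw [Complex.one_cpow] at h2
    refine h2.congr fun τ => ?_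
    rw [div_mul_cancel₀ _ (TBproof.qq_ne_zero A τ)]

/-- the leading coefficient of a factor -/
noncomputable def Af2 (A B a d : ℕ) (ζ : ZZ) : ZZ[X] :=
  if B * d < A * a then C (-ζ) else if A * a = B * d then X - C ζ else X

theorem tendsto_pow_zero {T : ℍ → ℂ} (hT : Tendsto T atImInfty (𝓝 0)) {r : ℕ} (hr : 0 < r) :
    Tendsto (fun τ => T τ ^ r) atImInfty (𝓝 0) := by
  have := hT.pow r
  rwa [zero_pow hr.ne'] at this

theorem lim_factor {A B N a d : ℕ} {b : ℤ} (hA : 0 < A) (ha : 0 < a) (hd : 0 < d) (had : a * d = N)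
    {h : ℍ → ℍ} (hh : ∀ τ, (h τ : ℂ) * d = a * τ + b) {s : ℍ → ℂ}
    (hs : Tendsto (fun τ => s τ * qq A τ) atImInfty (𝓝 1)) (v : ℂ) :
    Tendsto (fun τ => qq (A * N) τ ^ (max (B * N) (A * a ^ 2)) * (v * s τ ^ B - jj (h τ)))
      atImInfty (𝓝 ((Af2 A B a d (eZ (-b) d hd)).eval₂ ιZ v)) := by
  have hN : 0 < N := by rw [← had]; exact Nat.mul_pos ha hd
  have hC : TC := tc
  have h1 := (hC.2.2.2.2 ta1.2 ta2 a d b ha hd h hh).1
  rw [had] at h1
  have hζ : Complex.exp (-(2 * Real.pi * Complex.I * b / d)) = ιZ (eZ (-b) d hd) := by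
    show _ = Complex.exp (2 * Real.pi * Complex.I * ((-b : ℤ) : ℂ) / d)
    congr 1
    push_cast
    ring
  rw [hζ] at h1
  have h2 := TBproof.lau_limit N _ _ _ hN h1
  have h3 : Tendsto (fun τ => qq (A * N) τ ^ (A * a ^ 2) * jj (h τ)) atImInfty
      (𝓝 (ιZ (eZ (-b) d hd))) := by
    refine h2.congr fun τ => ?_
    rw [pow_mul, qq_pow A N hA hN]
  have h4 : Tendsto (fun τ => qq (A * N) τ ^ (B * N) * (v * s τ ^ B)) atImInfty (𝓝 v) := by
    have h5 := (hs.pow B).const_mul v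
    rw [one_pow, mul_one] at h5
    refine h5.congr fun τ => ?_
    rw [mul_comm B N, pow_mul, qq_pow' A N hA hN]
    ring
  have hT := TBproof.tendsto_qq (A * N) (Nat.mul_pos hA hN)
  unfold Af2
  rcases lt_trichotomy (B * d) (A * a) with hlt | heq | hgt
  · rw [if_pos hlt, eval₂_C, map_neg]
    have hlt2 : B * N < A * a ^ 2 := by
      calc B * N = (B * d) * a := by rw [← had]; ring
        _ < (A * a) * a := Nat.mul_lt_mul_of_pos_right hlt ha
        _ = A * a ^ 2 := by ring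
    rw [max_eq_right hlt2.le]
    have h5 := h4.mul (tendsto_pow_zero hT (r := A * a ^ 2 - B * N) (by omega))
    have h6 := h5.sub h3
    rw [mul_zero, zero_sub] at h6
    refine h6.congr fun τ => ?_
    have h7 : qq (A * N) τ ^ (A * a ^ 2) =
        qq (A * N) τ ^ (B * N) * qq (A * N) τ ^ (A * a ^ 2 - B * N) := by
      rw [← pow_add]
      congr 1
      omega
    rw [mul_sub]
    congr 1
    rw [h7]
    ring
  · rw [if_neg (by omega), if_pos heq.symm, eval₂_sub, eval₂_X, eval₂_C]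
    have hlt2 : B * N = A * a ^ 2 := by
      calc B * N = (B * d) * a := by rw [← had]; ring
        _ = (A * a) * a := by rw [heq]
        _ = A * a ^ 2 := by ring
    rw [hlt2, max_self]
    rw [hlt2] at h4
    refine (h4.sub h3).congr fun τ => ?_
    ring
  · rw [if_neg (by omega), if_neg (by omega), eval₂_X]
    have hlt2 : A * a ^ 2 < B * N := by
      calc A * a ^ 2 = (A * a) * a := by ring
        _ < (B * d) * a := Nat.mul_lt_mul_of_pos_right hgt ha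
        _ = B * N := by rw [← had]; ring
    rw [max_eq_left hlt2.le]
    have h5 := h3.mul (tendsto_pow_zero hT (r := B * N - A * a ^ 2) (by omega))
    have h6 := h4.sub h5
    rw [mul_zero, sub_zero] at h6
    refine h6.congr fun τ => ?_
    have h7 : qq (A * N) τ ^ (B * N) =
        qq (A * N) τ ^ (A * a ^ 2) * qq (A * N) τ ^ (B * N - A * a ^ 2) := by
      rw [← pow_add]
      congr 1
      omega
    rw [mul_sub]
    congr 1
    rw [h7]
    ring

theorem tendsto_poly (Q : ℂ[X]) {n : ℕ} (hn : Q.natDegree ≤ n) {s t : ℍ → ℂ}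
    (hs : Tendsto (fun τ => s τ * t τ) atImInfty (𝓝 1)) (ht : Tendsto t atImInfty (𝓝 0)) :
    Tendsto (fun τ => t τ ^ n * Q.eval (s τ)) atImInfty (𝓝 (Q.coeff n)) := by
  have h1 : ∀ τ, t τ ^ n * Q.eval (s τ) =
      ∑ i ∈ Finset.range (n + 1), Q.coeff i * (s τ * t τ) ^ i * t τ ^ (n - i) := by
    intro τ
    rw [eval_eq_sum_range' (Nat.lt_succ_of_le hn), Finset.mul_sum]
    refine Finset.sum_congr rfl fun i hi => ?_
    have h2 : t τ ^ n = t τ ^ i * t τ ^ (n - i) := by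
      rw [← pow_add]
      congr 1
      have := Finset.mem_range.1 hi
      omega
    rw [h2, mul_pow]
    ring
  simp_rw [h1]
  have h3 : Q.coeff n = ∑ i ∈ Finset.range (n + 1), Q.coeff i * 1 ^ i * (if n - i = 0 then 1 else 0) := by
    rw [Finset.sum_range_succ, Finset.sum_eq_zero]
    · simp
    · intro i hi
      have := Finset.mem_range.1 hi
      rw [if_neg (by omega), mul_zero]
  rw [h3]
  refine tendsto_finsetSum _ fun i _ => ?_
  refine (tendsto_const_nhds.mul (hs.pow i)).mul ?_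
  by_cases h4 : n - i = 0
  · rw [if_pos h4, h4]
    simpa using tendsto_const_nhds
  · rw [if_neg h4]
    exact tendsto_pow_zero ht (Nat.pos_of_ne_zero h4)

/-- the modular polynomial as a polynomial in an `A`-th root of `jj` -/
noncomputable def Ps2 (P : ℕ → ZZ[X]) (D A B : ℕ) : ZZ[X][X] :=
  ∑ i ∈ Finset.range (D + 1), C (X ^ i) * X ^ (B * i) * expand ZZ[X] A ((P i).map C)

theorem Ps2_eval {R : Type*} [CommRing R] (φ : ZZ →+* R) (P : ℕ → ZZ[X]) (D A B : ℕ) (v s : R) :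
    ((Ps2 P D A B).map (eval₂RingHom φ v)).eval s = PsiE φ P D (s ^ A) (v * s ^ B) := by
  unfold Ps2 PsiE
  rw [Polynomial.map_sum, eval_finsetSum]
  refine Finset.sum_congr rfl fun i _ => ?_
  rw [Polynomial.map_mul, Polynomial.map_mul, Polynomial.map_C, Polynomial.map_pow, Polynomial.map_X,
    map_expand, Polynomial.map_map, eval_mul, eval_mul, eval_C, eval_pow, eval_X, expand_eval,
    eval_map]
  have h1 : (eval₂RingHom φ v) (X ^ i) = v ^ i := by
    rw [map_pow, coe_eval₂RingHom, eval₂_X]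
  have h2 : (eval₂RingHom φ v).comp C = φ := by
    ext z
    simp
  rw [h1, h2, mul_pow, ← pow_mul]
  ring

theorem eq_of_lim {T f : ℍ → ℂ} (hT : Tendsto T atImInfty (𝓝 0)) {a b : ℕ} {α β : ℂ} (hα : α ≠ 0)
    (hβ : β ≠ 0) (h1 : Tendsto (fun τ => T τ ^ a * f τ) atImInfty (𝓝 α))
    (h2 : Tendsto (fun τ => T τ ^ b * f τ) atImInfty (𝓝 β)) : a = b := by
  wlog hab : a ≤ b generalizing a b α β
  · exact (this hβ hα h2 h1 (by omega)).symm
  by_contra hne
  have h3 := h1.mul (tendsto_pow_zero hT (r := b - a) (by omega))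
  rw [mul_zero] at h3
  have h4 : Tendsto (fun τ => T τ ^ b * f τ) atImInfty (𝓝 0) := by
    refine h3.congr fun τ => ?_
    have : T τ ^ b = T τ ^ a * T τ ^ (b - a) := by
      rw [← pow_add]
      congr 1
      omega
    rw [this]
    ring
  exact hβ (tendsto_nhds_unique h2 h4)

/-- the primitive family and its polynomial -/
theorem fam (N : ℕ) (hN : 0 < N) : ∃ (ι : Type) (_ : Fintype ι)
    (a d : ι → ℕ) (b : ι → ℤ) (h : ι → ℍ → ℍ) (P : ℕ → ZZ[X]) (D : ℕ),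
    (∀ k, 0 < a k ∧ 0 < d k ∧ a k * d k = N) ∧
    (∀ k, ∀ t : ℤ, t ∣ a k → t ∣ d k → t ∣ b k → IsUnit t) ∧
    (∀ k τ, (h k τ : ℂ) * d k = a k * τ + b k) ∧
    (∀ τ y, ∏ k, (y - jj (h k τ)) = PsiE ιZ P D (jj τ) y) ∧
    (∀ (p q r s : ℤ), p * s - q * r = N → (∀ t : ℤ, t ∣ p → t ∣ q → t ∣ r → t ∣ s → IsUnit t) →
      ∀ τ w : ℍ, (w : ℂ) * (r * τ + s) = p * τ + q → PsiE ιZ P D (jj τ) (jj w) = 0) := by
  classical
  have hC : TC := tc
  have hA : TA := ⟨ta1.1, ta1.2, ta2⟩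
  have hB : TB := TBproof.tb hA hC
  obtain ⟨ι, _, _, α, δ, β, h, h1, h1', h2, h3, h4⟩ := tf_prim N hN
  set D := Fintype.card ι with hD
  have hG : ∀ k, TDaux.Lx N (fun τ => jj (h k τ)) := by
    intro k
    obtain ⟨ha, hd, had⟩ := h1 k
    have := hC.2.2.2.2 hA.2.1 hA.2.2 (α k) (δ k) (β k) ha hd (h k) (h2 k)
    rw [had] at this
    exact ⟨⟨_, _, this.1⟩, this.2⟩
  let F : ℍ → ℂ[X] := fun τ => ∏ k, (X - C (jj (h k τ)))
  have hco := TDaux.coeff_prod hC hN (fun k τ => jj (h k τ)) hG Finset.univ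
  have hinv : ∀ j, Inv (fun τ => (F τ).coeff j) := by
    intro j p q r s hps τ w hw
    obtain ⟨σ, hσ⟩ := h3 p q r s hps τ w hw
    have : F w = F τ := by
      show ∏ k, (X - C (jj (h k w))) = ∏ k, (X - C (jj (h k τ)))
      rw [← Equiv.prod_comp σ (fun k => (X - C (jj (h k τ))))]
      exact Finset.prod_congr rfl fun k _ => by rw [hσ k]
    show (F w).coeff j = (F τ).coeff j
    rw [this]
  have hdeg : ∀ τ, (F τ).natDegree = D := by
    intro τ
    show (∏ k, (X - C (jj (h k τ)))).natDegree = D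
    rw [natDegree_prod_of_monic _ _ fun k _ => monic_X_sub_C _]
    simp [hD]
  have hP : ∀ j, ∃ P : ZZ[X], ∀ τ, (F τ).coeff j = P.eval₂ ιZ (jj τ) := by
    intro j
    obtain ⟨⟨m, A, hL⟩, hH⟩ := hco j
    obtain ⟨P, hP1, hP2, -⟩ := hB N hN m A _ (hinv j) hH hL
    have hlift : P ∈ lifts ιZ := by
      rw [lifts_iff_coeff_lifts]
      intro i
      exact ⟨⟨P.coeff i, hP1 i⟩, rfl⟩
    obtain ⟨q, hq⟩ := (mem_lifts P).1 hlift
    refine ⟨q, fun τ => ?_⟩
    rw [eval₂_eq_eval_map, hq]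
    exact hP2 τ
  choose P hP using hP
  have hprod : ∀ τ y, ∏ k, (y - jj (h k τ)) = PsiE ιZ P D (jj τ) y := by
    intro τ y
    have e1 : ∏ k, (y - jj (h k τ)) = (F τ).eval y := by
      show _ = (∏ k, (X - C (jj (h k τ)))).eval y
      rw [eval_prod]
      simp
    rw [e1, eval_eq_sum_range, hdeg τ]
    unfold PsiE
    exact Finset.sum_congr rfl fun i _ => by rw [hP]
  refine ⟨ι, inferInstance, α, δ, β, h, P, D, h1, h1', h2, hprod, ?_⟩
  intro p q r s hdet hprim τ w hw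
  obtain ⟨k, hk⟩ := h4 p q r s hdet hprim τ w hw
  rw [← hprod τ (jj w)]
  exact Finset.prod_eq_zero (Finset.mem_univ k) (by rw [hk, sub_self])

/-- the primitive modular equation and its weighted top form -/
theorem top_form2 (N A B : ℕ) (hN : 0 < N) (hA : 0 < A) : ∃ (ι : Type) (_ : Fintype ι)
    (a d : ι → ℕ) (b : ι → ℤ) (P : ℕ → ZZ[X]) (D m : ℕ)
    (hd : ∀ k, 0 < d k),
    (∀ k, 0 < a k ∧ a k * d k = N) ∧
    (∀ k, ∀ t : ℤ, t ∣ a k → t ∣ d k → t ∣ b k → IsUnit t) ∧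
    (∀ (p q r s : ℤ), p * s - q * r = N → (∀ t : ℤ, t ∣ p → t ∣ q → t ∣ r → t ∣ s → IsUnit t) →
      ∀ τ w : ℍ, (w : ℂ) * (r * τ + s) = p * τ + q → PsiE ιZ P D (jj τ) (jj w) = 0) ∧
    (Ps2 P D A B).natDegree ≤ m ∧
    (Ps2 P D A B).coeff m = ∏ k, Af2 A B (a k) (d k) (eZ (-b k) (d k) (hd k)) := by
  classical
  obtain ⟨ι, _, α, δ, β, h, P, D, h1, h1', h2, hprod, h5⟩ := fam N hN
  obtain ⟨s, hs1, hs2⟩ := exists_rt A hA
  have hT := TBproof.tendsto_qq (A * N) (Nat.mul_pos hA hN)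
  set 𝒜 : ZZ[X] := ∏ k, Af2 A B (α k) (δ k) (eZ (-β k) (δ k) (h1 k).2.1) with h𝒜
  set M : ℕ := ∑ k, max (B * N) (A * α k ^ 2) with hM
  let f : ℂ → ℍ → ℂ := fun v τ => ∏ k, (v * s τ ^ B - jj (h k τ))
  set m : ℕ := (Ps2 P D A B).natDegree with hm
  have hf1 : ∀ v : ℂ, Tendsto (fun τ => qq (A * N) τ ^ M * f v τ) atImInfty
      (𝓝 (𝒜.eval₂ ιZ v)) := by
    intro v
    have h6 := tendsto_finsetProd Finset.univ fun k (_ : k ∈ Finset.univ) =>
      lim_factor (A := A) (B := B) hA (h1 k).1 (h1 k).2.1 (h1 k).2.2 (h2 k) hs2 v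
    rw [h𝒜, eval₂_finsetProd]
    refine h6.congr fun τ => ?_
    rw [Finset.prod_mul_distrib, Finset.prod_pow_eq_pow_sum]
  have hf2 : ∀ v : ℂ, ∀ τ, f v τ = ((Ps2 P D A B).map (eval₂RingHom ιZ v)).eval (s τ) := by
    intro v τ
    rw [Ps2_eval, hs1, ← hprod]
  have hf3 : ∀ v : ℂ, Tendsto (fun τ => qq (A * N) τ ^ (N * m) * f v τ) atImInfty
      (𝓝 (((Ps2 P D A B).coeff m).eval₂ ιZ v)) := by
    intro v
    have h6 := tendsto_poly ((Ps2 P D A B).map (eval₂RingHom ιZ v)) (n := m) natDegree_map_le hs2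
      (TBproof.tendsto_qq A hA)
    rw [coeff_map] at h6
    refine h6.congr fun τ => ?_
    rw [pow_mul, qq_pow' A N hA hN, hf2]
  have h𝒜0 : 𝒜 ≠ 0 := by
    rw [h𝒜]
    refine Finset.prod_ne_zero_iff.2 fun k _ => ?_
    unfold Af2
    split_ifs
    · rw [Ne, C_eq_zero, neg_eq_zero]
      exact left_ne_zero_of_mul_eq_one (eZ_mul _ _ _)
    · exact X_sub_C_ne_zero _
    · exact X_ne_zero
  have hPs0 : Ps2 P D A B ≠ 0 := by
    intro h0
    apply h𝒜0
    refine zz_ext fun n => ?_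
    have h6 : ∀ τ, qq (A * N) τ ^ M * f (n : ℂ) τ = 0 := by
      intro τ
      rw [hf2, h0, Polynomial.map_zero, eval_zero, mul_zero]
    have h7 := hf1 (n : ℂ)
    simp_rw [h6] at h7
    rw [eval₂_zero]
    exact tendsto_nhds_unique h7 tendsto_const_nhds
  have hlc : (Ps2 P D A B).coeff m ≠ 0 := by
    rw [hm]
    exact leadingCoeff_ne_zero.2 hPs0
  obtain ⟨n, hn⟩ : ∃ n : ℤ, ((Ps2 P D A B).coeff m * 𝒜).eval₂ ιZ (n : ℂ) ≠ 0 := by
    by_contra hcon
    push Not at hcon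
    refine mul_ne_zero hlc h𝒜0 (zz_ext fun n => ?_)
    rw [hcon n, eval₂_zero]
  rw [eval₂_mul] at hn
  have hMm : N * m = M := eq_of_lim hT (left_ne_zero_of_mul hn) (right_ne_zero_of_mul hn)
    (hf3 n) (hf1 n)
  refine ⟨ι, inferInstance, α, δ, β, P, D, m, fun k => (h1 k).2.1,
    fun k => ⟨(h1 k).1, (h1 k).2.2⟩, h1', h5, le_rfl, ?_⟩
  refine zz_ext fun n => ?_
  have h6 := hf3 (n : ℂ)
  rw [hMm] at h6
  exact tendsto_nhds_unique h6 (hf1 n)

end Pool.Agent.NH30.KT.OrdA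

namespace Pool.Agent.NH30.KT

open H294ZP Pool.Agent.Y226 OrdA

/-- **Orders of quotients of large isogenous j-invariants: general form.** -/
theorem s_ord2 : S_ORD2 := by
  classical
  intro V p N A₀ B₀ x y u hp hV hN hRel hmin hA hB hAB hx hu hxy
  obtain ⟨τ, w, a, b, c, d, hdet, hw, rfl, rfl⟩ := hRel
  have hprim := prim_of_min hN hdet hw hmin
  obtain ⟨ι, _, α, δ, β, P, D, m, hδ, h1, h2, h3, h4, h5⟩ := top_form2 N A₀ B₀ hN hA
  have hPsi := h3 a b c d hdet hprim τ w hw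
  -- the inverse
  obtain ⟨v₀, huv⟩ := hu.exists_right_inv
  have huvC : (u : ℂ) * (v₀ : ℂ) = 1 := by
    have := congrArg (fun z : V => (z : ℂ)) huv
    exact this
  -- the root
  obtain ⟨s, hs⟩ := IsAlgClosed.exists_pow_nat_eq (jj τ) hA
  have hx0 : jj τ ≠ 0 := by
    intro h0
    exact hx (by rw [h0]; exact V.zero_mem)
  have hs0 : s ≠ 0 := by
    rintro rfl
    rw [zero_pow hA.ne'] at hs
    exact hx0 hs.symm
  have hsV : s ∉ V := fun h => hx (by rw [← hs]; exact pow_mem h _)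
  set vC : ℂ := jj w / s ^ B₀ with hvC
  have hvA : vC ^ A₀ = (v₀ : ℂ) := by
    have h6 : (s ^ B₀) ^ A₀ = (u : ℂ) * jj w ^ A₀ := by
      rw [← pow_mul, mul_comm B₀ A₀, pow_mul, hs, hxy]
    have h7 : (s ^ B₀) ^ A₀ ≠ 0 := pow_ne_zero _ (pow_ne_zero _ hs0)
    rw [hvC, div_pow, div_eq_iff h7, h6]
    linear_combination -(jj w ^ A₀) * huvC
  have hvmem : vC ∈ V := by
    have hint : IsIntegral V vC := by
      refine IsIntegral.of_pow hA ?_
      rw [hvA]
      exact isIntegral_algebraMap (x := v₀)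
    obtain ⟨z, hz⟩ := IsIntegrallyClosed.isIntegral_iff.1 hint
    rw [← hz]
    exact z.2
  set v : V := ⟨vC, hvmem⟩ with hv
  have hvA' : v ^ A₀ = v₀ := Subtype.ext hvA
  have hvun : IsUnit v := by
    refine isUnit_iff_exists_inv.2 ⟨v ^ (A₀ - 1) * u, ?_⟩
    rw [← mul_assoc, ← pow_succ', Nat.sub_add_cancel hA, hvA', mul_comm]
    exact huv
  have hy : jj w = vC * s ^ B₀ := by
    rw [hvC, div_mul_cancel₀ _ (pow_ne_zero _ hs0)]
  set ψ := toV V with hψ
  set R : V[X] := (Ps2 P D A₀ B₀).map (eval₂RingHom ψ v) with hR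
  have hRm : R.map V.subtype = (Ps2 P D A₀ B₀).map (eval₂RingHom ιZ (v : ℂ)) := by
    rw [hR, Polynomial.map_map]
    congr 1
    apply Polynomial.ringHom_ext
    · intro z
      simp only [RingHom.comp_apply, coe_eval₂RingHom, eval₂_C]
      rfl
    · simp only [RingHom.comp_apply, coe_eval₂RingHom, eval₂_X]
      rfl
  have hRx : R.eval₂ V.subtype s = 0 := by
    rw [← eval_map, hRm, Ps2_eval, hs]
    show PsiE ιZ P D (jj τ) (vC * s ^ B₀) = 0
    rw [← hy]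
    exact hPsi
  have hRd : R.natDegree ≤ m := (natDegree_map_le).trans h4
  set A : V := R.coeff m with hAd
  have hAe : A = ∏ k, (Af2 A₀ B₀ (α k) (δ k) (eZ (-β k) (δ k) (hδ k))).eval₂ ψ v := by
    rw [hAd, hR, coeff_map, h5, coe_eval₂RingHom, eval₂_finsetProd]
  -- the leading coefficient is not a unit
  have hA0 : ¬ IsUnit A := by
    intro hun
    obtain ⟨A', hA'⟩ := hun.exists_right_inv
    apply hsV
    have hmon : (C A' * R).Monic := by
      refine monic_of_natDegree_le_of_coeff_eq_one m ?_ ?_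
      · exact (natDegree_C_mul_le _ _).trans hRd
      · rw [coeff_C_mul, ← hAd, mul_comm, hA']
    have hint : IsIntegral V s := by
      refine ⟨C A' * R, hmon, ?_⟩
      rw [eval₂_mul]
      have : eval₂ (algebraMap V ℂ) s R = 0 := hRx
      rw [this, mul_zero]
    obtain ⟨z, hz⟩ := IsIntegrallyClosed.isIntegral_iff.1 hint
    rw [← hz]
    exact z.2
  set ρ := IsLocalRing.residue V with hρ
  have hun : ∀ z : V, IsUnit z → ρ z ≠ 0 := fun z hz =>
    (IsLocalRing.residue_ne_zero_iff_isUnit z).2 hz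
  have hρA : ρ A = 0 := by
    by_contra hne
    exact hA0 ((IsLocalRing.residue_ne_zero_iff_isUnit A).1 hne)
  rw [hAe, map_prod] at hρA
  obtain ⟨k, -, hk⟩ := Finset.prod_eq_zero_iff.1 hρA
  set ζ := eZ (-β k) (δ k) (hδ k) with hζ
  have hζu : ψ ζ * ψ (eZ (- -β k) (δ k) (hδ k)) = 1 := by
    rw [← map_mul, eZ_mul, map_one]
  have hcase : A₀ * α k = B₀ * δ k ∧ ρ v = ρ (ψ ζ) := by
    unfold Af2 at hk
    split_ifs at hk with hc1 hc2
    · rw [eval₂_C, map_neg, map_neg, neg_eq_zero] at hk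
      exact absurd hk (hun _ (IsUnit.of_mul_eq_one _ hζu))
    · rw [eval₂_sub, eval₂_X, eval₂_C, map_sub, sub_eq_zero] at hk
      exact ⟨hc2, hk⟩
    · rw [eval₂_X] at hk
      exact absurd hk (hun v hvun)
  obtain ⟨hαδ, hρv⟩ := hcase
  -- the shape of the matrix
  obtain ⟨g₀, hg₀⟩ : B₀ ∣ α k := by
    refine (Nat.Coprime.dvd_mul_left hAB.symm).1 ?_
    rw [hαδ]
    exact dvd_mul_right _ _
  have hδg : δ k = A₀ * g₀ := by
    rw [hg₀] at hαδ
    have : B₀ * (A₀ * g₀) = B₀ * δ k := by rw [← hαδ]; ring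
    exact (Nat.eq_of_mul_eq_mul_left hB this).symm
  have hg₀0 : 0 < g₀ := by
    rcases Nat.eq_zero_or_pos g₀ with h | h
    · rw [h, mul_zero] at hδg
      exact absurd (hδ k) (by omega)
    · exact h
  have hcop : IsCoprime (-β k) (g₀ : ℤ) := by
    rw [IsCoprime.neg_left_iff, Int.isCoprime_iff_gcd_eq_one]
    have h7 : ((Int.gcd (β k) g₀ : ℕ) : ℤ) ∣ (g₀ : ℤ) := Int.gcd_dvd_right _ _
    have h6 : IsUnit ((Int.gcd (β k) g₀ : ℕ) : ℤ) := by
      refine h2 k _ ?_ ?_ (Int.gcd_dvd_left _ _)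
      · rw [hg₀]
        push_cast
        exact Dvd.dvd.mul_left h7 _
      · rw [hδg]
        push_cast
        exact Dvd.dvd.mul_left h7 _
    rw [Int.isUnit_iff_natAbs_eq, Int.natAbs_natCast] at h6
    exact h6
  have hζA : ζ ^ A₀ = eZ (-β k) g₀ hg₀0 := by
    apply Subtype.ext
    show Complex.exp (2 * Real.pi * Complex.I * ((-β k : ℤ) : ℂ) / (δ k : ℂ)) ^ A₀ =
      Complex.exp (2 * Real.pi * Complex.I * ((-β k : ℤ) : ℂ) / (g₀ : ℂ))
    rw [← Complex.exp_nat_mul, hδg]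
    congr 1
    have e1 : (A₀ : ℂ) ≠ 0 := by exact_mod_cast hA.ne'
    have e2 : (g₀ : ℂ) ≠ 0 := by exact_mod_cast hg₀0.ne'
    push_cast
    field_simp
  have hζp : IsPrimitiveRoot (ζ ^ A₀) g₀ := by
    rw [hζA]
    exact eZ_prim (-β k) hg₀0 hcop
  obtain ⟨e, g, hpg, hge⟩ := Nat.exists_eq_pow_mul_and_not_dvd hg₀0.ne' p hp.ne_one
  have hg0 : 0 < g := Nat.pos_of_ne_zero (by rintro rfl; exact hpg (dvd_zero p))
  have : Fact p.Prime := ⟨hp⟩
  have := charP_residue V hp hV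
  have hgz : NeZero ((g : ℕ) : IsLocalRing.ResidueField V) :=
    ⟨fun h0 => hpg ((CharP.cast_eq_zero_iff _ p g).1 h0)⟩
  have hroot : (cyclotomic (p ^ e * g) (IsLocalRing.ResidueField V)).IsRoot (ρ (ψ (ζ ^ A₀))) := by
    have h7 := hζp.isRoot_cyclotomic hg₀0
    have h8 := h7.map (f := ρ.comp ψ)
    rw [map_cyclotomic, hge] at h8
    exact h8
  have hprimg : IsPrimitiveRoot (ρ (ψ (ζ ^ A₀))) g :=
    isRoot_cyclotomic_prime_pow_mul_iff_of_charP.1 hroot
  have hρv0 : ρ (ψ (ζ ^ A₀)) = ρ v₀ := by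
    rw [map_pow, map_pow, ← hρv, ← map_pow, hvA']
  refine ⟨g, e, hg0, hpg, ?_, ?_⟩
  · rw [← (h1 k).2, hg₀, hδg, hge]
    ring
  · rw [hρv0] at hprimg
    have h9 : ρ u = (ρ v₀)⁻¹ := by
      have h10 := congrArg ρ huv
      rw [map_mul, map_one] at h10
      exact eq_inv_of_mul_eq_one_left h10
    rw [h9]
    exact hprimg.inv

end Pool.Agent.NH30.KT
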