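import Pool.Agent.NH30.KT.Fixed
import Pool.Agent.NH30.KT.Stm2

set_option autoImplicit false

/-!
# KT-C, general form: fixed pairs `(a i, b i)`, almost all integers `t` are good
-/

open Finset

namespace Pool.Agent.NH30.KT

open Fixed in
/-- Task KT-C, general form. -/
theorem s_pairs : S_PAIRS := by
  classical
  intro n M D a b ha0 hb0 hab ε hε
  -- bad pairs
  have hG : Summable fun u : ℕ × ℕ => ∑ i : Fin n, F (a i) (b i) u :=
    summable_sum fun i _ => F_summable (hab i)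
  obtain ⟨G, hGdef⟩ : ∃ G : ℕ × ℕ → ℝ, G = fun u => ∑ i : Fin n, F (a i) (b i) u := ⟨_, rfl⟩
  rw [← hGdef] at hG
  obtain ⟨T, hT⟩ := summable_iff_vanishing_norm.1 hG (ε / 4) (by positivity)
  obtain ⟨B, hB⟩ : ∃ B : ℕ, ∀ i, (a i).natAbs ≤ B ∧ (b i).natAbs ≤ B :=
    ⟨Finset.univ.sup fun i => (a i).natAbs + (b i).natAbs, fun i => by
      have := Finset.le_sup (f := fun i => (a i).natAbs + (b i).natAbs) (Finset.mem_univ i)
      omega⟩
  obtain ⟨N, hN1, hN2, hN3⟩ : ∃ N : ℕ, (∀ u ∈ T, u.1 ≤ N) ∧ D ≤ N ∧ B ≤ N := by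
    refine ⟨max (T.sup fun u => u.1) (max D B), fun u hu => ?_, ?_, ?_⟩
    · exact (Finset.le_sup (f := fun u : ℕ × ℕ => u.1) hu).trans (le_max_left _ _)
    · exact (le_max_left _ _).trans (le_max_right _ _)
    · exact (le_max_right _ _).trans (le_max_right _ _)
  obtain ⟨δ, hδ⟩ : ∃ δ : ℝ, δ = ε / (4 * (M + 1)) := ⟨_, rfl⟩
  have hδ0 : 0 < δ := by rw [hδ]; positivity
  obtain ⟨Q, hQ1, hQ2, hQ3⟩ := exists_Qs N (-Real.log δ)
  have hQexp : ∀ s, Real.exp (-∑ p ∈ Q s, (1 : ℝ) / p) ≤ δ := by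
    intro s
    calc Real.exp (-∑ p ∈ Q s, (1 : ℝ) / p) ≤ Real.exp (Real.log δ) :=
          Real.exp_le_exp.2 (by linarith [hQ2 s])
      _ = δ := Real.exp_log hδ0
  refine ⟨∑ s ∈ Finset.range M, ∏ p ∈ Q s, p, fun H hH => ?_⟩
  have hcop : ∀ s ∈ Finset.range M, (((Finset.Icc 1 H).filter fun t => ∀ p ∈ Q s,
      ¬ p ∣ t).card : ℝ) ≤ δ * (2 * H) := by
    intro s hs
    refine (count_le (Q s) (fun p hp => (hQ1 s p hp).1) H).trans ?_
    have h1 : ((∏ p ∈ Q s, p : ℕ) : ℝ) ≤ H := by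
      have h2 := Finset.single_le_sum (f := fun s => ∏ p ∈ Q s, p) (fun _ _ => Nat.zero_le _) hs
      exact_mod_cast h2.trans hH
    refine mul_le_mul (hQexp s) (by linarith) (by positivity) hδ0.le
  -- the pairs
  obtain ⟨V, hV⟩ : ∃ V : Finset (ℕ × ℕ), V = (Finset.Icc 1 H ×ˢ Finset.Icc 1 H).filter
    (fun u => N < u.1 ∧ ∃ i, Bad (a i) (b i) u.1 u.2) := ⟨_, rfl⟩
  have hVT : Disjoint V T := by
    rw [Finset.disjoint_left]
    intro u hu hu'
    rw [hV, Finset.mem_filter] at hu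
    have := hN1 u hu'
    omega
  have hVG : ∑ u ∈ V, G u ≤ ε / 4 := (le_abs_self _).trans (hT V hVT).le
  obtain ⟨E, hE⟩ : ∃ E : Finset ℕ, E = V.biUnion fun u => (Finset.Ioc 0 H).filter
    fun t => u.1 * u.2 ∣ t := ⟨_, rfl⟩
  have hEc : (E.card : ℝ) ≤ ε / 4 * H := by
    have h1 : (E.card : ℝ) ≤ ∑ u ∈ V, (H : ℝ) * G u := by
      have h2 : E.card ≤ ∑ u ∈ V, ((Finset.Ioc 0 H).filter fun t => u.1 * u.2 ∣ t).card := by
        rw [hE]
        exact Finset.card_biUnion_le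
      have h3 : (E.card : ℝ) ≤ ∑ u ∈ V,
          (((Finset.Ioc 0 H).filter fun t => u.1 * u.2 ∣ t).card : ℝ) := by exact_mod_cast h2
      refine h3.trans (Finset.sum_le_sum fun u hu => ?_)
      rw [Nat.Ioc_filter_dvd_card_eq_div]
      rw [hV, Finset.mem_filter] at hu
      obtain ⟨-, -, i, hb⟩ := hu
      refine (Nat.cast_div_le).trans ?_
      rw [div_eq_mul_one_div]
      refine mul_le_mul_of_nonneg_left ?_ (Nat.cast_nonneg _)
      rw [hGdef]
      have h4 := Finset.single_le_sum (f := fun i : Fin n => F (a i) (b i) u)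
        (fun _ _ => F_nonneg _ _ _) (Finset.mem_univ i)
      refine le_trans (le_of_eq ?_) h4
      unfold F
      rw [if_pos hb]
      push_cast
      rw [one_div_mul_one_div]
    rw [← Finset.mul_sum] at h1
    calc (E.card : ℝ) ≤ H * ∑ u ∈ V, G u := h1
      _ ≤ H * (ε / 4) := mul_le_mul_of_nonneg_left hVG (Nat.cast_nonneg _)
      _ = ε / 4 * H := mul_comm _ _
  -- the inclusion
  have hsub : {t : ℕ | 1 ≤ t ∧ t ≤ H ∧ ¬ GdP n M D t a b} ⊆
      (((Finset.range M).biUnion fun s => (Finset.Icc 1 H).filter fun t => ∀ p ∈ Q s, ¬ p ∣ t) ∪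
        E : Finset ℕ) := by
    rintro t ⟨ht1, htH, hbad⟩
    rw [Finset.mem_coe, Finset.mem_union]
    by_contra hcon
    push Not at hcon
    obtain ⟨hc1, hc2⟩ := hcon
    have h1 : ∀ s : Fin M, ∃ p ∈ Q s, p ∣ t := by
      intro s
      by_contra h2
      push Not at h2
      exact hc1 (Finset.mem_biUnion.2 ⟨s, Finset.mem_range.2 s.2,
        Finset.mem_filter.2 ⟨Finset.mem_Icc.2 ⟨ht1, htH⟩, h2⟩⟩)
    choose P hPQ hPt using h1
    have hPa : ∀ s i, ¬ ((P s : ℕ) : ℤ) ∣ a i := by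
      intro s i hdv
      have h2 := Nat.le_of_dvd (Int.natAbs_pos.2 (ha0 i)) (Int.natCast_dvd.1 hdv)
      have h3 := (hQ1 s _ (hPQ s)).2
      have h4 := (hB i).1
      omega
    have hPb : ∀ s i, ¬ ((P s : ℕ) : ℤ) ∣ b i := by
      intro s i hdv
      have h2 := Nat.le_of_dvd (Int.natAbs_pos.2 (hb0 i)) (Int.natCast_dvd.1 hdv)
      have h3 := (hQ1 s _ (hPQ s)).2
      have h4 := (hB i).2
      omega
    have hPle : ∀ s, 1 ≤ P s ∧ P s ≤ H := fun s =>
      ⟨(hQ1 s _ (hPQ s)).1.one_le, (Nat.le_of_dvd (by omega) (hPt s)).trans htH⟩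
    have key : ∀ s s' : Fin M, P s < P s' → ∀ i, ∀ e f : ℕ,
        od (P s) (a i) (b i) * P s ^ e ≠ od (P s') (a i) (b i) * P s' ^ f := by
      intro s s' hlt i e f heq
      have hb := bad_of ⟨(hQ1 s _ (hPQ s)).1, hPa s i, hPb s i⟩
        ⟨(hQ1 s' _ (hPQ s')).1, hPa s' i, hPb s' i⟩ hlt heq
      apply hc2
      rw [hE, Finset.mem_biUnion]
      refine ⟨(P s, P s'), ?_, ?_⟩
      · rw [hV, Finset.mem_filter, Finset.mem_product, Finset.mem_Icc, Finset.mem_Icc]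
        exact ⟨⟨hPle s, hPle s'⟩, (hQ1 s _ (hPQ s)).2, i, hb⟩
      · rw [Finset.mem_filter, Finset.mem_Ioc]
        refine ⟨⟨by omega, htH⟩, ?_⟩
        exact Nat.Coprime.mul_dvd_of_dvd_of_dvd
          ((Nat.coprime_primes (hQ1 s _ (hPQ s)).1 (hQ1 s' _ (hPQ s')).1).2 hlt.ne)
          (hPt s) (hPt s')
    apply hbad
    refine ⟨P, fun s => ⟨(hQ1 s _ (hPQ s)).1, hN2.trans_lt (hQ1 s _ (hPQ s)).2,
      Int.natCast_dvd_natCast.2 (hPt s), fun i => ⟨hPa s i, hPb s i⟩⟩, fun s s' hss i e f => ?_⟩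
    have hne : P s ≠ P s' := by
      intro h2
      have h3 := hPQ s
      rw [h2] at h3
      exact hQ3 s s' (fun h4 => hss (Fin.ext h4)) _ h3 (hPQ s')
    rcases lt_or_gt_of_ne hne with h2 | h2
    · exact key s s' h2 i e f
    · exact (key s' s h2 i f e).symm
  have h1 := Set.ncard_le_ncard hsub (Finset.finite_toSet _)
  rw [Set.ncard_coe_finset] at h1
  have h2 := h1.trans (Finset.card_union_le _ _)
  have h3 : (({t : ℕ | 1 ≤ t ∧ t ≤ H ∧ ¬ GdP n M D t a b}.ncard : ℕ) : ℝ) ≤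
      (∑ s ∈ Finset.range M, (((Finset.Icc 1 H).filter fun t => ∀ p ∈ Q s, ¬ p ∣ t).card : ℝ)) +
        E.card := by
    exact_mod_cast h2.trans (Nat.add_le_add_right Finset.card_biUnion_le _)
  have h4 := Finset.sum_le_sum hcop
  rw [Finset.sum_const, Finset.card_range, nsmul_eq_mul] at h4
  have h5 : (M : ℝ) * (δ * (2 * H)) ≤ ε / 2 * H := by
    have h6 : (M : ℝ) * δ ≤ ε / 4 := by
      rw [hδ]
      have h7 : (M : ℝ) * (ε / (4 * (M + 1))) = (ε / 4) * (M / (M + 1)) := by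
        field_simp
      rw [h7]
      have h8 : (M : ℝ) / (M + 1) ≤ 1 := by
        rw [div_le_one (by positivity)]
        linarith
      exact mul_le_of_le_one_right (by positivity) h8
    have h9 : (0 : ℝ) ≤ H := Nat.cast_nonneg _
    nlinarith
  have h9 : (0 : ℝ) ≤ H := Nat.cast_nonneg _
  nlinarith

end Pool.Agent.NH30.KT
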