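import Pool.Agent.NH30.KT.Main2
import Pool.Agent.NH30.KT.Ord2
import Pool.Agent.NH30.KT.Pairs

/-!
# Almost all members of one-parameter families: the theorem (helper30)
-/

set_option autoImplicit false

open Function UpperHalfPlane H294ZP MvPolynomial

namespace Pool.Agent.NH30.KT

/-- The common zeros of the polynomials `G J`, `J` a set of `m + 1` coordinates, with coefficients
at `t`. -/
def zeros {K : Subfield ℂ} {n : ℕ} (m : ℕ) (G : ∀ J : Finset (Fin n), MvPolynomial J (Polynomial K))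
    (t : ℂ) : Set (Fin n → ℂ) :=
  {y | ∀ J : Finset (Fin n), J.card = m + 1 → eval₂ (evalAt K t) (fun j : J => y j) (G J) = 0}

/-- `Φ` is true for almost all parameters: for all rational numbers whose numerators have
`n (n - 1) / 2 + 1` large independent prime factors; for one hundred percent of all integers, and for
one hundred percent of all rational numbers ordered by height. -/
def AlmostAll {n : ℕ} (e : Fin n → ℕ) (a b : Fin n → ℤ) (Φ : ℚ → Prop) : Prop :=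
  (∃ D : ℕ, ∀ q : ℚ, q ≠ 0 → Ok e a b (n.choose 2 + 1) D q.num → Φ q) ∧
  (∀ ε : ℝ, 0 < ε → ∃ H₀ : ℕ, ∀ H : ℕ, H₀ ≤ H →
    ({t : ℕ | 1 ≤ t ∧ t ≤ H ∧ ¬ Φ (t : ℚ)}.ncard : ℝ) ≤ ε * H) ∧
  ∀ ε : ℝ, 0 < ε → ∃ H₀ : ℕ, ∀ H : ℕ, H₀ ≤ H →
    ({q : ℚ | q ≠ 0 ∧ |q.num| ≤ (H : ℤ) ∧ q.den ≤ H ∧ ¬ Φ q}.ncard : ℝ) ≤ ε * (H : ℝ) ^ 2

theorem almostAll_of {n : ℕ} {e : Fin n → ℕ} {a b : Fin n → ℤ} (ha0 : ∀ i, a i ≠ 0)
    (hb0 : ∀ i, b i ≠ 0)
    (h : ∀ i j, i < j → |a i| ^ e j * |b j| ^ e i ≠ |a j| ^ e i * |b i| ^ e j) {Φ : ℚ → Prop}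
    (hΦ : ∃ D : ℕ, ∀ q : ℚ, q ≠ 0 → Ok e a b (n.choose 2 + 1) D q.num → Φ q) :
    AlmostAll e a b Φ := by
  obtain ⟨h1, h2⟩ := count_params s_pairs ha0 hb0 h (n.choose 2 + 1) Φ hΦ
  exact ⟨hΦ, h1, h2⟩

theorem main2 (K : Subfield ℂ) [Countable K] (n m : ℕ) (e : Fin n → ℕ) (he : ∀ i, 0 < e i)
    (a b : Fin n → ℤ) (ha0 : ∀ i, a i ≠ 0) (hb0 : ∀ i, b i ≠ 0)
    (hab : ∀ i j, i < j → |a i| ^ e j * |b j| ^ e i ≠ |a j| ^ e i * |b i| ^ e j)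
    (d : ∀ J : Finset (Fin n), J →₀ ℕ) (Γ : Finset ℂ) (hΓ : ∀ γ ∈ Γ, γ ∈ K) :
    (∀ F : ∀ J : Finset (Fin n), MvPolynomial J (Polynomial K),
      (∀ J : Finset (Fin n), J.card = m + 1 → ∀ u ∈ (F J).support, ∀ j, u j ≤ d J j) →
      ∀ κ : Finset (Fin n) → K, (∀ J, J.card = m + 1 → κ J ≠ 0) →
      (∀ J : Finset (Fin n), J.card = m + 1 → MvPolynomial.map (Polynomial.evalRingHom 0) (F J) =
        C (κ J) * ∏ j : J, (C ((b j : ℤ) : K) * X j - C ((a j : ℤ) : K)) ^ d J j) →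
      AlmostAll e a b (fun q => NoAtypical K Γ m (member m e F q))) ∧
    ∀ G : ∀ J : Finset (Fin n), MvPolynomial J (Polynomial K),
      (∀ J : Finset (Fin n), J.card = m + 1 → ∀ u ∈ (G J).support, ∀ j, u j ≤ d J j) →
      (∀ J : Finset (Fin n), J.card = m + 1 → ((G J).coeff (d J)).eval 0 ≠ 0) →
      ∀ P Q : Fin n → Polynomial K, (∀ i, (P i).eval 0 = (a i : ℤ)) →
      (∀ i, (Q i).eval 0 = (b i : ℤ)) →
      AlmostAll e a b (fun q => NoAtypical K Γ m (shiftBy e P Q q (zeros m G q))) := by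
  refine ⟨fun F hd κ hκ hstar => ?_, fun G hd htop P Q hP hQ => ?_⟩
  · refine almostAll_of ha0 hb0 hab ?_
    obtain ⟨D, hD⟩ := star_crit s_ord2 K n m e he F d hd a b ha0 hb0 κ hκ hstar Γ hΓ
    exact ⟨D, fun q hq ⟨p, hp, hind⟩ => hD q hq p hp hind⟩
  · refine almostAll_of ha0 hb0 hab ?_
    obtain ⟨D, hD⟩ := rat_crit s_ord2 K n m e he G d hd htop P Q a b ha0 hb0 hP hQ Γ hΓ
    exact ⟨D, fun q hq ⟨p, hp, hind⟩ => hD q hq p hp hind _ fun y hy => hy⟩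

end Pool.Agent.NH30.KT
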