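import Pool.Agent.NH30.KT.OrdF

/-!
# Orders of quotients of large isogenous j-invariants: the theorem
-/

set_option autoImplicit false
set_option linter.unusedSectionVars false

open UpperHalfPlane Polynomial

namespace Pool.Agent.NH30.KT.OrdA

open H294ZP Pool.Agent.Y226

/-- a matrix of minimal determinant is primitive -/
theorem prim_of_min {N : ℕ} (hN : 0 < N) {τ w : ℍ} {a b c d : ℤ} (hdet : a * d - b * c = N)
    (hw : (w : ℂ) * (c * τ + d) = a * τ + b)
    (hmin : ∀ M : ℕ, 0 < M → M < N → ¬ Rel M (jj τ) (jj w)) (t : ℤ) (ha : t ∣ a) (hb : t ∣ b)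
    (hc : t ∣ c) (hd : t ∣ d) : IsUnit t := by
  obtain ⟨a', rfl⟩ := ha
  obtain ⟨b', rfl⟩ := hb
  obtain ⟨c', rfl⟩ := hc
  obtain ⟨d', rfl⟩ := hd
  have hN' : (0 : ℤ) < N := by exact_mod_cast hN
  have h1 : t ^ 2 * (a' * d' - b' * c') = N := by rw [← hdet]; ring
  have ht0 : t ≠ 0 := by
    rintro rfl
    simp at h1
    omega
  have ht2 : 0 < t ^ 2 := by positivity
  have hM0 : 0 < a' * d' - b' * c' := by
    by_contra hcon
    push Not at hcon
    have := mul_nonpos_of_nonneg_of_nonpos ht2.le hcon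
    omega
  obtain ⟨M, hM⟩ : ∃ M : ℕ, (M : ℤ) = a' * d' - b' * c' := ⟨(a' * d' - b' * c').toNat, by omega⟩
  rw [Int.isUnit_iff_natAbs_eq]
  by_contra hne
  have h2 : 2 ≤ t.natAbs := by
    have : t.natAbs ≠ 0 := by simpa using ht0
    omega
  have h3 : 4 ≤ t ^ 2 := by
    have : (2 : ℤ) ≤ |t| := by
      rw [Int.abs_eq_natAbs]
      exact_mod_cast h2
    nlinarith [sq_abs t]
  refine hmin M (by omega) ?_ ⟨τ, w, a', b', c', d', hM.symm, ?_, rfl, rfl⟩
  · have : (M : ℤ) < N := by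
      rw [← h1, hM]
      nlinarith
    exact_mod_cast this
  · have ht : (t : ℂ) ≠ 0 := by exact_mod_cast ht0
    apply mul_left_cancel₀ ht
    push_cast at hw
    linear_combination hw

/-- the algebraic integers in a valuation ring -/
noncomputable def toV (V : ValuationSubring ℂ) : ZZ →+* V where
  toFun z := ⟨z, mem_of_integral_int V z.2⟩
  map_one' := rfl
  map_mul' _ _ := rfl
  map_zero' := rfl
  map_add' _ _ := rfl

theorem charP_residue (V : ValuationSubring ℂ) {p : ℕ} (hp : p.Prime)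
    (hV : V.valuation (p : ℂ) < 1) : CharP (IsLocalRing.ResidueField V) p := by
  obtain ⟨q, hq⟩ := CharP.exists (IsLocalRing.ResidueField V)
  have h0 : ((p : ℕ) : IsLocalRing.ResidueField V) = 0 := by
    have h1 : ((p : V) : ℂ) = (p : ℂ) := by norm_cast
    rw [← h1] at hV
    have h2 := (V.valuation_lt_one_iff (p : V)).2 hV
    have h3 := (IsLocalRing.residue_eq_zero_iff (p : V)).2 h2
    rwa [map_natCast] at h3
  have h1 : q ∣ p := (CharP.cast_eq_zero_iff _ q p).1 h0
  have h2 : q ≠ 1 := CharP.char_ne_one (IsLocalRing.ResidueField V) q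
  rcases (Nat.dvd_prime hp).1 h1 with h | h
  · exact absurd h h2
  · rwa [h] at hq

end Pool.Agent.NH30.KT.OrdA

namespace Pool.Agent.NH30.KT

open H294ZP Pool.Agent.Y226 OrdA

/-- **Orders of quotients of large isogenous j-invariants.** -/
theorem s_ord : S_ORD := by
  classical
  intro V p N x y u hp hV hN hRel hmin hx hu hxy
  obtain ⟨τ, w, a, b, c, d, hdet, hw, rfl, rfl⟩ := hRel
  have hprim := prim_of_min hN hdet hw hmin
  obtain ⟨ι, _, α, δ, β, P, D, m, hδ, h1, h2, h3, h4, h5⟩ := top_form N hN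
  have hPsi := h3 a b c d hdet hprim τ w hw
  -- the inverse
  obtain ⟨v, huv⟩ := hu.exists_right_inv
  have huvC : (u : ℂ) * (v : ℂ) = 1 := by
    have := congrArg (fun z : V => (z : ℂ)) huv
    exact this
  have hy : jj w = (v : ℂ) * jj τ := by
    rw [hxy]
    linear_combination -(jj w) * huvC
  rw [hy] at hPsi
  set ψ := toV V with hψ
  set R : V[X] := (Ps P D).map (eval₂RingHom ψ v) with hR
  have hRm : R.map V.subtype = (Ps P D).map (eval₂RingHom ιZ (v : ℂ)) := by
    rw [hR, Polynomial.map_map]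
    congr 1
    apply Polynomial.ringHom_ext
    · intro z
      simp only [RingHom.comp_apply, coe_eval₂RingHom, eval₂_C]
      rfl
    · simp only [RingHom.comp_apply, coe_eval₂RingHom, eval₂_X]
      rfl
  have hRx : R.eval₂ V.subtype (jj τ) = 0 := by
    rw [← eval_map, hRm, Ps_eval]
    exact hPsi
  have hRd : R.natDegree ≤ m := (natDegree_map_le).trans h4
  set A : V := R.coeff m with hA
  have hAe : A = ∏ k, (Af (α k) (δ k) (eZ (-β k) (δ k) (hδ k))).eval₂ ψ v := by
    rw [hA, hR, coeff_map, h5, coe_eval₂RingHom, eval₂_finsetProd]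
  -- the leading coefficient is not a unit
  have hA0 : ¬ IsUnit A := by
    intro hun
    obtain ⟨A', hA'⟩ := hun.exists_right_inv
    apply hx
    have hmon : (C A' * R).Monic := by
      refine monic_of_natDegree_le_of_coeff_eq_one m ?_ ?_
      · exact (natDegree_C_mul_le _ _).trans hRd
      · rw [coeff_C_mul, ← hA, mul_comm, hA']
    have hint : IsIntegral V (jj τ) := by
      refine ⟨C A' * R, hmon, ?_⟩
      rw [eval₂_mul]
      have : eval₂ (algebraMap V ℂ) (jj τ) R = 0 := hRx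
      rw [this, mul_zero]
    obtain ⟨z, hz⟩ := IsIntegrallyClosed.isIntegral_iff.1 hint
    rw [← hz]
    exact z.2
  set ρ := IsLocalRing.residue V with hρ
  have hun : ∀ z z' : V, z * z' = 1 → ρ z ≠ 0 := by
    intro z z' hzz h0
    have := congrArg ρ hzz
    rw [map_mul, h0, zero_mul, map_one] at this
    exact zero_ne_one this
  have hρA : ρ A = 0 := by
    by_contra hne
    exact hA0 ((IsLocalRing.residue_ne_zero_iff_isUnit A).1 hne)
  rw [hAe, map_prod] at hρA
  obtain ⟨k, -, hk⟩ := Finset.prod_eq_zero_iff.1 hρA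
  set ζ := eZ (-β k) (δ k) (hδ k) with hζ
  have hζu : ψ ζ * ψ (eZ (- -β k) (δ k) (hδ k)) = 1 := by
    rw [← map_mul, eZ_mul, map_one]
  have hcase : α k = δ k ∧ ρ v = ρ (ψ ζ) := by
    unfold Af at hk
    split_ifs at hk with hc1 hc2
    · rw [eval₂_C, map_neg, map_neg, neg_eq_zero] at hk
      exact absurd hk (hun _ _ hζu)
    · rw [eval₂_sub, eval₂_X, eval₂_C, map_sub, sub_eq_zero] at hk
      exact ⟨hc2, hk⟩
    · rw [eval₂_X] at hk
      exact absurd hk (hun v u (by rw [mul_comm]; exact huv))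
  obtain ⟨hαδ, hρv⟩ := hcase
  have hcop : IsCoprime (-β k) ((δ k : ℕ) : ℤ) := by
    rw [IsCoprime.neg_left_iff, Int.isCoprime_iff_gcd_eq_one]
    have h6 : IsUnit ((Int.gcd (β k) (δ k) : ℕ) : ℤ) :=
      h2 k _ (by rw [hαδ]; exact Int.gcd_dvd_right _ _) (Int.gcd_dvd_right _ _)
        (Int.gcd_dvd_left _ _)
    rw [Int.isUnit_iff_natAbs_eq, Int.natAbs_natCast] at h6
    exact h6
  have hζp : IsPrimitiveRoot ζ (δ k) := eZ_prim (-β k) (hδ k) hcop
  obtain ⟨e, g, hpg, hge⟩ := Nat.exists_eq_pow_mul_and_not_dvd (hδ k).ne' p hp.ne_one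
  have hg0 : 0 < g := Nat.pos_of_ne_zero (by rintro rfl; exact hpg (dvd_zero p))
  have : Fact p.Prime := ⟨hp⟩
  have := charP_residue V hp hV
  have hgz : NeZero ((g : ℕ) : IsLocalRing.ResidueField V) :=
    ⟨fun h0 => hpg ((CharP.cast_eq_zero_iff _ p g).1 h0)⟩
  have hroot : (cyclotomic (p ^ e * g) (IsLocalRing.ResidueField V)).IsRoot (ρ (ψ ζ)) := by
    have h7 := hζp.isRoot_cyclotomic (hδ k)
    have h8 := h7.map (f := ρ.comp ψ)
    rw [map_cyclotomic, hge] at h8
    exact h8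
  have hprimg : IsPrimitiveRoot (ρ (ψ ζ)) g :=
    isRoot_cyclotomic_prime_pow_mul_iff_of_charP.1 hroot
  refine ⟨g, e, hg0, hpg, ?_, ?_⟩
  · rw [← (h1 k).2, hαδ, hge]
    ring
  · rw [← hρv] at hprimg
    have h9 : ρ u = (ρ v)⁻¹ := by
      have h10 := congrArg ρ huv
      rw [map_mul, map_one] at h10
      exact eq_inv_of_mul_eq_one_left h10
    rw [h9]
    exact hprimg.inv

end Pool.Agent.NH30.KT
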