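import Pool.Agent.NH30.KT.OrdP

/-!
# The top form of the primitive modular equation
-/

set_option autoImplicit false
set_option linter.unusedSectionVars false

open UpperHalfPlane Function Filter Topology Polynomial

namespace Pool.Agent.NH30.KT.OrdA

open H294ZP Pool.Agent.Y226

theorem infinite_range_jj : (Set.range jj).Infinite := by
  intro hfin
  obtain ⟨M, hM⟩ := (hfin.image (fun z : ℂ => ‖z‖)).bddAbove
  have h1 := TBproof.lau_limit 1 1 1 jj Nat.one_pos ta2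
  have h2 := TBproof.tendsto_qq 1 Nat.one_pos
  have h3 : Tendsto (fun τ => qq 1 τ ^ 1 * jj τ) atImInfty (𝓝 0) := by
    rw [tendsto_zero_iff_norm_tendsto_zero] at h2 ⊢
    have h4 : Tendsto (fun τ => ‖qq 1 τ‖ * M) atImInfty (𝓝 0) := by
      simpa using h2.mul_const M
    refine squeeze_zero (fun _ => norm_nonneg _) (fun τ => ?_) h4
    rw [pow_one, norm_mul]
    exact mul_le_mul_of_nonneg_left (hM ⟨jj τ, ⟨τ, rfl⟩, rfl⟩) (norm_nonneg _)
  exact one_ne_zero (tendsto_nhds_unique h1 h3)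

theorem poly_unique {P Q : ℂ[X]} (h : ∀ τ, P.eval (jj τ) = Q.eval (jj τ)) : P = Q := by
  refine eq_of_infinite_eval_eq P Q (infinite_range_jj.mono ?_)
  rintro _ ⟨τ, rfl⟩
  exact h τ

theorem zz_ext {P Q : ZZ[X]} (h : ∀ n : ℤ, P.eval₂ ιZ (n : ℂ) = Q.eval₂ ιZ (n : ℂ)) : P = Q := by
  have hinj : Function.Injective ιZ := Subtype.val_injective
  apply Polynomial.map_injective ιZ hinj
  refine eq_of_infinite_eval_eq _ _ ?_
  refine Set.Infinite.mono ?_ (Set.infinite_range_of_injective (Int.cast_injective (α := ℂ)))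
  rintro _ ⟨n, rfl⟩
  show (P.map ιZ).eval (n : ℂ) = (Q.map ιZ).eval (n : ℂ)
  rw [eval_map, eval_map]
  exact h n

/-- the leading coefficient of a factor -/
noncomputable def Af (a d : ℕ) (ζ : ZZ) : ZZ[X] :=
  if d < a then C (-ζ) else if a = d then X - C ζ else X

theorem lau_factor {N a d : ℕ} {b : ℤ} (ha : 0 < a) (hd : 0 < d) (had : a * d = N) {h : ℍ → ℍ}
    (hh : ∀ τ, (h τ : ℂ) * d = a * τ + b) (n : ℤ) :
    Lau N (max N (a ^ 2)) ((Af a d (eZ (-b) d hd)).eval₂ ιZ (n : ℂ))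
      (fun τ => (n : ℂ) * jj τ + -1 * jj (h τ)) := by
  have hN : 0 < N := by rw [← had]; exact Nat.mul_pos ha hd
  have hC : TC := tc
  have h1 := (hC.2.2.2.2 ta1.2 ta2 a d b ha hd h hh).1
  rw [had] at h1
  have hζ : Complex.exp (-(2 * Real.pi * Complex.I * b / d)) = ιZ (eZ (-b) d hd) := by
    show _ = Complex.exp (2 * Real.pi * Complex.I * ((-b : ℤ) : ℂ) / d)
    congr 1
    push_cast
    ring
  rw [hζ] at h1
  have h2 : Lau N N (n : ℂ) (fun τ => (n : ℂ) * jj τ) := by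
    have h3 := hC.2.2.2.1 N 0 N (n : ℂ) 1 (fun _ => (n : ℂ)) jj hN
      (hC.1 N n hN (by simpa using (isIntegral_algebraMap (R := ℤ) (A := ℂ) (x := n))))
      (TBproof.lau_jj ta2 N hN)
    simpa using h3
  have h4 : Lau N (a ^ 2) (-ιZ (eZ (-b) d hd)) (fun τ => -1 * jj (h τ)) := by
    have h3 := hC.2.2.2.1 N 0 (a ^ 2) (-1) (ιZ (eZ (-b) d hd)) (fun _ => (-1 : ℂ)) _ hN
      (hC.1 N (-1) hN isIntegral_one.neg) h1
    simpa using h3
  unfold Af
  rcases lt_trichotomy d a with hlt | heq | hgt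
  · rw [if_pos hlt, eval₂_C, map_neg]
    have hlt2 : N < a ^ 2 := by
      rw [← had, sq]
      exact Nat.mul_lt_mul_of_pos_left hlt ha
    rw [max_eq_right hlt2.le]
    have h5 := hC.2.1 N N (a ^ 2 - N) (n : ℂ) _ hN (by omega) h2
    rw [show N + (a ^ 2 - N) = a ^ 2 by omega] at h5
    have h6 := hC.2.2.1 N (a ^ 2) 0 _ _ _ hN h5 h4
    rwa [zero_add] at h6
  · subst heq
    rw [if_neg (lt_irrefl _), if_pos rfl, eval₂_sub, eval₂_X, eval₂_C]
    have hlt2 : N = d ^ 2 := by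
      rw [← had, sq]
    rw [← hlt2, max_self]
    rw [← hlt2] at h4
    have h6 := hC.2.2.1 N N _ _ _ _ hN h2 h4
    rwa [← sub_eq_add_neg] at h6
  · rw [if_neg (by omega), if_neg (by omega), eval₂_X]
    have hlt2 : a ^ 2 < N := by
      rw [← had, sq]
      exact Nat.mul_lt_mul_of_pos_left hgt ha
    rw [max_eq_left hlt2.le]
    have h5 := hC.2.1 N (a ^ 2) (N - a ^ 2) _ _ hN (by omega) h4
    rw [show a ^ 2 + (N - a ^ 2) = N by omega] at h5
    have h6 := hC.2.2.1 N N _ 0 _ _ hN h2 h5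
    rwa [add_zero] at h6

theorem lau_prod {N : ℕ} (hN : 0 < N) {ι : Type} [DecidableEq ι] (M : ι → ℕ) (A : ι → ℂ)
    (G : ι → ℍ → ℂ) (hG : ∀ k, Lau N (M k) (A k) (G k)) (s : Finset ι) :
    Lau N (∑ k ∈ s, M k) (∏ k ∈ s, A k) (fun τ => ∏ k ∈ s, G k τ) := by
  have hC : TC := tc
  induction s using Finset.induction_on with
  | empty => simpa using hC.1 N 1 hN isIntegral_one
  | insert k s hk ih =>
    rw [Finset.sum_insert hk, Finset.prod_insert hk]
    have h1 := hC.2.2.2.1 N _ _ _ _ _ _ hN (hG k) ih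
    have h2 : (fun τ => ∏ x ∈ insert k s, G x τ) = fun τ => G k τ * ∏ x ∈ s, G x τ := by
      funext τ
      rw [Finset.prod_insert hk]
    rw [h2]
    exact h1

theorem hol_prod {ι : Type} [DecidableEq ι] (G : ι → ℍ → ℂ) (hG : ∀ k, Hol (G k))
    (s : Finset ι) : Hol (fun τ => ∏ k ∈ s, G k τ) := by
  induction s using Finset.induction_on with
  | empty => simpa using TDaux.Hol.const 1
  | insert k s hk ih =>
    have h2 : (fun τ => ∏ x ∈ insert k s, G x τ) = fun τ => G k τ * ∏ x ∈ s, G x τ := by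
      funext τ
      rw [Finset.prod_insert hk]
    rw [h2]
    exact TDaux.Hol.mul (hG k) ih

/-- the modular polynomial as a polynomial in `jj` with coefficients polynomials in the ratio -/
noncomputable def Ps (P : ℕ → ZZ[X]) (D : ℕ) : ZZ[X][X] :=
  ∑ i ∈ Finset.range (D + 1), C (X ^ i) * X ^ i * (P i).map C

theorem Ps_eval {R : Type*} [CommRing R] (φ : ZZ →+* R) (P : ℕ → ZZ[X]) (D : ℕ) (v x : R) :
    ((Ps P D).map (eval₂RingHom φ v)).eval x = PsiE φ P D x (v * x) := by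
  unfold Ps PsiE
  rw [Polynomial.map_sum, eval_finsetSum]
  refine Finset.sum_congr rfl fun i _ => ?_
  rw [Polynomial.map_mul, Polynomial.map_mul, Polynomial.map_C, Polynomial.map_pow, Polynomial.map_X,
    Polynomial.map_map, eval_mul, eval_mul, eval_C, eval_pow, eval_X, eval_map]
  have h1 : (eval₂RingHom φ v) (X ^ i) = v ^ i := by
    rw [map_pow, coe_eval₂RingHom, eval₂_X]
  have h2 : (eval₂RingHom φ v).comp C = φ := by
    ext z
    simp
  rw [h1, h2, mul_pow]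
  ring

/-- the primitive modular equation and its top form -/
theorem top_form (N : ℕ) (hN : 0 < N) : ∃ (ι : Type) (_ : Fintype ι)
    (a d : ι → ℕ) (b : ι → ℤ) (P : ℕ → ZZ[X]) (D m : ℕ)
    (hd : ∀ k, 0 < d k),
    (∀ k, 0 < a k ∧ a k * d k = N) ∧
    (∀ k, ∀ t : ℤ, t ∣ a k → t ∣ d k → t ∣ b k → IsUnit t) ∧
    (∀ (p q r s : ℤ), p * s - q * r = N → (∀ t : ℤ, t ∣ p → t ∣ q → t ∣ r → t ∣ s → IsUnit t) →
      ∀ τ w : ℍ, (w : ℂ) * (r * τ + s) = p * τ + q → PsiE ιZ P D (jj τ) (jj w) = 0) ∧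
    (Ps P D).natDegree ≤ m ∧
    (Ps P D).coeff m = ∏ k, Af (a k) (d k) (eZ (-b k) (d k) (hd k)) := by
  classical
  have hC : TC := tc
  have hA : TA := ⟨ta1.1, ta1.2, ta2⟩
  have hB : TB := TBproof.tb hA hC
  obtain ⟨ι, _, _, α, δ, β, h, h1, h1', h2, h3, h4⟩ := tf_prim N hN
  set D := Fintype.card ι with hD
  have hG : ∀ k, TDaux.Lx N (fun τ => jj (h k τ)) := by
    intro k
    obtain ⟨ha, hd, had⟩ := h1 k
    have := hC.2.2.2.2 hA.2.1 hA.2.2 (α k) (δ k) (β k) ha hd (h k) (h2 k)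
    rw [had] at this
    exact ⟨⟨_, _, this.1⟩, this.2⟩
  let F : ℍ → ℂ[X] := fun τ => ∏ k, (X - C (jj (h k τ)))
  have hco := TDaux.coeff_prod hC hN (fun k τ => jj (h k τ)) hG Finset.univ
  have hinv : ∀ j, Inv (fun τ => (F τ).coeff j) := by
    intro j p q r s hps τ w hw
    obtain ⟨σ, hσ⟩ := h3 p q r s hps τ w hw
    have : F w = F τ := by
      show ∏ k, (X - C (jj (h k w))) = ∏ k, (X - C (jj (h k τ)))
      rw [← Equiv.prod_comp σ (fun k => (X - C (jj (h k τ))))]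
      exact Finset.prod_congr rfl fun k _ => by rw [hσ k]
    show (F w).coeff j = (F τ).coeff j
    rw [this]
  have hdeg : ∀ τ, (F τ).natDegree = D := by
    intro τ
    show (∏ k, (X - C (jj (h k τ)))).natDegree = D
    rw [natDegree_prod_of_monic _ _ fun k _ => monic_X_sub_C _]
    simp [hD]
  have hP : ∀ j, ∃ P : ZZ[X], ∀ τ, (F τ).coeff j = P.eval₂ ιZ (jj τ) := by
    intro j
    obtain ⟨⟨m, A, hL⟩, hH⟩ := hco j
    obtain ⟨P, hP1, hP2, -⟩ := hB N hN m A _ (hinv j) hH hL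
    have hlift : P ∈ lifts ιZ := by
      rw [lifts_iff_coeff_lifts]
      intro i
      exact ⟨⟨P.coeff i, hP1 i⟩, rfl⟩
    obtain ⟨q, hq⟩ := (mem_lifts P).1 hlift
    refine ⟨q, fun τ => ?_⟩
    rw [eval₂_eq_eval_map, hq]
    exact hP2 τ
  choose P hP using hP
  have hprod : ∀ τ y, ∏ k, (y - jj (h k τ)) = PsiE ιZ P D (jj τ) y := by
    intro τ y
    have e1 : ∏ k, (y - jj (h k τ)) = (F τ).eval y := by
      show _ = (∏ k, (X - C (jj (h k τ)))).eval y
      rw [eval_prod]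
      simp
    rw [e1, eval_eq_sum_range, hdeg τ]
    unfold PsiE
    exact Finset.sum_congr rfl fun i _ => by rw [hP]
  -- the top form
  set 𝒜 : ZZ[X] := ∏ k, Af (α k) (δ k) (eZ (-β k) (δ k) (h1 k).2.1) with h𝒜
  set M : ℕ := ∑ k, max N (α k ^ 2) with hM
  let f : ℤ → ℍ → ℂ := fun n τ => ∏ k, ((n : ℂ) * jj τ + -1 * jj (h k τ))
  have hfL : ∀ n : ℤ, Lau N M (𝒜.eval₂ ιZ (n : ℂ)) (f n) := by
    intro n
    have h5 := lau_prod hN (fun k => max N (α k ^ 2))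
      (fun k => (Af (α k) (δ k) (eZ (-β k) (δ k) (h1 k).2.1)).eval₂ ιZ (n : ℂ))
      (fun k τ => (n : ℂ) * jj τ + -1 * jj (h k τ))
      (fun k => lau_factor (h1 k).1 (h1 k).2.1 (h1 k).2.2 (h2 k) n) Finset.univ
    rw [h𝒜, eval₂_finsetProd]
    exact h5
  have hfI : ∀ n : ℤ, Inv (f n) := by
    intro n p q r s hps τ w hw
    obtain ⟨σ, hσ⟩ := h3 p q r s hps τ w hw
    have hjw : jj w = jj τ := hA.1 p q r s hps τ w hw
    show ∏ k, ((n : ℂ) * jj w + -1 * jj (h k w)) = ∏ k, ((n : ℂ) * jj τ + -1 * jj (h k τ))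
    rw [← Equiv.prod_comp σ (fun k => ((n : ℂ) * jj τ + -1 * jj (h k τ)))]
    exact Finset.prod_congr rfl fun k _ => by rw [hσ k, hjw]
  have hfH : ∀ n : ℤ, Hol (f n) := by
    intro n
    refine hol_prod _ (fun k => ?_) _
    exact TDaux.Hol.add (TDaux.Hol.mul (TDaux.Hol.const _) hA.2.1)
      (TDaux.Hol.mul (TDaux.Hol.const _) (hG k).2)
  have hfP : ∀ (n : ℤ) τ, f n τ = ((Ps P D).map (eval₂RingHom ιZ (n : ℂ))).eval (jj τ) := by
    intro n τ
    rw [Ps_eval, ← hprod]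
    exact Finset.prod_congr rfl fun k _ => by ring
  have hfQ : ∀ n : ℤ, (𝒜.eval₂ ιZ (n : ℂ) ≠ 0 → N ∣ M) ∧
      ((Ps P D).map (eval₂RingHom ιZ (n : ℂ))).natDegree ≤ M / N ∧
      (N ∣ M → ((Ps P D).map (eval₂RingHom ιZ (n : ℂ))).coeff (M / N) = 𝒜.eval₂ ιZ (n : ℂ)) := by
    intro n
    obtain ⟨Q, -, hQ, hQ2, hQ3, hQ4⟩ := hB N hN M _ (f n) (hfI n) (hfH n) (hfL n)
    have hQe : (Ps P D).map (eval₂RingHom ιZ (n : ℂ)) = Q :=
      poly_unique fun τ => by rw [← hfP, hQ]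
    rw [hQe]
    exact ⟨hQ2, hQ3, hQ4⟩
  have h𝒜0 : 𝒜 ≠ 0 := by
    rw [h𝒜]
    refine Finset.prod_ne_zero_iff.2 fun k _ => ?_
    unfold Af
    split_ifs
    · rw [Ne, C_eq_zero, neg_eq_zero]
      exact left_ne_zero_of_mul_eq_one (eZ_mul _ _ _)
    · exact X_sub_C_ne_zero _
    · exact X_ne_zero
  have hNM : N ∣ M := by
    by_contra hcon
    apply h𝒜0
    refine zz_ext fun n => ?_
    rw [eval₂_zero]
    by_contra hne
    exact hcon ((hfQ n).1 hne)
  refine ⟨ι, inferInstance, α, δ, β, P, D, M / N, fun k => (h1 k).2.1,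
    fun k => ⟨(h1 k).1, (h1 k).2.2⟩, h1', ?_, ?_, ?_⟩
  · intro p q r s hdet hprim τ w hw
    obtain ⟨k, hk⟩ := h4 p q r s hdet hprim τ w hw
    rw [← hprod τ (jj w)]
    exact Finset.prod_eq_zero (Finset.mem_univ k) (by rw [hk, sub_self])
  · rw [natDegree_le_iff_coeff_eq_zero]
    intro e he
    refine zz_ext fun n => ?_
    have h5 := (natDegree_le_iff_coeff_eq_zero.1 (hfQ n).2.1) e he
    rw [coeff_map] at h5
    rw [eval₂_zero]
    exact h5
  · refine zz_ext fun n => ?_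
    have h5 := (hfQ n).2.2 hNM
    rw [coeff_map] at h5
    exact h5

end Pool.Agent.NH30.KT.OrdA
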