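import Pool.Agent.NH30.KT.Stm
import Pool.Agent.Y226.ZP.Modular

/-!
# Orders of quotients of large isogenous j-invariants
-/

set_option autoImplicit false
set_option linter.unusedSectionVars false

open UpperHalfPlane ModularForm Function FixedDetMatrices Matrix MatrixGroups

namespace Pool.Agent.NH30.KT.OrdA

open H294ZP H294ZP.TF676

/-! ## Primitive matrices -/

/-- The entries have no common divisor. -/
def Pr {m : ℤ} (A : FixedDetMatrix (Fin 2) ℤ m) : Prop :=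
  ∀ t : ℤ, (∀ i j, t ∣ A.1 i j) → IsUnit t

theorem Pr.smul {m : ℤ} (g : SL(2, ℤ)) {A : FixedDetMatrix (Fin 2) ℤ m} (h : Pr A) :
    Pr (g • A) := by
  intro t ht
  refine h t fun i j => ?_
  have h1 : A = g⁻¹ • (g • A) := by rw [inv_smul_smul]
  rw [h1, smul_entries]
  exact dvd_add (Dvd.dvd.mul_left (ht 0 j) _) (Dvd.dvd.mul_left (ht 1 j) _)

theorem Pr.rmul {m : ℤ} (g : SL(2, ℤ)) {A : FixedDetMatrix (Fin 2) ℤ m} (h : Pr A) :
    Pr (rmul A g) := by
  intro t ht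
  refine h t fun i j => ?_
  have h3 : g.1 * (g⁻¹ : SL(2, ℤ)).1 = 1 := by
    have := congrArg Subtype.val (mul_inv_cancel g)
    exact this
  have h1 : A.1 = (TF676.rmul A g).1 * (g⁻¹ : SL(2, ℤ)).1 := by
    show A.1 = A.1 * g.1 * (g⁻¹ : SL(2, ℤ)).1
    rw [mul_assoc, h3, mul_one]
  rw [h1, Matrix.mul_apply, Fin.sum_univ_two]
  exact dvd_add (Dvd.dvd.mul_right (ht i 0) _) (Dvd.dvd.mul_right (ht i 1) _)

theorem Pr.red {N : ℕ} (hN : 0 < N) {A : FixedDetMatrix (Fin 2) ℤ (N : ℤ)} (h : Pr A) :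
    Pr (red hN A).1 := by
  obtain ⟨g, hg⟩ := reduce_orbit A
  have : (TF676.red hN A).1 = g • A := hg
  rw [this]
  exact h.smul g

/-- the family of primitive representatives -/
theorem tf_prim (N : ℕ) (hN : 0 < N) : ∃ (ι : Type) (_ : Fintype ι) (_ : DecidableEq ι)
    (a d : ι → ℕ) (b : ι → ℤ) (h : ι → ℍ → ℍ),
    (∀ k, 0 < a k ∧ 0 < d k ∧ a k * d k = N) ∧
    (∀ k, ∀ t : ℤ, t ∣ a k → t ∣ d k → t ∣ b k → IsUnit t) ∧
    (∀ k τ, (h k τ : ℂ) * d k = a k * τ + b k) ∧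
    (∀ (p q r s : ℤ), p * s - q * r = 1 → ∀ τ w : ℍ, (w : ℂ) * (r * τ + s) = p * τ + q →
      ∃ σ : Equiv.Perm ι, ∀ k, jj (h k w) = jj (h (σ k) τ)) ∧
    (∀ (p q r s : ℤ), p * s - q * r = N → (∀ t : ℤ, t ∣ p → t ∣ q → t ∣ r → t ∣ s → IsUnit t) →
      ∀ τ w : ℍ, (w : ℂ) * (r * τ + s) = p * τ + q → ∃ k, jj w = jj (h k τ)) := by
  classical
  have hj : Inv jj := ta1.1
  refine ⟨{k : reps (N : ℤ) // Pr k.1}, Fintype.ofFinite _, inferInstance,
    fun k => (k.1.1.1 0 0).toNat, fun k => (k.1.1.1 1 1).toNat, fun k => k.1.1.1 0 1,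
    fun k => hf hN k.1, ?_, ?_, ?_, ?_, ?_⟩
  · intro k
    exact ⟨(reps_pos hN k.1).1, (reps_pos hN k.1).2.1, (reps_pos hN k.1).2.2.1⟩
  · intro k t h1 h2 h3
    obtain ⟨-, -, -, e1, e2, e3⟩ := reps_pos hN k.1
    rw [e1] at h1
    rw [e2] at h2
    refine k.2 t fun i j => ?_
    fin_cases i <;> fin_cases j
    · exact h1
    · exact h3
    · show t ∣ k.1.1.1 1 0
      rw [e3]
      exact dvd_zero t
    · exact h2
  · intro k τ
    exact hk_mul _ _ _ (reps_pos hN k.1).1 (reps_pos hN k.1).2.1 τ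
  · intro p q r s hdet τ w hw
    set γ : SL(2, ℤ) := ⟨!![p, q; r, s], by rw [Matrix.det_fin_two_of]; exact hdet⟩ with hγ
    have hinj : Function.Injective (fun k : {k : reps (N : ℤ) // Pr k.1} =>
        (⟨red hN (rmul k.1.1 γ), (k.2.rmul γ).red hN⟩ : {k : reps (N : ℤ) // Pr k.1})) := by
      intro k k' hkk
      simp only at hkk
      have h0 := congrArg Subtype.val hkk
      have h1 : reduce (rmul k.1.1 γ) = reduce (rmul k'.1.1 γ) := congrArg Subtype.val h0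
      obtain ⟨g, hg⟩ := reduce_orbit (rmul k.1.1 γ)
      obtain ⟨g', hg'⟩ := reduce_orbit (rmul k'.1.1 γ)
      rw [hg, hg', smul_rmul, smul_rmul] at h1
      have h2 := rmul_inj γ h1
      have h3 : k'.1.1 = (g'⁻¹ * g) • k.1.1 := by
        rw [mul_smul, h2, inv_smul_smul]
      exact Subtype.ext (Subtype.ext (reps_unique (by exact_mod_cast hN) k.1.2 k'.1.2 _ h3))
    refine ⟨Equiv.ofBijective _ (Finite.injective_iff_bijective.1 hinj), fun k => ?_⟩
    show jj (hf hN k.1 w) = jj (hf hN (red hN (rmul k.1.1 γ)) τ)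
    apply key hN hj
    have h1 := hf_mul hN k.1 w
    have h10 : k.1.1.1 1 0 = 0 := (reps_pos hN k.1).2.2.2.2.2
    have e10 : (rmul k.1.1 γ).1 1 0 = k.1.1.1 1 1 * r := by
      show (k.1.1.1 * γ.1) 1 0 = _
      simp [Matrix.mul_apply, Fin.sum_univ_two, hγ, h10]
    have e11 : (rmul k.1.1 γ).1 1 1 = k.1.1.1 1 1 * s := by
      show (k.1.1.1 * γ.1) 1 1 = _
      simp [Matrix.mul_apply, Fin.sum_univ_two, hγ, h10]
    have e00 : (rmul k.1.1 γ).1 0 0 = k.1.1.1 0 0 * p + k.1.1.1 0 1 * r := by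
      show (k.1.1.1 * γ.1) 0 0 = _
      simp [Matrix.mul_apply, Fin.sum_univ_two, hγ]
    have e01 : (rmul k.1.1 γ).1 0 1 = k.1.1.1 0 0 * q + k.1.1.1 0 1 * s := by
      show (k.1.1.1 * γ.1) 0 1 = _
      simp [Matrix.mul_apply, Fin.sum_univ_two, hγ]
    rw [e10, e11, e00, e01]
    push_cast
    linear_combination ((r : ℂ) * τ + s) * h1 + (k.1.1.1 0 0 : ℂ) * hw
  · intro p q r s hdet hprim τ w hw
    set A : FixedDetMatrix (Fin 2) ℤ (N : ℤ) :=
      ⟨!![p, q; r, s], by rw [Matrix.det_fin_two_of]; exact hdet⟩ with hA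
    have hPr : Pr A := by
      intro t ht
      refine hprim t ?_ ?_ ?_ ?_
      · simpa [hA] using ht 0 0
      · simpa [hA] using ht 0 1
      · simpa [hA] using ht 1 0
      · simpa [hA] using ht 1 1
    refine ⟨⟨red hN A, hPr.red hN⟩, key hN hj A τ w ?_⟩
    simpa [hA] using hw

end Pool.Agent.NH30.KT.OrdA
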