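import Pool.Agent.NH30.KT.Stm
import Pool.Agent.H98R3.OM.A1

/-!
# Almost all integral vectors have independent prime factors
-/

set_option autoImplicit false

namespace Pool.Agent.NH30.KT.Rand

open Finset

/-- the elements of a progression in a symmetric interval -/
theorem card_class (H R : ℕ) (hR : 0 < R) (v : ℤ) :
    (((Finset.Icc (-(H : ℤ)) H).filter (fun x => x ≡ v [ZMOD (R : ℤ)])).card : ℝ) ≤
      (2 * H + 1 + R) / R := by
  have e : Finset.Icc (-(H : ℤ)) H = Finset.Ioc (-(H : ℤ) - 1) H := by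
    ext x
    simp only [Finset.mem_Icc, Finset.mem_Ioc]
    omega
  have hR' : (0 : ℤ) < R := by exact_mod_cast hR
  have hRr : (0 : ℝ) < R := by exact_mod_cast hR
  have hRq : (0 : ℚ) < R := by exact_mod_cast hR
  have h := Int.Ioc_filter_modEq_card (-(H : ℤ) - 1) (H : ℤ) hR' v
  rw [e]
  have h2 : (((Finset.Ioc (-(H : ℤ) - 1) H).filter (fun x => x ≡ v [ZMOD (R : ℤ)])).card : ℚ) ≤
      (2 * H + 1 + R) / R := by
    have h3 : ((((Finset.Ioc (-(H : ℤ) - 1) H).filter (fun x => x ≡ v [ZMOD (R : ℤ)])).card : ℤ) : ℚ) =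
      ((max (⌊(((H : ℤ) : ℚ) - v) / ((R : ℤ) : ℚ)⌋ - ⌊(((-(H : ℤ) - 1 : ℤ) : ℚ) - v) / ((R : ℤ) : ℚ)⌋) 0 : ℤ) : ℚ) := by
      rw [h]
    rw [Int.cast_natCast] at h3
    rw [h3, Int.cast_max]
    refine max_le ?_ (by rw [Int.cast_zero]; positivity)
    have f1 := Int.floor_le ((((H : ℤ) : ℚ) - v) / ((R : ℤ) : ℚ))
    have f2 := Int.lt_floor_add_one ((((-(H : ℤ) - 1 : ℤ) : ℚ) - v) / ((R : ℤ) : ℚ))
    push_cast at f1 f2 ⊢
    have f3 : (((H : ℚ) - v) / R) - ((-(H : ℚ) - 1 - v) / R) = (2 * H + 1) / R := by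
      field_simp
      ring
    have f4 : ((2 : ℚ) * H + 1 + R) / R = (2 * H + 1) / R + 1 := by
      field_simp
    rw [f4]
    linarith
  have h5 := (Rat.cast_le (K := ℝ)).2 h2
  push_cast at h5
  exact h5

open scoped Classical in
/-- vectors in a box whose residues are restricted -/
theorem crt_count (m H : ℕ) (Q : Finset ℕ) (hQ : ∀ p ∈ Q, p.Prime)
    (B : (p : ℕ) → Set (Fin m → ZMod p)) (β : ℕ → ℝ)
    (hβ : ∀ p ∈ Q, ((B p).ncard : ℝ) ≤ β p * (p : ℝ) ^ m) :
    ({v : Fin m → ℤ | (∀ i, |v i| ≤ (H : ℤ)) ∧ ∀ p ∈ Q, (fun i => (v i : ZMod p)) ∈ B p}.ncard : ℝ) ≤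
      (∏ p ∈ Q, β p) * (2 * H + 1 + ((∏ p ∈ Q, p : ℕ) : ℝ)) ^ m := by
  set R : ℕ := ∏ p ∈ Q, p with hRdef
  have hR : 0 < R := Finset.prod_pos fun p hp => (hQ p hp).pos
  have hRr : (0 : ℝ) < R := by exact_mod_cast hR
  set s : Finset (Fin m → ℤ) := (Fintype.piFinset fun _ : Fin m => Finset.Icc (-(H : ℤ)) H).filter
    (fun v => ∀ p ∈ Q, (fun i => (v i : ZMod p)) ∈ B p) with hs
  have e : {v : Fin m → ℤ | (∀ i, |v i| ≤ (H : ℤ)) ∧ ∀ p ∈ Q, (fun i => (v i : ZMod p)) ∈ B p} =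
      (s : Set (Fin m → ℤ)) := by
    ext v
    simp only [hs, Set.mem_ofPred_eq, Finset.coe_filter, Fintype.mem_piFinset, Finset.mem_Icc, abs_le]
  rw [e, Set.ncard_coe_finset]
  have hfin : ∀ p : Q, (B p.1).Finite := by
    intro p
    have : NeZero p.1 := ⟨(hQ p.1 p.2).ne_zero⟩
    exact Set.toFinite _
  set f : (Fin m → ℤ) → ((p : Q) → (Fin m → ZMod p.1)) := fun v p i => (v i : ZMod p.1) with hf
  have him : s.image f ⊆ Fintype.piFinset (fun p : Q => (hfin p).toFinset) := by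
    intro a ha
    obtain ⟨v, hv, rfl⟩ := Finset.mem_image.1 ha
    rw [Fintype.mem_piFinset]
    intro p
    rw [Set.Finite.mem_toFinset]
    exact (Finset.mem_filter.1 hv).2 p.1 p.2
  have hic : ((s.image f).card : ℝ) ≤ ∏ p ∈ Q, (β p * (p : ℝ) ^ m) := by
    have h1 : ((s.image f).card : ℝ) ≤ ((Fintype.piFinset (fun p : Q => (hfin p).toFinset)).card : ℝ) := by
      exact_mod_cast Finset.card_le_card him
    refine h1.trans ?_
    rw [Fintype.card_piFinset, Nat.cast_prod, ← Finset.prod_coe_sort Q]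
    refine Finset.prod_le_prod (fun _ _ => Nat.cast_nonneg _) fun p _ => ?_
    rw [← Set.ncard_eq_toFinset_card _ (hfin p)]
    exact hβ p.1 p.2
  have hfib : ∀ b ∈ s.image f, ((s.filter (fun v => f v = b)).card : ℝ) ≤ ((2 * H + 1 + R) / R) ^ m := by
    intro b hb
    obtain ⟨v, hv, rfl⟩ := Finset.mem_image.1 hb
    have hsub : s.filter (fun w => f w = f v) ⊆ Fintype.piFinset
        (fun i : Fin m => (Finset.Icc (-(H : ℤ)) H).filter (fun x => x ≡ v i [ZMOD (R : ℤ)])) := by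
      intro w hw
      rw [Finset.mem_filter] at hw
      rw [Fintype.mem_piFinset]
      intro i
      rw [Finset.mem_filter]
      refine ⟨Fintype.mem_piFinset.1 (Finset.mem_filter.1 hw.1).1 i, ?_⟩
      have h2 : ∀ p ∈ Q, (p : ℤ) ∣ w i - v i := by
        intro p hp
        have h3 := congrFun (congrFun hw.2 ⟨p, hp⟩) i
        simp only [hf] at h3
        rw [← ZMod.intCast_zmod_eq_zero_iff_dvd, Int.cast_sub, h3, sub_self]
      have h4 : (R : ℤ) ∣ w i - v i := by
        rw [hRdef, Nat.cast_prod]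
        refine Finset.prod_dvd_of_coprime ?_ h2
        intro p hp q hq hpq
        exact Nat.isCoprime_iff_coprime.2 ((Nat.coprime_primes (hQ p hp) (hQ q hq)).2 hpq)
      exact ((Int.modEq_iff_dvd).2 h4).symm
    have h5 : ((s.filter (fun w => f w = f v)).card : ℝ) ≤ ((Fintype.piFinset
        (fun i : Fin m => (Finset.Icc (-(H : ℤ)) H).filter (fun x => x ≡ v i [ZMOD (R : ℤ)]))).card : ℝ) := by
      exact_mod_cast Finset.card_le_card hsub
    refine h5.trans ?_
    rw [Fintype.card_piFinset, Nat.cast_prod]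
    calc ∏ i : Fin m, (((Finset.Icc (-(H : ℤ)) H).filter (fun x => x ≡ v i [ZMOD (R : ℤ)])).card : ℝ) ≤
        ∏ _i : Fin m, ((2 * H + 1 + R) / R : ℝ) :=
          Finset.prod_le_prod (fun _ _ => Nat.cast_nonneg _) fun i _ => card_class H R hR (v i)
      _ = ((2 * H + 1 + R) / R) ^ m := by
          rw [Finset.prod_const, Finset.card_univ, Fintype.card_fin]
  have hcard : (s.card : ℝ) ≤ ((s.image f).card : ℝ) * ((2 * H + 1 + R) / R) ^ m := by
    rw [Finset.card_eq_sum_card_image f s, Nat.cast_sum]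
    refine (Finset.sum_le_sum hfib).trans ?_
    rw [Finset.sum_const, nsmul_eq_mul]
  refine hcard.trans ((mul_le_mul_of_nonneg_right hic (by positivity)).trans ?_)
  rw [Finset.prod_mul_distrib, Finset.prod_pow, ← Nat.cast_prod, ← hRdef, div_pow]
  apply le_of_eq
  field_simp

/-! ### Counting residue vectors -/

section res

variable {n p : ℕ} [Fact p.Prime]

open scoped Classical in
theorem card_fix (i : Fin n) (a : ZMod p) :
    ((Finset.univ.filter (fun c : Fin n → ZMod p => c i = a)).card : ℝ) = (p : ℝ) ^ n / p := by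
  have hp : 0 < p := (Fact.out : p.Prime).pos
  have hpr : (p : ℝ) ≠ 0 := by positivity
  have e : Finset.univ.filter (fun c : Fin n → ZMod p => c i = a) =
      Fintype.piFinset (fun j : Fin n => if j = i then ({a} : Finset (ZMod p)) else Finset.univ) := by
    ext c
    rw [Finset.mem_filter, Fintype.mem_piFinset]
    constructor
    · rintro ⟨_, h⟩ j
      by_cases hj : j = i
      · rw [if_pos hj, hj, h]; exact Finset.mem_singleton_self _
      · rw [if_neg hj]; exact Finset.mem_univ _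
    · intro h
      have h1 := h i
      rw [if_pos rfl, Finset.mem_singleton] at h1
      exact ⟨Finset.mem_univ _, h1⟩
  rw [e, Fintype.card_piFinset, ← Finset.mul_prod_erase _ _ (Finset.mem_univ i), if_pos rfl,
    Finset.card_singleton, one_mul, Finset.prod_congr rfl (g := fun _ => p)]
  · rw [Finset.prod_const, Finset.card_erase_of_mem (Finset.mem_univ i), Finset.card_univ,
      Fintype.card_fin, Nat.cast_pow, eq_div_iff hpr, ← pow_succ]
    congr 1
    have := i.pos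
    omega
  · intro j hj
    rw [if_neg (Finset.ne_of_mem_erase hj), Finset.card_univ, ZMod.card]

open scoped Classical in
theorem card_line (i : Fin n) (P : (Fin n → ZMod p) → Prop) (K : ℕ)
    (hK : ∀ b : Fin n → ZMod p, ∃ S : Finset (ZMod p), S.card ≤ K ∧
      ∀ x, P (Function.update b i x) → x ∈ S) :
    ((Finset.univ.filter P).card : ℝ) ≤ K * ((p : ℝ) ^ n / p) := by
  have h1 : (Finset.univ.filter P).card ≤
      K * ((Finset.univ.filter P).image (fun c => Function.update c i 0)).card := by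
    refine Finset.card_le_mul_card_image _ _ fun b _ => ?_
    obtain ⟨S, hSK, hS⟩ := hK b
    refine le_trans ?_ hSK
    refine Finset.card_le_card_of_injOn (fun c => c i) ?_ ?_
    · intro c hc
      have hc' := Finset.mem_filter.1 (Finset.mem_coe.1 hc)
      refine Finset.mem_coe.2 (hS _ ?_)
      have h2 : Function.update b i (c i) = c := by
        rw [← hc'.2, Function.update_idem, Function.update_eq_self]
      simp only
      rw [h2]
      exact (Finset.mem_filter.1 hc'.1).2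
    · intro c hc d hd hcd
      have hc' := (Finset.mem_filter.1 (Finset.mem_coe.1 hc)).2
      have hd' := (Finset.mem_filter.1 (Finset.mem_coe.1 hd)).2
      have h3 : Function.update (Function.update c i 0) i (c i) = Function.update (Function.update d i 0) i (d i) := by
        rw [hc', hd']
        exact congrArg _ hcd
      rwa [Function.update_idem, Function.update_eq_self, Function.update_idem,
        Function.update_eq_self] at h3
  have h2 : ((Finset.univ.filter P).image (fun c => Function.update c i 0)) ⊆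
      Finset.univ.filter (fun c : Fin n → ZMod p => c i = 0) := by
    intro b hb
    obtain ⟨c, _, rfl⟩ := Finset.mem_image.1 hb
    exact Finset.mem_filter.2 ⟨Finset.mem_univ _, Function.update_self _ _ _⟩
  have h3 := Finset.card_le_card h2
  have h4 : ((Finset.univ.filter P).card : ℝ) ≤
      K * ((Finset.univ.filter (fun c : Fin n → ZMod p => c i = 0)).card : ℝ) := by
    exact_mod_cast h1.trans (Nat.mul_le_mul_left _ h3)
  rwa [card_fix] at h4

open scoped Classical in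
theorem card_pow (y : ZMod p) (hy : y ≠ 0) {k : ℕ} (hk : 0 < k) :
    (Finset.univ.filter (fun x : ZMod p => (x * y⁻¹) ^ k = 1)).card ≤ k := by
  have h1 : (Finset.univ.filter (fun x : ZMod p => (x * y⁻¹) ^ k = 1)).card ≤
      (Polynomial.nthRoots k (1 : ZMod p)).toFinset.card := by
    refine Finset.card_le_card_of_injOn (fun x => x * y⁻¹) ?_ ?_
    · intro x hx
      refine Finset.mem_coe.2 (Multiset.mem_toFinset.2 ?_)
      rw [Polynomial.mem_nthRoots hk]
      exact (Finset.mem_filter.1 (Finset.mem_coe.1 hx)).2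
    · intro a _ b _ hab
      exact mul_right_cancel₀ (inv_ne_zero hy) hab
  exact h1.trans ((Multiset.toFinset_card_le _).trans (Polynomial.card_nthRoots k 1))

open scoped Classical in
theorem card_pair {i j : Fin n} (hij : i ≠ j) {k : ℕ} (hk0 : 0 < k) :
    ((Finset.univ.filter (fun c : Fin n → ZMod p => c j ≠ 0 ∧ (c i * (c j)⁻¹) ^ k = 1)).card : ℝ) ≤
      k * ((p : ℝ) ^ n / p) := by
  have key := card_line i (fun c : Fin n → ZMod p => c j ≠ 0 ∧ (c i * (c j)⁻¹) ^ k = 1) k fun b => ?_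
  · refine le_trans (le_of_eq ?_) key
    congr!
  by_cases hb : b j ≠ 0
  · refine ⟨_, card_pow (b j) hb hk0, ?_⟩
    intro x hx
    rw [Function.update_self, Function.update_of_ne hij.symm] at hx
    exact Finset.mem_filter.2 ⟨Finset.mem_univ _, hx.2⟩
  · refine ⟨∅, Nat.zero_le _, fun x hx => ?_⟩
    rw [Function.update_self, Function.update_of_ne hij.symm] at hx
    exact absurd hx.1 hb

/-- admissible residue vectors -/
def Es (n p l : ℕ) : Set (Fin (n + 1) → ZMod p) :=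
  {w | w 0 = 0 ∧ (∀ i : Fin n, w i.succ ≠ 0) ∧
    ∀ i j : Fin n, i ≠ j → (w i.succ * (w j.succ)⁻¹) ^ ((p - 1) / l) ≠ 1}

open scoped Classical in
theorem Es_card {l : ℕ} (hl : 4 * n ^ 2 + 4 < l) (hp : 4 * n + 4 < p) (hlp : l ∣ p - 1) :
    ((Es n p l)ᶜ.ncard : ℝ) ≤ (1 - 1 / (2 * p)) * (p : ℝ) ^ (n + 1) := by
  have hp1 : 0 < p - 1 := by omega
  obtain ⟨k, hk⟩ := hlp
  have hl0 : 0 < l := by omega
  have hk0 : 0 < k := by
    rcases Nat.eq_zero_or_pos k with h | h
    · rw [h, mul_zero] at hk; omega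
    · exact h
  have hkd : (p - 1) / l = k := by
    rw [hk]; exact Nat.mul_div_cancel_left _ hl0
  have hpr : (0 : ℝ) < p := by exact_mod_cast (show 0 < p by omega)
  have hlr : (0 : ℝ) < l := by exact_mod_cast hl0
  set P : (Fin n → ZMod p) → Prop := fun c => (∀ i, c i ≠ 0) ∧
    ∀ i j : Fin n, i ≠ j → (c i * (c j)⁻¹) ^ k ≠ 1 with hP
  set Z : Fin n → Finset (Fin n → ZMod p) := fun i => Finset.univ.filter (fun c => c i = 0) with hZ
  set W : Fin n × Fin n → Finset (Fin n → ZMod p) := fun q => if q.1 ≠ q.2 then Finset.univ.filter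
    (fun c => c q.2 ≠ 0 ∧ (c q.1 * (c q.2)⁻¹) ^ k = 1) else ∅ with hW
  have hsub : Finset.univ.filter (fun c => ¬ P c) ⊆
      (Finset.univ.biUnion Z) ∪ (Finset.univ.biUnion W) := by
    intro c hc
    have hc' := (Finset.mem_filter.1 hc).2
    rw [Finset.mem_union]
    by_cases h0 : ∀ i, c i ≠ 0
    · right
      rw [hP] at hc'
      simp only [not_and, not_forall, not_not] at hc'
      obtain ⟨i, j, hij, h⟩ := hc' h0
      rw [Finset.mem_biUnion]
      refine ⟨(i, j), Finset.mem_univ _, ?_⟩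
      rw [hW]
      simp only
      rw [if_pos hij]
      exact Finset.mem_filter.2 ⟨Finset.mem_univ _, h0 j, h⟩
    · left
      push Not at h0
      obtain ⟨i, hi⟩ := h0
      rw [Finset.mem_biUnion]
      exact ⟨i, Finset.mem_univ _, Finset.mem_filter.2 ⟨Finset.mem_univ _, hi⟩⟩
  have hZc : ∀ i, ((Z i).card : ℝ) ≤ (p : ℝ) ^ n / p := fun i => (card_fix i 0).le
  have hWc : ∀ q, ((W q).card : ℝ) ≤ k * ((p : ℝ) ^ n / p) := by
    intro q
    by_cases hq : q.1 ≠ q.2
    · rw [hW]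
      simp only
      rw [if_pos hq]
      exact card_pair hq hk0
    · have h0 : W q = ∅ := by
        rw [hW]
        simp only
        rw [if_neg hq]
      rw [h0]
      simp only [Finset.card_empty, Nat.cast_zero]
      positivity
  have hbad : ((Finset.univ.filter (fun c => ¬ P c)).card : ℝ) ≤ (p : ℝ) ^ n / 2 := by
    have h1 : ((Finset.univ.filter (fun c => ¬ P c)).card : ℝ) ≤
        ∑ i, ((Z i).card : ℝ) + ∑ q, ((W q).card : ℝ) := by
      have h2 := (Finset.card_le_card hsub).trans ((Finset.card_union_le _ _).trans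
        (add_le_add (Finset.card_biUnion_le) (Finset.card_biUnion_le)))
      exact_mod_cast h2
    have h3 : ∑ i, ((Z i).card : ℝ) ≤ n * ((p : ℝ) ^ n / p) := by
      refine (Finset.sum_le_sum fun i _ => hZc i).trans (le_of_eq ?_)
      rw [Finset.sum_const, Finset.card_univ, Fintype.card_fin, nsmul_eq_mul]
    have h4 : ∑ q, ((W q).card : ℝ) ≤ (n * n) * (k * ((p : ℝ) ^ n / p)) := by
      refine (Finset.sum_le_sum fun i _ => hWc i).trans (le_of_eq ?_)
      rw [Finset.sum_const, Finset.card_univ, Fintype.card_prod, Fintype.card_fin, nsmul_eq_mul]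
      push_cast
      ring
    have h5 : (k : ℝ) * l ≤ p := by
      have : k * l ≤ p := by
        rw [mul_comm, ← hk]; omega
      exact_mod_cast this
    have h6 : (4 : ℝ) * n ^ 2 ≤ l := by
      have : 4 * n ^ 2 ≤ l := by omega
      exact_mod_cast this
    have h7 : (4 : ℝ) * n ≤ p := by
      have : 4 * n ≤ p := by omega
      exact_mod_cast this
    have h8 : (4 : ℝ) * (n * n) * k ≤ p := by
      calc (4 : ℝ) * (n * n) * k = (4 * n ^ 2) * k := by ring
        _ ≤ l * k := mul_le_mul_of_nonneg_right h6 (Nat.cast_nonneg _)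
        _ = k * l := mul_comm _ _
        _ ≤ p := h5
    have h9 : (0 : ℝ) ≤ (p : ℝ) ^ n / p := by positivity
    have h10 : (p : ℝ) * ((p : ℝ) ^ n / p) = (p : ℝ) ^ n := by field_simp
    have h11 : (n : ℝ) * ((p : ℝ) ^ n / p) ≤ (p : ℝ) ^ n / 4 := by
      have := mul_le_mul_of_nonneg_right h7 h9
      linarith
    have h12 : ((n : ℝ) * n) * (k * ((p : ℝ) ^ n / p)) ≤ (p : ℝ) ^ n / 4 := by
      have := mul_le_mul_of_nonneg_right h8 h9
      linarith
    linarith
  have hgood : (p : ℝ) ^ n / 2 ≤ ((Finset.univ.filter P).card : ℝ) := by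
    have h1 := Finset.card_filter_add_card_filter_not (s := (Finset.univ : Finset (Fin n → ZMod p))) P
    rw [Finset.card_univ, Fintype.card_fun, ZMod.card, Fintype.card_fin] at h1
    have h2 : ((Finset.univ.filter P).card : ℝ) + ((Finset.univ.filter (fun c => ¬ P c)).card : ℝ) =
        (p : ℝ) ^ n := by exact_mod_cast h1
    linarith
  have hE : ((Finset.univ.filter P).card : ℝ) ≤ ((Es n p l).ncard : ℝ) := by
    have h1 : (Finset.univ.filter P).card = ((Finset.univ.filter P).image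
        (fun c => (Fin.cons 0 c : Fin (n + 1) → ZMod p))).card := by
      rw [Finset.card_image_of_injective]
      intro c d h
      exact (Fin.cons_injective2 h).2
    rw [h1, ← Set.ncard_coe_finset]
    have h2 : (((Finset.univ.filter P).image (fun c => (Fin.cons 0 c : Fin (n + 1) → ZMod p)) : Finset _) :
        Set (Fin (n + 1) → ZMod p)) ⊆ Es n p l := by
      intro w hw
      obtain ⟨c, hc, rfl⟩ := Finset.mem_image.1 (Finset.mem_coe.1 hw)
      have hc' := (Finset.mem_filter.1 hc).2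
      refine ⟨rfl, fun i => ?_, fun i j hij => ?_⟩
      · rw [Fin.cons_succ]; exact hc'.1 i
      · rw [Fin.cons_succ, Fin.cons_succ, hkd]; exact hc'.2 i j hij
    exact_mod_cast Set.ncard_le_ncard h2 (Set.toFinite _)
  have htot : ((Es n p l).ncard : ℝ) + ((Es n p l)ᶜ.ncard : ℝ) = (p : ℝ) ^ (n + 1) := by
    have h1 := Set.ncard_add_ncard_compl (Es n p l) (Set.toFinite _) (Set.toFinite _)
    rw [Nat.card_eq_fintype_card, Fintype.card_fun, ZMod.card, Fintype.card_fin] at h1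
    exact_mod_cast h1
  have hfin : (1 - 1 / (2 * p)) * (p : ℝ) ^ (n + 1) = (p : ℝ) ^ (n + 1) - (p : ℝ) ^ n / 2 := by
    rw [pow_succ]
    field_simp
  rw [hfin]
  linarith

end res

/-! ### The primes -/

/-- finite sets of large primes in a residue class with a large sum of reciprocals -/
theorem big_sum {q : ℕ} [NeZero q] {a : ZMod q} (ha : IsUnit a) (T : ℕ) (X : ℝ) :
    ∃ Q : Finset ℕ, (∀ p ∈ Q, p.Prime ∧ (p : ZMod q) = a ∧ T < p) ∧ X ≤ ∑ p ∈ Q, (1 : ℝ) / p := by
  classical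
  set f : ℕ → ℝ := fun n : ℕ => if n.Prime ∧ (n : ZMod q) = a then (1 : ℝ) / n else 0 with hf
  have hf0 : ∀ n, 0 ≤ f n := by
    intro n
    simp only [hf]
    split_ifs <;> positivity
  have hlim : Filter.Tendsto (fun n => ∑ i ∈ Finset.range n, f i) Filter.atTop Filter.atTop :=
    (not_summable_iff_tendsto_nat_atTop_of_nonneg hf0).1 (Pool.Agent.H98R3.OM.not_summable_class ha)
  obtain ⟨N, hN⟩ := (Filter.tendsto_atTop.1 hlim
    ((∑ i ∈ Finset.range (T + 1), f i) + X)).exists_forall_of_atTop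
  refine ⟨(Finset.Ico (T + 1) (N + (T + 1))).filter (fun n => n.Prime ∧ (n : ZMod q) = a), ?_, ?_⟩
  · intro p hp
    rw [Finset.mem_filter, Finset.mem_Ico] at hp
    exact ⟨hp.2.1, hp.2.2, by omega⟩
  · rw [Finset.sum_filter]
    have h1 := hN (N + (T + 1)) (by omega)
    rw [← Finset.sum_range_add_sum_Ico f (show T + 1 ≤ N + (T + 1) by omega)] at h1
    linarith

/-- the orders distinguish the primes -/
theorem od_ne {p p' l : ℕ} (hp : p.Prime) (hp' : p'.Prime) (hl : l.Prime) (h1 : p % l = 1)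
    (h2 : p' % l = 2) {x y : ℤ} {k : ℕ} (hk : k = (p - 1) / l)
    (hx : ((x : ZMod p) * (y : ZMod p)⁻¹) ^ k ≠ 1) (hx0 : (x : ZMod p) ≠ 0)
    (hy0 : (y : ZMod p) ≠ 0) (hx0' : (x : ZMod p') ≠ 0)
    (hy0' : (y : ZMod p') ≠ 0) (a b : ℕ) :
    od p x y * p ^ a ≠ od p' x y * p' ^ b := by
  have : Fact p.Prime := ⟨hp⟩
  have : Fact p'.Prime := ⟨hp'⟩
  have hlp : l ∣ p - 1 := (Nat.modEq_iff_dvd' hp.one_lt.le).1 (by
    unfold Nat.ModEq
    rw [h1]
    exact Nat.mod_eq_of_lt hl.one_lt)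
  have ho : od p x y ∣ p - 1 := by
    unfold od
    exact orderOf_dvd_of_pow_eq_one (ZMod.pow_card_sub_one_eq_one
      (mul_ne_zero hx0 (inv_ne_zero hy0)))
  have ho' : od p' x y ∣ p' - 1 := by
    unfold od
    exact orderOf_dvd_of_pow_eq_one (ZMod.pow_card_sub_one_eq_one
      (mul_ne_zero hx0' (inv_ne_zero hy0')))
  have hlo : l ∣ od p x y := by
    by_contra hno
    apply hx
    obtain ⟨m, hm⟩ := hlp
    have hkm : k = m := by
      rw [hk, hm]
      exact Nat.mul_div_cancel_left _ hl.pos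
    rw [hkm]
    rw [hm] at ho
    have h3 : od p x y ∣ m := ((Nat.coprime_comm.1 ((Nat.Prime.coprime_iff_not_dvd hl).2 hno))).dvd_of_dvd_mul_left ho
    exact orderOf_dvd_iff_pow_eq_one.1 h3
  intro h
  have h3 : l ∣ od p' x y * p' ^ b := h ▸ Dvd.dvd.mul_right hlo _
  rcases hl.dvd_mul.1 h3 with h4 | h4
  · have h5 : l ∣ p' - 1 := h4.trans ho'
    have h6 := (Nat.modEq_iff_dvd' hp'.one_lt.le).2 h5
    unfold Nat.ModEq at h6
    rw [h2] at h6
    have := Nat.mod_le 1 l
    omega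
  · have h5 : l ∣ p' := hl.dvd_of_dvd_pow h4
    have h6 := Nat.mod_eq_zero_of_dvd h5
    omega

open scoped Classical in
theorem zero_count (n H : ℕ) :
    ({w : Fin (n + 1) → ℤ | (∀ i, |w i| ≤ (H : ℤ)) ∧ w 0 = 0}.ncard : ℝ) ≤ (2 * H + 1) ^ n := by
  set s : Finset (Fin (n + 1) → ℤ) := Fintype.piFinset
    (fun i : Fin (n + 1) => if i = 0 then ({0} : Finset ℤ) else Finset.Icc (-(H : ℤ)) H) with hs
  have h1 : {w : Fin (n + 1) → ℤ | (∀ i, |w i| ≤ (H : ℤ)) ∧ w 0 = 0} ⊆ (s : Set (Fin (n + 1) → ℤ)) := by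
    rintro w ⟨hw, hw0⟩
    rw [hs, Finset.mem_coe, Fintype.mem_piFinset]
    intro i
    by_cases hi : i = 0
    · rw [if_pos hi, hi, hw0]; exact Finset.mem_singleton_self _
    · rw [if_neg hi, Finset.mem_Icc]; exact abs_le.1 (hw i)
  have h2 := Set.ncard_le_ncard h1 (Finset.finite_toSet s)
  rw [Set.ncard_coe_finset] at h2
  have h3 : s.card = (2 * H + 1) ^ n := by
    rw [hs, Fintype.card_piFinset, Fin.prod_univ_succ, if_pos rfl, Finset.card_singleton, one_mul,
      Finset.prod_congr rfl (g := fun _ => 2 * H + 1)]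
    · rw [Finset.prod_const, Finset.card_univ, Fintype.card_fin]
    · intro i _
      rw [if_neg (Fin.succ_ne_zero i), Int.card_Icc]
      omega
  rw [h3] at h2
  exact_mod_cast h2

/-- classes modulo odd primes: one at one of them, two at the others -/
theorem exists_class {M : ℕ} (l : Fin M → ℕ) (hl : ∀ s, (l s).Prime) (hinj : Function.Injective l)
    (h4 : ∀ s, 4 < l s) (s : Fin M) : ∃ r : ℕ, IsUnit (r : ZMod (∏ s, l s)) ∧
      ∀ p : ℕ, (p : ZMod (∏ s, l s)) = r → p % l s = 1 ∧ ∀ s', s' ≠ s → p % l s' = 2 := by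
  classical
  obtain ⟨r, hr⟩ := Nat.chineseRemainderOfFinset (fun s' => if s' = s then 1 else 2) l Finset.univ
    (fun i _ => (hl i).ne_zero) (by
      intro i _ j _ hij
      exact (Nat.coprime_primes (hl i) (hl j)).2 (fun h => hij (hinj h)))
  refine ⟨r, ?_, ?_⟩
  · rw [ZMod.isUnit_iff_coprime]
    refine Nat.Coprime.prod_right fun s' _ => ?_
    rw [Nat.coprime_comm, (hl s').coprime_iff_not_dvd]
    intro h
    have h1 := hr s' (Finset.mem_univ _)
    unfold Nat.ModEq at h1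
    rw [Nat.mod_eq_zero_of_dvd h] at h1
    have h2 := h4 s'
    split_ifs at h1
    · rw [Nat.mod_eq_of_lt (by omega)] at h1; omega
    · rw [Nat.mod_eq_of_lt (by omega)] at h1; omega
  · intro p hp
    have h1 : ∀ s', p % l s' = if s' = s then 1 else 2 := by
      intro s'
      have h2 : p ≡ r [MOD ∏ s, l s] := (ZMod.natCast_eq_natCast_iff _ _ _).1 hp
      have h3 : p ≡ r [MOD l s'] := h2.of_dvd (Finset.dvd_prod_of_mem l (Finset.mem_univ s'))
      have h5 := h3.trans (hr s' (Finset.mem_univ _))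
      unfold Nat.ModEq at h5
      rw [h5]
      have h2 := h4 s'
      split_ifs
      · exact Nat.mod_eq_of_lt (by omega)
      · exact Nat.mod_eq_of_lt (by omega)
    refine ⟨by rw [h1 s, if_pos rfl], fun s' hs' => by rw [h1 s', if_neg hs']⟩

/-- the exceptional vectors for a set of primes -/
theorem class_count (n : ℕ) {l : ℕ} (hl : 4 * n ^ 2 + 4 < l) (Q : Finset ℕ)
    (hQ : ∀ p ∈ Q, p.Prime ∧ p % l = 1 ∧ 4 * n + 4 < p) {δ : ℝ} (hδ : 0 < δ)
    (hQs : 2 * (-Real.log δ) ≤ ∑ p ∈ Q, (1 : ℝ) / p) (H : ℕ) (hH : (∏ p ∈ Q, p) ≤ H) :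
    ({w : Fin (n + 1) → ℤ | (∀ i, |w i| ≤ (H : ℤ)) ∧
      ∀ p ∈ Q, (fun i => (w i : ZMod p)) ∈ (Es n p l)ᶜ}.ncard : ℝ) ≤
      δ * 2 ^ (n + 1) * (2 * H + 1) ^ (n + 1) := by
  have h1 := crt_count (n + 1) H Q (fun p hp => (hQ p hp).1) (fun p => (Es n p l)ᶜ)
    (fun p => 1 - 1 / (2 * p)) (fun p hp => by
      have : Fact p.Prime := ⟨(hQ p hp).1⟩
      refine Es_card hl (hQ p hp).2.2 ?_
      exact (Nat.modEq_iff_dvd' (hQ p hp).1.one_lt.le).1 (by
        unfold Nat.ModEq
        rw [(hQ p hp).2.1]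
        exact Nat.mod_eq_of_lt (by omega)))
  refine h1.trans ?_
  have h2 : ∏ p ∈ Q, (1 - 1 / (2 * (p : ℝ))) ≤ δ := by
    calc ∏ p ∈ Q, (1 - 1 / (2 * (p : ℝ))) ≤ ∏ p ∈ Q, Real.exp (-(1 / (2 * (p : ℝ)))) := by
          refine Finset.prod_le_prod (fun p hp => ?_) fun p hp => Real.one_sub_le_exp_neg _
          have h4 : (1 : ℝ) ≤ p := by exact_mod_cast (hQ p hp).1.one_lt.le
          have h5 : 1 / (2 * (p : ℝ)) ≤ 1 := by
            rw [div_le_one (by positivity)]
            linarith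
          linarith
      _ = Real.exp (-((1 / 2) * ∑ p ∈ Q, (1 : ℝ) / p)) := by
          rw [← Real.exp_sum, Finset.sum_neg_distrib, Finset.mul_sum]
          congr 2
          refine Finset.sum_congr rfl fun p _ => ?_
          rw [one_div_mul_one_div]
      _ ≤ Real.exp (Real.log δ) := Real.exp_le_exp.2 (by linarith)
      _ = δ := Real.exp_log hδ
  have h3 : (2 * (H : ℝ) + 1 + ((∏ p ∈ Q, p : ℕ) : ℝ)) ≤ 2 * (2 * H + 1) := by
    have : ((∏ p ∈ Q, p : ℕ) : ℝ) ≤ H := by exact_mod_cast hH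
    have : (0 : ℝ) ≤ H := Nat.cast_nonneg _
    linarith
  have h4 : (2 * (H : ℝ) + 1 + ((∏ p ∈ Q, p : ℕ) : ℝ)) ^ (n + 1) ≤ (2 * (2 * H + 1)) ^ (n + 1) :=
    pow_le_pow_left₀ (by positivity) h3 _
  calc (∏ p ∈ Q, (1 - 1 / (2 * (p : ℝ)))) * (2 * (H : ℝ) + 1 + ((∏ p ∈ Q, p : ℕ) : ℝ)) ^ (n + 1) ≤
      δ * (2 * (2 * H + 1)) ^ (n + 1) := mul_le_mul h2 h4 (by positivity) hδ.le
    _ = δ * 2 ^ (n + 1) * (2 * H + 1) ^ (n + 1) := by rw [mul_pow]; ring

end Pool.Agent.NH30.KT.Rand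

namespace Pool.Agent.NH30.KT

open _root_.Pool.Agent.NH30.KT.Rand

/-- almost all integral vectors are good -/
theorem s_random : S_RANDOM := by
  classical
  intro n M D ε hε
  -- the auxiliary primes
  set l : Fin M → ℕ := fun s => Nat.nth Nat.Prime (4 * n ^ 2 + 4 + s) with hl
  have hlp : ∀ s, (l s).Prime := fun s => Nat.prime_nth_prime _
  have hlb : ∀ s, 4 * n ^ 2 + 4 < l s := by
    intro s
    have := Nat.add_two_le_nth_prime (4 * n ^ 2 + 4 + s)
    simp only [hl]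
    omega
  have hl4 : ∀ s, 4 < l s := fun s => by have := hlb s; omega
  have hinj : Function.Injective l := by
    intro s s' h
    have h1 := (Nat.nth_strictMono Nat.infinite_setOfPred_prime).injective h
    exact Fin.ext (by omega)
  have hL : NeZero (∏ s, l s) := ⟨Finset.prod_ne_zero_iff.2 fun s _ => (hlp s).ne_zero⟩
  choose r hru hrc using fun s => exists_class l hlp hinj hl4 s
  set δ : ℝ := ε / (2 ^ (n + 2) * (M + 1)) with hδ
  have hδ0 : 0 < δ := by positivity
  choose Q hQ1 hQ2 using fun s => big_sum (hru s) (D + (4 * n + 4) + ∑ s, l s) (2 * (-Real.log δ))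
  have hQ3 : ∀ s, ∀ p ∈ Q s, p.Prime ∧ p % l s = 1 ∧ (∀ s', s' ≠ s → p % l s' = 2) ∧ D < p ∧
      4 * n + 4 < p := by
    intro s p hp
    obtain ⟨h1, h2, h3⟩ := hQ1 s p hp
    obtain ⟨h4, h5⟩ := hrc s p h2
    exact ⟨h1, h4, h5, by omega, by omega⟩
  obtain ⟨q, hq⟩ := exists_nat_ge (2 / ε)
  refine ⟨q + ∑ s, ∏ p ∈ Q s, p, fun H hH => ?_⟩
  have hHs : ∀ s, ∏ p ∈ Q s, p ≤ H := by
    intro s
    have := Finset.single_le_sum (f := fun s => ∏ p ∈ Q s, p) (fun _ _ => Nat.zero_le _)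
      (Finset.mem_univ s)
    omega
  have hHq : 2 / ε ≤ 2 * H + 1 := by
    have h1 : (q : ℝ) ≤ H := by exact_mod_cast (show q ≤ H by omega)
    have : (0 : ℝ) ≤ H := Nat.cast_nonneg _
    linarith
  set S0 : Set (Fin (n + 1) → ℤ) := {w | (∀ i, |w i| ≤ (H : ℤ)) ∧ w 0 = 0} with hS0
  set S : Fin M → Set (Fin (n + 1) → ℤ) := fun s => {w | (∀ i, |w i| ≤ (H : ℤ)) ∧
      ∀ p ∈ Q s, (fun i => (w i : ZMod p)) ∈ (Es n p (l s))ᶜ} with hS
  set φ : ℤ × (Fin n → ℤ) → (Fin (n + 1) → ℤ) := fun v => Fin.cons v.1 v.2 with hφ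
  have hφi : Function.Injective φ := by
    intro v w h
    have := Fin.cons_injective2 h
    exact Prod.ext this.1 this.2
  set A : Set (ℤ × (Fin n → ℤ)) := {v | |v.1| ≤ (H : ℤ) ∧ (∀ i, |v.2 i| ≤ (H : ℤ)) ∧
    (v.1 = 0 ∨ ¬ Gd n M D v.1 v.2)} with hA
  have hbox : ∀ v ∈ A, ∀ i, |φ v i| ≤ (H : ℤ) := by
    intro v hv i
    refine Fin.cases ?_ (fun j => ?_) i
    · exact hv.1
    · exact hv.2.1 j
  have hsub : φ '' A ⊆ S0 ∪ ⋃ s, S s := by
    rintro _ ⟨v, hv, rfl⟩
    by_cases h0 : v.1 = 0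
    · left
      exact ⟨hbox v hv, h0⟩
    · right
      have hG : ¬ Gd n M D v.1 v.2 := hv.2.2.resolve_left h0
      by_contra hno
      apply hG
      rw [Set.mem_iUnion, not_exists] at hno
      have h1 : ∀ s, ∃ p ∈ Q s, (fun i => (φ v i : ZMod p)) ∈ Es n p (l s) := by
        intro s
        by_contra h2
        push Not at h2
        exact hno s ⟨hbox v hv, fun p hp => h2 p hp⟩
      choose P hP1 hP2 using h1
      have hz : ∀ s i, ((v.2 i : ℤ) : ZMod (P s)) ≠ 0 := fun s i => (hP2 s).2.1 i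
      refine ⟨P, fun s => ⟨(hQ3 s _ (hP1 s)).1, (hQ3 s _ (hP1 s)).2.2.2.1, ?_, fun i => ?_⟩, ?_⟩
      · rw [← ZMod.intCast_zmod_eq_zero_iff_dvd]
        exact (hP2 s).1
      · rw [← ZMod.intCast_zmod_eq_zero_iff_dvd]
        exact hz s i
      · intro s s' hss i j hij a b
        exact od_ne (hQ3 s _ (hP1 s)).1 (hQ3 s' _ (hP1 s')).1 (hlp s) (hQ3 s _ (hP1 s)).2.1
          ((hQ3 s' _ (hP1 s')).2.2.1 s hss) rfl ((hP2 s).2.2 i j hij) (hz s i) (hz s j)
          (hz s' i) (hz s' j) a b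
  have hfinbox : {w : Fin (n + 1) → ℤ | ∀ i, |w i| ≤ (H : ℤ)}.Finite := by
    refine (Finset.finite_toSet (Fintype.piFinset fun _ : Fin (n + 1) =>
      Finset.Icc (-(H : ℤ)) H)).subset ?_
    intro w hw
    rw [Finset.mem_coe, Fintype.mem_piFinset]
    intro i
    rw [Finset.mem_Icc]
    exact abs_le.1 (hw i)
  have hfin : (S0 ∪ ⋃ s, S s).Finite := by
    refine hfinbox.subset ?_
    rintro w (hw | hw)
    · exact hw.1
    · obtain ⟨s, hs⟩ := Set.mem_iUnion.1 hw
      exact hs.1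
  have hcard : (A.ncard : ℝ) ≤ (S0.ncard : ℝ) + ∑ s, ((S s).ncard : ℝ) := by
    have h1 : A.ncard = (φ '' A).ncard := (Set.ncard_image_of_injective A hφi).symm
    have h2 := (Set.ncard_le_ncard hsub hfin).trans ((Set.ncard_union_le _ _).trans
      (Nat.add_le_add_left (Set.ncard_iUnion_le_of_fintype S) _))
    rw [← h1] at h2
    exact_mod_cast h2
  have hpos : (0 : ℝ) ≤ (2 * H + 1) ^ (n + 1) := by positivity
  have hS0c : (S0.ncard : ℝ) ≤ ε / 2 * (2 * H + 1) ^ (n + 1) := by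
    refine (zero_count n H).trans ?_
    have h1 : 1 ≤ ε / 2 * (2 * H + 1) := by
      rw [div_le_iff₀ hε] at hHq
      linarith
    calc (2 * (H : ℝ) + 1) ^ n = 1 * (2 * (H : ℝ) + 1) ^ n := (one_mul _).symm
      _ ≤ (ε / 2 * (2 * H + 1)) * (2 * (H : ℝ) + 1) ^ n := mul_le_mul_of_nonneg_right h1 (by positivity)
      _ = ε / 2 * (2 * H + 1) ^ (n + 1) := by ring
  have hSc : ∑ s, ((S s).ncard : ℝ) ≤ ε / 2 * (2 * H + 1) ^ (n + 1) := by
    have h1 : ∀ s ∈ (Finset.univ : Finset (Fin M)), ((S s).ncard : ℝ) ≤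
        δ * 2 ^ (n + 1) * (2 * H + 1) ^ (n + 1) := fun s _ =>
      class_count n (hlb s) (Q s) (fun p hp => ⟨(hQ3 s p hp).1, (hQ3 s p hp).2.1,
        (hQ3 s p hp).2.2.2.2⟩) hδ0 (hQ2 s) H (hHs s)
    refine (Finset.sum_le_sum h1).trans ?_
    rw [Finset.sum_const, Finset.card_univ, Fintype.card_fin, nsmul_eq_mul]
    have h2 : (M : ℝ) * (δ * 2 ^ (n + 1)) ≤ ε / 2 := by
      rw [hδ]
      have h3 : ε / (2 ^ (n + 2) * ((M : ℝ) + 1)) * 2 ^ (n + 1) = (ε / 2) / (M + 1) := by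
        rw [pow_succ (2 : ℝ) (n + 1)]
        field_simp
      rw [h3, mul_div_assoc', div_le_iff₀ (by positivity)]
      nlinarith
    calc (M : ℝ) * (δ * 2 ^ (n + 1) * (2 * H + 1) ^ (n + 1)) =
        ((M : ℝ) * (δ * 2 ^ (n + 1))) * (2 * H + 1) ^ (n + 1) := by ring
      _ ≤ ε / 2 * (2 * H + 1) ^ (n + 1) := mul_le_mul_of_nonneg_right h2 hpos
  calc (A.ncard : ℝ) ≤ (S0.ncard : ℝ) + ∑ s, ((S s).ncard : ℝ) := hcard
    _ ≤ ε / 2 * (2 * H + 1) ^ (n + 1) + ε / 2 * (2 * H + 1) ^ (n + 1) := add_le_add hS0c hSc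
    _ = ε * (2 * H + 1) ^ (n + 1) := by ring

end Pool.Agent.NH30.KT
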