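import Pool.Agent.NH30.KT.Star

/-!
# Translations of families by rational functions with a common pole (helper30)
-/

set_option autoImplicit false

open Function UpperHalfPlane H294ZP MvPolynomial

namespace Pool.Agent.NH30.KT

/-- The translate of `Y` by the vector `P i (t) / (t ^ e i * Q i (t))`. -/
def shiftBy {K : Subfield ℂ} {n : ℕ} (e : Fin n → ℕ) (P Q : Fin n → Polynomial K) (t : ℂ)
    (Y : Set (Fin n → ℂ)) : Set (Fin n → ℂ) :=
  {x | (fun i => x i - evalAt K t (P i) / (t ^ e i * evalAt K t (Q i))) ∈ Y}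

theorem evalAt_coe {K : Subfield ℂ} (t : K) (f : Polynomial K) :
    evalAt K (t : ℂ) f = algebraMap K ℂ (f.eval t) := by
  show Polynomial.aeval (algebraMap K ℂ t) f = _
  rw [Polynomial.aeval_algebraMap_apply]
  rfl

/-- one place -/
theorem rat_place {K : Subfield ℂ} {n m : ℕ} {e : Fin n → ℕ} (he : ∀ i, 0 < e i)
    {G : ∀ J : Finset (Fin n), MvPolynomial J (Polynomial K)} {d : ∀ J : Finset (Fin n), J →₀ ℕ}
    (hd : ∀ J : Finset (Fin n), J.card = m + 1 → ∀ u ∈ (G J).support, ∀ j, u j ≤ d J j)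
    (htop : ∀ J : Finset (Fin n), J.card = m + 1 → ((G J).coeff (d J)).eval 0 ≠ 0)
    {P Q : Fin n → Polynomial K} {a b : Fin n → ℤ} (hP : ∀ i, (P i).eval 0 = (a i : ℤ))
    (hQ : ∀ i, (Q i).eval 0 = (b i : ℤ))
    (V : ValuationSubring ℂ) (hW : ∀ z ∈ coefSetT G, V.valuation (z : ℂ) ≤ 1)
    (hW' : ∀ z ∈ coefSetT G, z ≠ 0 → V.valuation (z : ℂ) = 1)
    (hWP : ∀ i k, V.valuation (((P i).coeff k : K) : ℂ) ≤ 1)
    (hWQ : ∀ i k, V.valuation (((Q i).coeff k : K) : ℂ) ≤ 1)
    (hb : ∀ i, V.valuation ((b i : ℤ) : ℂ) = 1) {t : K} (ht0 : t ≠ 0)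
    (ht : V.valuation (t : ℂ) < 1) {Y : Set (Fin n → ℂ)}
    (hY : ∀ y ∈ Y, ∀ J : Finset (Fin n), J.card = m + 1 →
      eval₂ (evalAt K t) (fun j : J => y j) (G J) = 0)
    {x : Fin n → ℂ} (hx : x ∈ shiftBy e P Q t Y) :
    ∃ E : Finset (Fin n), E.card ≤ m ∧ ∀ i, i ∉ E →
      V.valuation (b i * (t : ℂ) ^ e i * x i - a i) < 1 := by
  classical
  have htV : algebraMap K ℂ t ∈ V := (ValuationSubring.valuation_le_one_iff _ _).1 ht.le
  have htC : (t : ℂ) ≠ 0 := by
    intro h
    exact ht0 (Subtype.ext h)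
  have hsub : ∀ f : Polynomial K, (∀ k, V.valuation ((f.coeff k : K) : ℂ) ≤ 1) →
      V.valuation (evalAt K t f - algebraMap K ℂ (f.eval 0)) < 1 := by
    intro f hf
    rw [evalAt_coe, ← map_sub]
    refine TH526.ZL.v_eval_sub V f (fun k => (ValuationSubring.valuation_le_one_iff _ _).1 (hf k))
      htV ?_ ?_
    · rw [map_zero]
      exact zero_mem V
    · rw [sub_zero]
      exact ht
  refine ⟨Finset.univ.filter fun i => ¬ V.valuation (b i * (t : ℂ) ^ e i * x i - a i) < 1, ?_, ?_⟩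
  · by_contra hcard
    rw [not_le] at hcard
    obtain ⟨J, hJE, hJ⟩ := Finset.exists_subset_card_eq (Nat.succ_le_of_lt hcard)
    have hJ' : J.card = m + 1 := hJ
    set y : Fin n → ℂ := fun i => x i - evalAt K t (P i) / ((t : ℂ) ^ e i * evalAt K t (Q i))
      with hy
    have hyJ := hY y hx J hJ'
    have hlarge : ∀ j : J, 1 < V.valuation (y j) := by
      intro j
      have h1 := (Finset.mem_filter.1 (hJE j.2)).2
      rw [not_lt] at h1
      by_contra hle
      push Not at hle
      have hPt := hsub (P j) (hWP j)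
      have hQt := hsub (Q j) (hWQ j)
      rw [hP, map_intCast] at hPt
      rw [hQ, map_intCast] at hQt
      have hQ1 : V.valuation (evalAt K t (Q j)) = 1 := by
        have h2 : evalAt K t (Q j) = (evalAt K t (Q j) - (b j : ℂ)) + b j := by ring
        rw [h2, Valuation.map_add_eq_of_lt_right _ (by rw [hb]; exact hQt), hb]
      have hQ0 : evalAt K t (Q j) ≠ 0 := by
        intro h0
        rw [h0, map_zero] at hQ1
        exact zero_ne_one hQ1
      have hPle : V.valuation (evalAt K t (P j)) ≤ 1 := by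
        have h2 : evalAt K t (P j) = (evalAt K t (P j) - (a j : ℂ)) + a j := by ring
        rw [h2]
        exact (Valuation.map_add _ _ _).trans (max_le hPt.le (TH526.ZL.v_int_le V _))
      have htp : V.valuation ((t : ℂ) ^ e j) < 1 := by
        rw [map_pow]
        exact pow_lt_one₀ zero_le ht (he j).ne'
      have e1 : (t : ℂ) ^ e j * x j * evalAt K t (Q j) - evalAt K t (P j) =
          (t : ℂ) ^ e j * (y j * evalAt K t (Q j)) := by
        rw [hy]
        have := pow_ne_zero (e j) htC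
        field_simp
      have h3 : V.valuation ((t : ℂ) ^ e j * x j * evalAt K t (Q j) - evalAt K t (P j)) < 1 := by
        rw [e1, map_mul, map_mul, hQ1, mul_one]
        exact (mul_le_of_le_one_right' hle).trans_lt htp
      have h4 : V.valuation ((t : ℂ) ^ e j * x j) ≤ 1 := by
        have h5 : V.valuation ((t : ℂ) ^ e j * x j * evalAt K t (Q j)) ≤ 1 := by
          have h6 : (t : ℂ) ^ e j * x j * evalAt K t (Q j) =
            ((t : ℂ) ^ e j * x j * evalAt K t (Q j) - evalAt K t (P j)) + evalAt K t (P j) := by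
            ring
          rw [h6]
          exact (Valuation.map_add _ _ _).trans (max_le h3.le hPle)
        rwa [map_mul, hQ1, mul_one] at h5
      have h7 : V.valuation (b j * (t : ℂ) ^ e j * x j - a j) < 1 := by
        have h8 : (b j : ℂ) * (t : ℂ) ^ e j * x j - a j =
            ((t : ℂ) ^ e j * x j * evalAt K t (Q j) - evalAt K t (P j)) +
            ((evalAt K t (P j) - a j) - (t : ℂ) ^ e j * x j * (evalAt K t (Q j) - b j)) := by
          ring
        rw [h8]
        refine Valuation.map_add_lt _ h3 ((Valuation.map_sub _ _ _).trans_lt (max_lt hPt ?_))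
        rw [map_mul]
        exact (mul_le_of_le_one_left' h4).trans_lt hQt
      exact absurd h1 (not_le.2 h7)
    have hcoef : ∀ u k, V.valuation ((((G J).coeff u).coeff k : K) : ℂ) ≤ 1 := fun u k =>
      (ValuationSubring.valuation_le_one_iff _ _).2 (TH526.ZL.coefsT_mem V (fun z hz =>
        (ValuationSubring.valuation_le_one_iff _ _).1 (hW z (Set.mem_iUnion.2 ⟨J, hz⟩))) u k)
    obtain ⟨j, hj⟩ := top_small V (MvPolynomial.map (evalAt K t) (G J)) (fun u => by
        rw [coeff_map, evalAt_coe]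
        exact (ValuationSubring.valuation_le_one_iff _ _).2 (TH526.ZL.eval1_mem V _ (fun k =>
          (ValuationSubring.valuation_le_one_iff _ _).1 (hcoef u k)) htV)) (d J) (fun u hu j => by
        refine hd J hJ' u ?_ j
        rw [mem_support_iff] at hu ⊢
        intro h0
        rw [coeff_map, h0, map_zero] at hu
        exact hu rfl) (by
        rw [coeff_map]
        have h1 := hsub ((G J).coeff (d J)) (hcoef _)
        have h2 : V.valuation (algebraMap K ℂ (((G J).coeff (d J)).eval 0)) = 1 := by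
          refine hW' _ ?_ (htop J hJ')
          refine Set.mem_iUnion.2 ⟨J, Set.mem_biUnion (x := d J) ?_ ⟨0, ?_, ?_⟩⟩
          · rw [Finset.mem_coe, mem_support_iff]
            intro h0
            exact htop J hJ' (by rw [h0, Polynomial.eval_zero])
          · rw [Finset.mem_coe, Polynomial.mem_support_iff, Polynomial.coeff_zero_eq_eval_zero]
            exact htop J hJ'
          · exact Polynomial.coeff_zero_eq_eval_zero _
        have h3 : evalAt K t ((G J).coeff (d J)) =
          (evalAt K t ((G J).coeff (d J)) - algebraMap K ℂ (((G J).coeff (d J)).eval 0)) +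
            algebraMap K ℂ (((G J).coeff (d J)).eval 0) := by ring
        rw [h3, Valuation.map_add_eq_of_lt_right _ (by rw [h2]; exact h1), h2])
      (fun j : J => y j) (by
        rw [eval_map]
        exact hyJ)
    exact absurd hj (not_le.2 (hlarge j))
  · intro i hi
    rw [Finset.mem_filter, not_and, not_not] at hi
    exact hi (Finset.mem_univ i)

/-- Good translates have no atypical intersections. -/
theorem rat_crit (hord : S_ORD2) (K : Subfield ℂ) [Countable K] (n m : ℕ) (e : Fin n → ℕ)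
    (he : ∀ i, 0 < e i) (G : ∀ J : Finset (Fin n), MvPolynomial J (Polynomial K))
    (d : ∀ J : Finset (Fin n), J →₀ ℕ)
    (hd : ∀ J : Finset (Fin n), J.card = m + 1 → ∀ u ∈ (G J).support, ∀ j, u j ≤ d J j)
    (htop : ∀ J : Finset (Fin n), J.card = m + 1 → ((G J).coeff (d J)).eval 0 ≠ 0)
    (P Q : Fin n → Polynomial K) (a b : Fin n → ℤ) (ha0 : ∀ i, a i ≠ 0) (hb0 : ∀ i, b i ≠ 0)
    (hP : ∀ i, (P i).eval 0 = (a i : ℤ)) (hQ : ∀ i, (Q i).eval 0 = (b i : ℤ))
    (Γ : Finset ℂ) (hΓ : ∀ γ ∈ Γ, γ ∈ K) :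
    ∃ D : ℕ, ∀ q : ℚ, q ≠ 0 → ∀ p : Fin (n.choose 2 + 1) → ℕ,
      (∀ l, (p l).Prime ∧ D < p l ∧ (p l : ℤ) ∣ q.num) →
      (∀ l l', l ≠ l' → ∀ i j : Fin n, i < j → ∀ s s' : ℕ,
        od (p l) (nu e a b i j) (de e a b i j) * p l ^ s ≠
          od (p l') (nu e a b i j) (de e a b i j) * p l' ^ s') →
      ∀ Y : Set (Fin n → ℂ), (∀ y ∈ Y, ∀ J : Finset (Fin n), J.card = m + 1 →
        eval₂ (evalAt K q) (fun j : J => y j) (G J) = 0) →
      NoAtypical K Γ m (shiftBy e P Q q Y) := by
  classical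
  let W : Set K := coefSetT G ∪ ((⋃ i, TH526.ZL.coefs1 (P i)) ∪ ⋃ i, TH526.ZL.coefs1 (Q i))
  obtain ⟨D, hD⟩ := places K W ((coefSetT_finite G).union
    ((Set.finite_iUnion fun i => TH526.ZL.coefs1_finite _).union
      (Set.finite_iUnion fun i => TH526.ZL.coefs1_finite _))) Γ hΓ
  refine ⟨D + ∑ i, ((a i).natAbs + (b i).natAbs), fun q hq0 p hp hind Y hY => ?_⟩
  have hnd : ∀ l i, ¬ (p l : ℤ) ∣ a i ∧ ¬ (p l : ℤ) ∣ b i := by
    intro l i
    have h1 : (a i).natAbs + (b i).natAbs ≤ ∑ i, ((a i).natAbs + (b i).natAbs) :=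
      Finset.single_le_sum (f := fun i => (a i).natAbs + (b i).natAbs) (fun _ _ => Nat.zero_le _)
        (Finset.mem_univ i)
    have h2 := (hp l).2.1
    constructor
    · intro h
      have h3 := Nat.le_of_dvd (Int.natAbs_pos.2 (ha0 i)) (Int.natCast_dvd.1 h)
      omega
    · intro h
      have h3 := Nat.le_of_dvd (Int.natAbs_pos.2 (hb0 i)) (Int.natCast_dvd.1 h)
      omega
  have hqC : (q : ℂ) ≠ 0 := by exact_mod_cast hq0
  refine crit hord K Γ hΓ _ he p (fun l => (hp l).1) hqC hnd ?_ hind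
  intro l S x hx hS
  have hD' : D < p l := by
    have := (hp l).2.1
    omega
  obtain ⟨V, hV, hW1, hW2, hVΓ, hVx⟩ := hD (p l) (hp l).1 hD' S (fun i : S => x i) hS
  have hunit : ∀ z : ℤ, ¬ (p l : ℤ) ∣ z → V.valuation (z : ℂ) = 1 := by
    intro z hz
    have hchar := charP_residue V (hp l).1 hV
    refine le_antisymm (TH526.ZL.v_int_le _ z) ?_
    by_contra hlt
    push Not at hlt
    apply hz
    have h2 : IsLocalRing.residue V (z : V) = 0 := by
      rw [IsLocalRing.residue_eq_zero_iff, ValuationSubring.valuation_lt_one_iff]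
      exact_mod_cast hlt
    rw [map_intCast] at h2
    exact (CharP.intCast_eq_zero_iff _ (p l) z).1 h2
  have hnum : V.valuation ((q.num : ℤ) : ℂ) < 1 := by
    obtain ⟨y, hy⟩ := (hp l).2.2
    rw [hy]
    push_cast
    rw [map_mul]
    exact (mul_le_of_le_one_right' (TH526.ZL.v_int_le V y)).trans_lt hV
  have hden : V.valuation ((q.den : ℤ) : ℂ) = 1 := by
    refine hunit _ fun h => ?_
    have h1 : p l ∣ q.den := by exact_mod_cast h
    have h2 : p l ∣ q.num.natAbs := Int.natCast_dvd.1 (hp l).2.2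
    have h3 := Nat.dvd_gcd h2 h1
    rw [q.reduced] at h3
    exact (hp l).1.one_lt.ne' (Nat.dvd_one.1 h3)
  have hqV : V.valuation (q : ℂ) < 1 := by
    have h1 : (q : ℂ) = ((q.num : ℤ) : ℂ) / ((q.den : ℤ) : ℂ) := by
      rw [Rat.cast_def]
      push_cast
      rfl
    rw [h1, map_div₀, hden, div_one]
    exact hnum
  have hqK : ((q : K) : ℂ) = (q : ℂ) := by
    push_cast
    rfl
  have hpol : ∀ R : Fin n → Polynomial K, (∀ i, TH526.ZL.coefs1 (R i) ⊆ W) →
      ∀ i k, V.valuation (((R i).coeff k : K) : ℂ) ≤ 1 := by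
    intro R hR i k
    exact (ValuationSubring.valuation_le_one_iff _ _).2 (TH526.ZL.coefs1_mem V (fun z hz =>
      (ValuationSubring.valuation_le_one_iff _ _).1 (hW1 z (hR i hz))) k)
  refine ⟨V, hV, hqV, hVΓ, hVx, ?_⟩
  have h1 := rat_place he hd htop hP hQ V (fun z hz => hW1 z (Or.inl hz))
    (fun z hz => hW2 z (Or.inl hz))
    (hpol P fun i z hz => Or.inr (Or.inl (Set.mem_iUnion.2 ⟨i, hz⟩)))
    (hpol Q fun i z hz => Or.inr (Or.inr (Set.mem_iUnion.2 ⟨i, hz⟩)))
    (fun i => hunit _ (hnd l i).2) (t := (q : K)) (by exact_mod_cast hq0)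
    (by rw [hqK]; exact hqV) (Y := Y) (by rw [hqK]; exact hY) (x := x) (by rw [hqK]; exact hx)
  rw [hqK] at h1
  exact h1

end Pool.Agent.NH30.KT
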