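import Pool.Agent.NH30.KT.Fam

/-!
# One-parameter families with a star-shaped limit (helper30)
-/

set_option autoImplicit false

open Function UpperHalfPlane H294ZP MvPolynomial

namespace Pool.Agent.NH30.KT

/-- The value at `t` of a polynomial with coefficients in `K`. -/
noncomputable def evalAt (K : Subfield ℂ) (t : ℂ) : Polynomial K →+* ℂ :=
  (Polynomial.aeval t : Polynomial K →ₐ[K] ℂ).toRingHom

/-- The member at `t` of the family: the points `x` for which `(t ^ e j * x j, j ∈ J)` is a zero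
of `F J` (with coefficients at `t`), for all sets `J` of `m + 1` coordinates. -/
def member {K : Subfield ℂ} {n : ℕ} (m : ℕ) (e : Fin n → ℕ)
    (F : ∀ J : Finset (Fin n), MvPolynomial J (Polynomial K)) (t : ℂ) : Set (Fin n → ℂ) :=
  {x | ∀ J : Finset (Fin n), J.card = m + 1 →
    eval₂ (evalAt K t) (fun j : J => t ^ e j * x j) (F J) = 0}

/-- the finite set of coefficients -/
def coefSetT {K : Subfield ℂ} {n : ℕ} (F : ∀ J : Finset (Fin n), MvPolynomial J (Polynomial K)) :
    Set K := ⋃ J : Finset (Fin n), TH526.ZL.coefsT (F J)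

theorem coefSetT_finite {K : Subfield ℂ} {n : ℕ}
    (F : ∀ J : Finset (Fin n), MvPolynomial J (Polynomial K)) : (coefSetT F).Finite :=
  Set.finite_iUnion fun _ => TH526.ZL.coefsT_finite _

/-- one place -/
theorem star_place {K : Subfield ℂ} {n m : ℕ} {e : Fin n → ℕ}
    {F : ∀ J : Finset (Fin n), MvPolynomial J (Polynomial K)} {d : ∀ J : Finset (Fin n), J →₀ ℕ}
    (hd : ∀ J : Finset (Fin n), J.card = m + 1 → ∀ u ∈ (F J).support, ∀ j, u j ≤ d J j)
    {a b : Fin n → ℤ} {κ : Finset (Fin n) → K}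
    (hstar : ∀ J : Finset (Fin n), J.card = m + 1 →
      MvPolynomial.map (Polynomial.evalRingHom 0) (F J) =
        C (κ J) * ∏ j : J, (C ((b j : ℤ) : K) * X j - C ((a j : ℤ) : K)) ^ d J j)
    (V : ValuationSubring ℂ) (hW : ∀ z ∈ coefSetT F, V.valuation (z : ℂ) ≤ 1)
    (hκ : ∀ J, J.card = m + 1 → V.valuation ((κ J : K) : ℂ) = 1)
    (hb : ∀ i, V.valuation ((b i : ℤ) : ℂ) = 1) {t : K} (ht : V.valuation (t : ℂ) < 1)
    {x : Fin n → ℂ} (hx : x ∈ member m e F t) :
    ∃ E : Finset (Fin n), E.card ≤ m ∧ ∀ i, i ∉ E →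
      V.valuation (b i * (t : ℂ) ^ e i * x i - a i) < 1 := by
  classical
  refine ⟨Finset.univ.filter fun i => ¬ V.valuation (b i * (t : ℂ) ^ e i * x i - a i) < 1, ?_, ?_⟩
  · by_contra hcard
    rw [not_le] at hcard
    obtain ⟨J, hJE, hJ⟩ := Finset.exists_subset_card_eq (Nat.succ_le_of_lt hcard)
    have hJ' : J.card = m + 1 := hJ
    have hJx := hx J hJ'
    set z : J → ℂ := fun j => (t : ℂ) ^ e j * x j with hz
    set w : J → ℂ := fun j => b j * z j - a j with hw
    have hw1 : ∀ j, 1 ≤ V.valuation (w j) := by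
      intro j
      have h1 := (Finset.mem_filter.1 (hJE j.2)).2
      rw [not_lt, mul_assoc] at h1
      exact h1
    have hzw : ∀ j, V.valuation (z j) ≤ V.valuation (w j) := by
      intro j
      have h1 : V.valuation (z j) = V.valuation (w j + a j) := by
        have h2 : w j + a j = b j * z j := by rw [hw]; ring
        rw [h2, Valuation.map_mul V.valuation (b j : ℂ) (z j), hb, one_mul]
      rw [h1]
      exact (Valuation.map_add _ _ _).trans (max_le le_rfl
        ((TH526.ZL.v_int_le V _).trans (hw1 j)))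
    have hmem : ∀ u i, algebraMap K ℂ (((F J).coeff u).coeff i) ∈ V := by
      intro u i
      refine TH526.ZL.coefsT_mem V (fun y hy => ?_) u i
      exact (ValuationSubring.valuation_le_one_iff _ _).1 (hW y (Set.mem_iUnion.2 ⟨J, hy⟩))
    have htV : algebraMap K ℂ t ∈ V := (ValuationSubring.valuation_le_one_iff _ _).1 ht.le
    -- the two values
    have e1 : ∑ u ∈ (F J).support, algebraMap K ℂ (((F J).coeff u).eval t) * ∏ j, z j ^ u j = 0 := by
      rw [eval₂_eq'] at hJx
      rw [← hJx]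
      refine Finset.sum_congr rfl fun u _ => ?_
      congr 1
      show _ = Polynomial.aeval (algebraMap K ℂ t) ((F J).coeff u)
      rw [Polynomial.aeval_algebraMap_apply]
      rfl
    have e2 : ∑ u ∈ (F J).support, algebraMap K ℂ (((F J).coeff u).eval 0) * ∏ j, z j ^ u j =
        (κ J : ℂ) * ∏ j, w j ^ d J j := by
      have h1 := congrArg (aeval z) (hstar J hJ')
      rw [aeval_def, eval₂_map, eval₂_eq'] at h1
      rw [map_mul, map_prod, aeval_C] at h1
      rw [show (∑ u ∈ (F J).support, algebraMap K ℂ (((F J).coeff u).eval 0) * ∏ j, z j ^ u j) =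
        ∑ u ∈ (F J).support, ((algebraMap K ℂ).comp (Polynomial.evalRingHom 0)) ((F J).coeff u) *
          ∏ i, z i ^ u i from rfl, h1]
      congr 1
      refine Finset.prod_congr rfl fun j _ => ?_
      rw [map_pow, map_sub, map_mul, aeval_C, aeval_C, aeval_X, map_intCast, map_intCast]
    have e3 : (κ J : ℂ) * ∏ j, w j ^ d J j =
        - ∑ u ∈ (F J).support, algebraMap K ℂ (((F J).coeff u).eval t - ((F J).coeff u).eval 0) *
          ∏ j, z j ^ u j := by
      rw [← e2, eq_neg_iff_add_eq_zero, ← Finset.sum_add_distrib, ← e1]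
      refine Finset.sum_congr rfl fun u _ => ?_
      rw [map_sub]
      ring
    have hprod0 : ∏ j, V.valuation (w j) ^ d J j ≠ 0 :=
      Finset.prod_ne_zero_iff.2 fun j _ => pow_ne_zero _ (zero_lt_one.trans_le (hw1 j)).ne'
    have e4 : V.valuation ((κ J : ℂ) * ∏ j, w j ^ d J j) = ∏ j, V.valuation (w j) ^ d J j := by
      rw [map_mul, hκ J hJ', one_mul, map_prod]
      exact Finset.prod_congr rfl fun j _ => map_pow _ _ _
    have e5 : V.valuation ((κ J : ℂ) * ∏ j, w j ^ d J j) < ∏ j, V.valuation (w j) ^ d J j := by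
      rw [e3, Valuation.map_neg]
      refine Valuation.map_sum_lt _ hprod0 fun u hu => ?_
      rw [map_mul, map_prod]
      have h1 : V.valuation (algebraMap K ℂ (((F J).coeff u).eval t - ((F J).coeff u).eval 0)) < 1 := by
        refine TH526.ZL.v_eval_sub V _ (hmem u) htV ?_ ?_
        · rw [map_zero]
          exact zero_mem V
        · rw [sub_zero]
          exact ht
      have h2 : ∏ j, V.valuation (z j ^ u j) ≤ ∏ j, V.valuation (w j) ^ d J j := by
        refine Finset.prod_le_prod' fun j _ => ?_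
        rw [map_pow]
        exact (pow_le_pow_left₀ zero_le (hzw j) _).trans
          (pow_le_pow_right₀ (hw1 j) (hd J hJ' u hu j))
      calc V.valuation (algebraMap K ℂ (((F J).coeff u).eval t - ((F J).coeff u).eval 0)) *
            ∏ j, V.valuation (z j ^ u j) ≤
          V.valuation (algebraMap K ℂ (((F J).coeff u).eval t - ((F J).coeff u).eval 0)) *
            ∏ j, V.valuation (w j) ^ d J j := by gcongr
        _ < 1 * ∏ j, V.valuation (w j) ^ d J j :=
          mul_lt_mul_of_pos_right h1 (zero_lt_iff.2 hprod0)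
        _ = _ := one_mul _
    rw [e4] at e5
    exact lt_irrefl _ e5
  · intro i hi
    rw [Finset.mem_filter, not_and, not_not] at hi
    exact hi (Finset.mem_univ i)

/-- Good members have no atypical intersections. -/
theorem star_crit (hord : S_ORD2) (K : Subfield ℂ) [Countable K] (n m : ℕ) (e : Fin n → ℕ)
    (he : ∀ i, 0 < e i) (F : ∀ J : Finset (Fin n), MvPolynomial J (Polynomial K))
    (d : ∀ J : Finset (Fin n), J →₀ ℕ)
    (hd : ∀ J : Finset (Fin n), J.card = m + 1 → ∀ u ∈ (F J).support, ∀ j, u j ≤ d J j)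
    (a b : Fin n → ℤ) (ha0 : ∀ i, a i ≠ 0) (hb0 : ∀ i, b i ≠ 0) (κ : Finset (Fin n) → K)
    (hκ : ∀ J, J.card = m + 1 → κ J ≠ 0)
    (hstar : ∀ J : Finset (Fin n), J.card = m + 1 →
      MvPolynomial.map (Polynomial.evalRingHom 0) (F J) =
        C (κ J) * ∏ j : J, (C ((b j : ℤ) : K) * X j - C ((a j : ℤ) : K)) ^ d J j)
    (Γ : Finset ℂ) (hΓ : ∀ γ ∈ Γ, γ ∈ K) :
    ∃ D : ℕ, ∀ q : ℚ, q ≠ 0 → ∀ p : Fin (n.choose 2 + 1) → ℕ,
      (∀ l, (p l).Prime ∧ D < p l ∧ (p l : ℤ) ∣ q.num) →
      (∀ l l', l ≠ l' → ∀ i j : Fin n, i < j → ∀ s s' : ℕ,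
        od (p l) (nu e a b i j) (de e a b i j) * p l ^ s ≠
          od (p l') (nu e a b i j) (de e a b i j) * p l' ^ s') →
      NoAtypical K Γ m (member m e F q) := by
  classical
  let W : Set K := coefSetT F ∪ Set.range κ
  obtain ⟨D, hD⟩ := places K W ((coefSetT_finite F).union (Set.finite_range κ)) Γ hΓ
  refine ⟨D + ∑ i, ((a i).natAbs + (b i).natAbs), fun q hq0 p hp hind => ?_⟩
  have hnd : ∀ l i, ¬ (p l : ℤ) ∣ a i ∧ ¬ (p l : ℤ) ∣ b i := by
    intro l i
    have h1 : (a i).natAbs + (b i).natAbs ≤ ∑ i, ((a i).natAbs + (b i).natAbs) :=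
      Finset.single_le_sum (f := fun i => (a i).natAbs + (b i).natAbs) (fun _ _ => Nat.zero_le _)
        (Finset.mem_univ i)
    have h2 := (hp l).2.1
    constructor
    · intro h
      have h3 := Nat.le_of_dvd (Int.natAbs_pos.2 (ha0 i)) (Int.natCast_dvd.1 h)
      omega
    · intro h
      have h3 := Nat.le_of_dvd (Int.natAbs_pos.2 (hb0 i)) (Int.natCast_dvd.1 h)
      omega
  have hqC : (q : ℂ) ≠ 0 := by exact_mod_cast hq0
  refine crit hord K Γ hΓ _ he p (fun l => (hp l).1) hqC hnd ?_ hind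
  intro l S x hx hS
  have hD' : D < p l := by
    have := (hp l).2.1
    omega
  obtain ⟨V, hV, hW1, hW2, hVΓ, hVx⟩ := hD (p l) (hp l).1 hD' S (fun i : S => x i) hS
  have hunit : ∀ z : ℤ, ¬ (p l : ℤ) ∣ z → V.valuation (z : ℂ) = 1 := by
    intro z hz
    have hchar := charP_residue V (hp l).1 hV
    refine le_antisymm (TH526.ZL.v_int_le _ z) ?_
    by_contra hlt
    push Not at hlt
    apply hz
    have h2 : IsLocalRing.residue V (z : V) = 0 := by
      rw [IsLocalRing.residue_eq_zero_iff, ValuationSubring.valuation_lt_one_iff]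
      exact_mod_cast hlt
    rw [map_intCast] at h2
    exact (CharP.intCast_eq_zero_iff _ (p l) z).1 h2
  have hnum : V.valuation ((q.num : ℤ) : ℂ) < 1 := by
    obtain ⟨y, hy⟩ := (hp l).2.2
    rw [hy]
    push_cast
    rw [map_mul]
    exact (mul_le_of_le_one_right' (TH526.ZL.v_int_le V y)).trans_lt hV
  have hden : V.valuation ((q.den : ℤ) : ℂ) = 1 := by
    refine hunit _ fun h => ?_
    have h1 : p l ∣ q.den := by exact_mod_cast h
    have h2 : p l ∣ q.num.natAbs := Int.natCast_dvd.1 (hp l).2.2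
    have h3 := Nat.dvd_gcd h2 h1
    rw [q.reduced] at h3
    exact (hp l).1.one_lt.ne' (Nat.dvd_one.1 h3)
  have hqV : V.valuation (q : ℂ) < 1 := by
    have h1 : (q : ℂ) = ((q.num : ℤ) : ℂ) / ((q.den : ℤ) : ℂ) := by
      rw [Rat.cast_def]
      push_cast
      rfl
    rw [h1, map_div₀, hden, div_one]
    exact hnum
  have hqK : ((q : K) : ℂ) = (q : ℂ) := by
    push_cast
    rfl
  refine ⟨V, hV, hqV, hVΓ, hVx, ?_⟩
  have h1 := star_place hd hstar V (fun z hz => hW1 z (Or.inl hz)) (fun J hJ =>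
    hW2 _ (Or.inr ⟨J, rfl⟩) (hκ J hJ)) (fun i => hunit _ (hnd l i).2) (t := (q : K))
    (by rw [hqK]; exact hqV) (x := x) (by rw [hqK]; exact hx)
  rw [hqK] at h1
  exact h1

end Pool.Agent.NH30.KT
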