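import Pool.Agent.H294ZP.Main

/-!
# Rational translates (helper30): definitions and task statements
-/

set_option autoImplicit false

open UpperHalfPlane

namespace Pool.Agent.NH30.KT

open H294ZP

/-- `x` and `y` are related by an integral matrix of determinant `N`. -/
def Rel (N : ℕ) (x y : ℂ) : Prop :=
  ∃ (τ w : ℍ) (a b c d : ℤ), a * d - b * c = N ∧ (w : ℂ) * (c * τ + d) = a * τ + b ∧
    x = jj τ ∧ y = jj w

/-- Task KT-A. `V` is a valuation ring of `ℂ` above `p`, `x` and `y` are not in `V`, their quotient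
`u` is a unit, and `N` is the smallest determinant of an integral matrix relating them. Then
`N = (g p ^ k) ^ 2`, and `g` is the order of the residue class of `u`. -/
def S_ORD : Prop := ∀ (V : ValuationSubring ℂ) (p N : ℕ) (x y : ℂ) (u : V), p.Prime →
  V.valuation (p : ℂ) < 1 → 0 < N → Rel N x y → (∀ M : ℕ, 0 < M → M < N → ¬ Rel M x y) →
  x ∉ V → IsUnit u → x = u * y →
  ∃ g k : ℕ, 0 < g ∧ ¬ p ∣ g ∧ N = (g * p ^ k) ^ 2 ∧ IsPrimitiveRoot (IsLocalRing.residue V u) g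

/-- The order of `a / b` modulo `p`. -/
noncomputable def od (p : ℕ) (a b : ℤ) : ℕ := orderOf ((a : ZMod p) * (b : ZMod p)⁻¹)

/-- `t` has `M` prime factors greater than `D`, prime to the `c i`, for which the orders of the
quotients `c i / c j` are essentially different. -/
def Gd (n M D : ℕ) (t : ℤ) (c : Fin n → ℤ) : Prop :=
  ∃ P : Fin M → ℕ, (∀ s, (P s).Prime ∧ D < P s ∧ (P s : ℤ) ∣ t ∧ ∀ i, ¬ (P s : ℤ) ∣ c i) ∧
    ∀ s s', s ≠ s' → ∀ i j, i ≠ j → ∀ a b : ℕ,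
      od (P s) (c i) (c j) * P s ^ a ≠ od (P s') (c i) (c j) * P s' ^ b

/-- Task KT-B. Almost all integral vectors `(t, c)` are good. -/
def S_RANDOM : Prop := ∀ (n M D : ℕ) (ε : ℝ), 0 < ε → ∃ H₀ : ℕ, ∀ H : ℕ, H₀ ≤ H →
  ({v : ℤ × (Fin n → ℤ) | |v.1| ≤ (H : ℤ) ∧ (∀ i, |v.2 i| ≤ (H : ℤ)) ∧
    (v.1 = 0 ∨ ¬ Gd n M D v.1 v.2)}.ncard : ℝ) ≤ ε * (2 * H + 1) ^ (n + 1)

/-- Task KT-C. For fixed `c`, almost all integers `t` are good. -/
def S_FIXED : Prop := ∀ (n M D : ℕ) (c : Fin n → ℤ), (∀ i, c i ≠ 0) →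
  (∀ i j, i ≠ j → |c i| ≠ |c j|) → ∀ ε : ℝ, 0 < ε → ∃ H₀ : ℕ, ∀ H : ℕ, H₀ ≤ H →
  ({t : ℕ | 1 ≤ t ∧ t ≤ H ∧ ¬ Gd n M D t c}.ncard : ℝ) ≤ ε * H

end Pool.Agent.NH30.KT
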