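import Pool.Agent.NH30.KT.Fam

/-!
# Translates (helper30)
-/

set_option autoImplicit false

open Function UpperHalfPlane H294ZP MvPolynomial

namespace Pool.Agent.NH30.KT

theorem ex_one : ex 1 1 = 1 := by decide

/-- the translate of `Y` by the vector `c / t` -/
def translate {n : ℕ} (t : ℤ) (c : Fin n → ℤ) (Y : Set (Fin n → ℂ)) : Set (Fin n → ℂ) :=
  {x | (fun i => x i - (c i : ℂ) / (t : ℂ)) ∈ Y}

/-- the finite set of coefficients -/
def coefSet {K : Subfield ℂ} {n : ℕ} (G : ∀ J : Finset (Fin n), MvPolynomial J K) : Set K :=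
  ⋃ J : Finset (Fin n), (fun u => (G J).coeff u) '' ((G J).support : Set (J →₀ ℕ))

theorem coefSet_finite {K : Subfield ℂ} {n : ℕ} (G : ∀ J : Finset (Fin n), MvPolynomial J K) :
    (coefSet G).Finite :=
  Set.finite_iUnion fun _ => (Finset.finite_toSet _).image _

theorem mem_coefSet {K : Subfield ℂ} {n : ℕ} (G : ∀ J : Finset (Fin n), MvPolynomial J K)
    (J : Finset (Fin n)) (u : J →₀ ℕ) (h : (G J).coeff u ≠ 0) : (G J).coeff u ∈ coefSet G :=
  Set.mem_iUnion.2 ⟨J, u, Finset.mem_coe.2 (mem_support_iff.2 h), rfl⟩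

/-- Good translates have no atypical intersections. -/
theorem trans_crit (hord : S_ORD2) (K : Subfield ℂ) [Countable K] (n m : ℕ)
    (G : ∀ J : Finset (Fin n), MvPolynomial J K) (d : ∀ J : Finset (Fin n), J →₀ ℕ)
    (hd : ∀ J : Finset (Fin n), J.card = m + 1 → ∀ u ∈ (G J).support, ∀ j, u j ≤ d J j)
    (htop : ∀ J : Finset (Fin n), J.card = m + 1 → (G J).coeff (d J) ≠ 0)
    (Y : Set (Fin n → ℂ))
    (hY : ∀ y ∈ Y, ∀ J : Finset (Fin n), J.card = m + 1 → aeval (fun j : J => y j) (G J) = 0)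
    (Γ : Finset ℂ) (hΓ : ∀ γ ∈ Γ, γ ∈ K) :
    ∃ D : ℕ, ∀ (t : ℤ) (c : Fin n → ℤ), t ≠ 0 → Gd n (n.choose 2 + 1) D t c →
      NoAtypical K Γ m (translate t c Y) := by
  classical
  obtain ⟨D, hD⟩ := places K (coefSet G) (coefSet_finite G) Γ hΓ
  refine ⟨D, fun t c ht hgd => ?_⟩
  obtain ⟨p, hp, hind⟩ := hgd
  have ht0 : (t : ℂ) ≠ 0 := by exact_mod_cast ht
  refine crit hord K Γ hΓ _ (e := fun _ => 1) (fun _ => one_pos) (a := c) (b := fun _ => 1) p
    (fun l => (hp l).1) ht0 (fun l i => ⟨(hp l).2.2.2 i, ?_⟩) ?_ ?_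
  · intro h
    exact (hp l).1.one_lt.ne' (by
      have h1 := Int.natCast_dvd_natCast.1 (by simpa using h : ((p l : ℕ) : ℤ) ∣ ((1 : ℕ) : ℤ))
      exact Nat.dvd_one.1 h1)
  · intro l S x hx hS
    obtain ⟨V, hV, hW1, hW2, hVΓ, hVx⟩ := hD (p l) (hp l).1 (hp l).2.1 S (fun i : S => x i) hS
    have hVt : V.valuation (t : ℂ) < 1 := by
      obtain ⟨q, hq⟩ := (hp l).2.2.1
      rw [hq]
      push_cast
      rw [map_mul]
      exact (mul_le_of_le_one_right' (TH526.ZL.v_int_le V q)).trans_lt hV
    refine ⟨V, hV, hVt, hVΓ, hVx, Finset.univ.filter fun i =>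
      ¬ V.valuation (((1 : ℤ) : ℂ) * (t : ℂ) ^ 1 * x i - c i) < 1, ?_, ?_⟩
    · by_contra hcard
      push Not at hcard
      obtain ⟨J, hJE, hJ⟩ := Finset.exists_subset_card_eq (Nat.succ_le_of_lt hcard)
      have hJ' : J.card = m + 1 := hJ
      set y : Fin n → ℂ := fun i => x i - (c i : ℂ) / (t : ℂ) with hy
      have hyY : y ∈ Y := hx
      have hyJ := hY y hyY J hJ'
      have hlarge : ∀ j : J, 1 < V.valuation (y j) := by
        intro j
        have h1 : 1 ≤ V.valuation (((1 : ℤ) : ℂ) * (t : ℂ) ^ 1 * x j - c j) :=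
          (Finset.mem_filter.1 (hJE j.2)).2
        have h2 : ((1 : ℤ) : ℂ) * (t : ℂ) ^ 1 * x j - c j = t * y j := by
          rw [hy]
          push_cast
          field_simp
        rw [h2, map_mul] at h1
        by_contra hle
        push Not at hle
        exact absurd h1 (not_le.2 ((mul_le_of_le_one_right' hle).trans_lt hVt))
      obtain ⟨j, hj⟩ := top_small V (MvPolynomial.map (algebraMap K ℂ) (G J)) (fun u => by
          rw [coeff_map]
          by_cases h0 : (G J).coeff u = 0
          · rw [h0, map_zero, map_zero]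
            exact zero_le
          · exact hW1 _ (mem_coefSet G J u h0)) (d J) (fun u hu j => by
          refine hd J hJ' u ?_ j
          rw [mem_support_iff] at hu ⊢
          intro h0
          rw [coeff_map, h0, map_zero] at hu
          exact hu rfl) (by
          rw [coeff_map]
          exact hW2 _ (mem_coefSet G J _ (htop J hJ')) (htop J hJ')) (fun j : J => y j) (by
          rw [eval_map, ← aeval_def]
          exact hyJ)
      exact absurd hj (not_le.2 (hlarge j))
    · intro i hi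
      rw [Finset.mem_filter, not_and, not_not] at hi
      exact hi (Finset.mem_univ i)
  · intro l l' hll i j hij s s'
    have h1 := hind l l' hll i j hij.ne s s'
    have e1 : nu (fun _ : Fin n => 1) c (fun _ => 1) i j = c i := by
      unfold nu
      rw [ex_one]
      ring
    have e2 : de (fun _ : Fin n => 1) c (fun _ => 1) i j = c j := by
      unfold de
      rw [ex_one]
      ring
    rw [e1, e2]
    exact h1

end Pool.Agent.NH30.KT
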